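import Mathlib

namespace Pool.Agent.Lib.MP_dd9c4c_nt

variable (K : Type) {L ι : Type} [Field K] [Field L] [Algebra K L]

/-- Coordinate ring of the chart `Y i ≠ 0` of the variety with generic point `ξ`. -/
def chart (ξ : ι → L) (i : ι) : Subalgebra K L :=
  Algebra.adjoin K (Set.range fun j => ξ j / ξ i)

/-- Rational points of the variety with generic point `ξ`. -/
def pts (ξ : ι → L) : Set (Projectivization K (ι → K)) :=
  {x | ∀ (n : ℕ) (G : MvPolynomial ι K), G.IsHomogeneous n → MvPolynomial.aeval ξ G = 0 →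
    MvPolynomial.eval x.rep G = 0}

/-- Rank of the quotient of the subgroup generated by `S` by the subgroup generated by `T`. -/
noncomputable def quotRank {G : Type} [CommGroup G] (S T : Set G) : Cardinal :=
  Module.rank ℤ (Additive
    (Subgroup.closure S ⧸ (Subgroup.closure T).subgroupOf (Subgroup.closure S)))

/-- Rank of the Picard group: invertible subsheaves of the constant sheaf `L`, modulo principal
ones. -/
noncomputable def picRank (ξ : ι → L) : Cardinal :=
  quotRank {M : ∀ i, (Submodule (chart K ξ i) L)ˣ | ∀ i j,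
      Submodule.span ↥(chart K ξ i ⊔ chart K ξ j) ((M i : Submodule (chart K ξ i) L) : Set L) =
      Submodule.span ↥(chart K ξ i ⊔ chart K ξ j) ((M j : Submodule (chart K ξ j) L) : Set L)}
    {M | ∃ z : L, ∀ i, (M i : Submodule (chart K ξ i) L) = Submodule.span (chart K ξ i) {z}}

/-- The hypotheses of the problem for the variety with generic point `ξ`. -/
structure Hyp (ξ : ι → L) : Prop where
  ne : ∀ i, ξ i ≠ 0
  gen : IntermediateField.adjoin K {z | ∃ i j, z = ξ i / ξ j} = ⊤
  smooth : ∀ i, Algebra.Smooth K (chart K ξ i)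
  geom : IsDomain (TensorProduct K (AlgebraicClosure K) L)
  canon : ∃ Δ : AlternatingMap L (KaehlerDifferential K L) L
      (Fin (Module.finrank L (KaehlerDifferential K L))), ∀ i,
    Submodule.span (chart K ξ i) {z | ∃ a : Fin (Module.finrank L (KaehlerDifferential K L)) → L,
      (∀ k, a k ∈ chart K ξ i) ∧ z = Δ fun k => KaehlerDifferential.D K L (a k)} =
    Submodule.span (chart K ξ i) {(ξ i)⁻¹}
  h1 : ∀ c : ι → ι → L, (∀ i j, c i j ∈ chart K ξ i ⊔ chart K ξ j) →
    (∀ i j k, c j k - c i k + c i j = 0) →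
    ∃ b : ι → L, (∀ i, b i ∈ chart K ξ i) ∧ ∀ i j, c i j = b j - b i
  h2 : ∀ c : ι → ι → ι → L, (∀ i j k, c i j k ∈ chart K ξ i ⊔ chart K ξ j ⊔ chart K ξ k) →
    (∀ i j k l, c j k l - c i k l + c i j l - c i j k = 0) →
    ∃ b : ι → ι → L, (∀ i j, b i j ∈ chart K ξ i ⊔ chart K ξ j) ∧
      ∀ i j k, c i j k = b j k - b i k + b i j
  dense : ∀ (n : ℕ) (G : MvPolynomial ι K), G.IsHomogeneous n →
    (∀ x ∈ pts K ξ, MvPolynomial.eval x.rep G = 0) → MvPolynomial.aeval ξ G = 0

/-- Height of a point of projective space over `K = F(T)`. -/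
noncomputable def height (F : Type) {K : Type} [Field F] [Field K] [Algebra (Polynomial F) K]
    (x : Projectivization K (ι → K)) : ℕ :=
  sInf {n | ∃ (P : ι → Polynomial F) (c : K),
    (x.rep = fun i => c * algebraMap (Polynomial F) K (P i)) ∧ ∀ i, (P i).natDegree ≤ n}

/-- The series `∑ x ∈ U, q ^ (-s * h x)` has a pole of order exactly `t` at its abscissa of
convergence. -/
def HasPole {X : Type} (q : ℕ) (h : X → ℕ) (U : Set X) (t : ℕ) : Prop :=
  ∃ θ : ℝ, IsGLB {σ : ℝ | ∀ s : ℂ, σ < s.re → Summable fun x : U => (q : ℂ) ^ (-s * h x)} θ ∧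
    ∃ f : ℂ → ℂ, MeromorphicAt f θ ∧ meromorphicOrderAt f θ = (-t : ℤ) ∧
      ∀ᶠ s in nhds (θ : ℂ), θ < s.re → f s = ∑' x : U, (q : ℂ) ^ (-s * h x)

end Pool.Agent.Lib.MP_dd9c4c_nt
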