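import Mathlib
import Pool.Agent.Lib.MP_dd9c4c_nt.Defs

set_option linter.unusedSectionVars false
set_option linter.unusedSimpArgs false
set_option linter.unusedVariables false

namespace Pool.Agent.Lib.MP_dd9c4c_nt

open Filter Topology

variable {X : Type} {q : ℕ} {h : X → ℕ} {U : Set X} {t : ℕ}

lemma HasPole.real (hq : 1 < q) (H : HasPole q h U t) :
    ∃ θ c : ℝ, 0 < c ∧ (∀ σ, θ < σ → Summable fun x : U => (q : ℝ) ^ (-σ * h x)) ∧
      (∀ σ, σ < θ → ¬ Summable fun x : U => (q : ℝ) ^ (-σ * h x)) ∧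
      Tendsto (fun σ : ℝ => (σ - θ) ^ t * ∑' x : U, (q : ℝ) ^ (-σ * h x)) (𝓝[>] θ) (𝓝 c) := by
  obtain ⟨θ, hθ, f, hf, ho, he⟩ := H
  have hq' : (1 : ℝ) < q := by exact_mod_cast hq
  have hn : ∀ (s : ℂ) (x : U), ‖(q : ℂ) ^ (-s * h x)‖ = (q : ℝ) ^ (-s.re * h x) := by
    intro s x
    rw [Complex.norm_natCast_cpow_of_pos (by omega)]
    simp
  obtain ⟨g, hg, hg0, hfg⟩ := (meromorphicOrderAt_eq_int_iff hf).1 ho
  refine ⟨θ, ‖g θ‖, norm_pos_iff.2 hg0, fun σ hσ => ?_, fun σ hσ hs => ?_, ?_⟩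
  · obtain ⟨σ', h1, -, h2⟩ := hθ.exists_between hσ
    have := (h1 σ (by simpa using h2)).norm
    simpa only [hn, Complex.ofReal_re] using this
  · refine absurd (hθ.1 (show σ ∈ _ from fun s hs' => Summable.of_norm ?_)) (not_le.2 hσ)
    simp only [hn]
    refine Summable.of_nonneg_of_le (fun _ => by positivity) (fun x => ?_) hs
    refine Real.rpow_le_rpow_of_exponent_le hq'.le ?_
    have : (0 : ℝ) ≤ h x := Nat.cast_nonneg _
    nlinarith
  · have h1 : Tendsto (fun σ : ℝ => (σ : ℂ)) (𝓝[>] θ) (𝓝 (θ : ℂ)) :=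
      (Complex.continuous_ofReal.tendsto θ).mono_left nhdsWithin_le_nhds
    have h2 : Tendsto (fun σ : ℝ => (σ : ℂ)) (𝓝[>] θ) (𝓝[≠] (θ : ℂ)) := by
      refine tendsto_nhdsWithin_iff.2 ⟨h1, ?_⟩
      filter_upwards [self_mem_nhdsWithin] with σ hσ
      simpa using (ne_of_gt hσ)
    refine ((hg.continuousAt.tendsto.comp h1).norm).congr' ?_
    filter_upwards [self_mem_nhdsWithin, h1.eventually he, h2.eventually hfg] with σ hσ e1 e2
    have hσ' : θ < σ := hσ
    have e3 := e1 (by simpa using hσ')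
    have e4 : ∑' x : U, (q : ℂ) ^ (-(σ : ℂ) * h x) =
        ((∑' x : U, (q : ℝ) ^ (-σ * h x) : ℝ) : ℂ) := by
      rw [Complex.ofReal_tsum]
      refine tsum_congr fun x => ?_
      rw [Complex.ofReal_cpow (by positivity)]
      simp
    have hne : (σ : ℂ) - θ ≠ 0 := by
      rw [← Complex.ofReal_sub, Complex.ofReal_ne_zero]; linarith
    have e5 : g σ = (((σ - θ) ^ t * ∑' x : U, (q : ℝ) ^ (-σ * h x) : ℝ) : ℂ) := by
      rw [Complex.ofReal_mul, ← e4, ← e3, e2, smul_eq_mul, zpow_neg, zpow_natCast]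
      push_cast
      rw [mul_inv_cancel_left₀ (pow_ne_zero _ hne)]
    rw [Function.comp_apply, e5, Complex.norm_real, Real.norm_of_nonneg]
    exact mul_nonneg (pow_nonneg (by linarith) _) (tsum_nonneg fun _ => by positivity)

theorem no_poles {X' Y : Type} {h' : X' → ℕ} {U' : Set X'} {hY : Y → ℕ} (hq : 1 < q)
    (H : HasPole q h U 3) (H' : HasPole q h' U' 4)
    (LB : ∃ c : ℝ, 0 < c ∧ ∀ n : ℕ, 1 ≤ n → ∃ A : Finset X, ↑A ⊆ U ∧
      c * n ^ 4 ≤ ∑ x ∈ A, (q : ℝ) ^ (-(1 + 1 / n : ℝ) * h x))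
    (i : U → U') (hi : Function.Injective i) (C : ℕ) (hC : ∀ x, h' (i x) ≤ h x + C)
    (j : U' → U × Y) (hj : Function.Injective j) (hj' : ∀ y, h (j y).1 + hY (j y).2 ≤ h' y)
    (hS : ∀ σ : ℝ, 1 < σ → Summable fun y => (q : ℝ) ^ (-σ * hY y)) : False := by
  obtain ⟨θ, c, hc, a1, a2, a3⟩ := H.real hq
  obtain ⟨θ', c', hc', b1, b2, b3⟩ := H'.real hq
  obtain ⟨c0, hc0, LB⟩ := LB
  have hq' : (1 : ℝ) < q := by exact_mod_cast hq
  have mono : ∀ {σ σ' : ℝ} (m : ℕ), σ ≤ σ' → (q : ℝ) ^ (-σ' * m) ≤ (q : ℝ) ^ (-σ * m) := by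
    intro σ σ' m hσ
    refine Real.rpow_le_rpow_of_exponent_le hq'.le ?_
    have : (0 : ℝ) ≤ m := Nat.cast_nonneg _
    nlinarith
  have LB' : ∀ n : ℕ, 1 ≤ n → ∀ σ : ℝ, σ ≤ 1 + 1 / n → θ < σ →
      c0 * n ^ 4 ≤ ∑' x : U, (q : ℝ) ^ (-σ * h x) := by
    classical
    intro n hn σ hσ hθ
    obtain ⟨A, hA, hA'⟩ := LB n hn
    refine hA'.trans ?_
    rw [← Finset.sum_subtype_of_mem (p := (· ∈ U)) _ fun x hx => hA hx]
    exact (Finset.sum_le_sum fun x _ => mono _ hσ).trans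
      ((a1 σ hθ).sum_le_tsum _ fun _ _ => by positivity)
  rcases lt_trichotomy θ 1 with h1 | h1 | h1
  · obtain ⟨n, hn⟩ := exists_nat_gt ((∑' x : U, (q : ℝ) ^ (-(1 : ℝ) * h x)) / c0)
    have h2 := LB' (n + 1) (by omega) 1 (le_add_of_nonneg_right (by positivity)) h1
    rw [div_lt_iff₀ hc0] at hn
    have h3 : (n : ℝ) ≤ ((n + 1 : ℕ) : ℝ) ^ 4 := by
      exact_mod_cast (Nat.le_succ n).trans (Nat.le_self_pow (by norm_num) _)
    nlinarith
  · subst h1
    have h2 : Tendsto (fun n : ℕ => (1 + 1 / (n : ℝ))) atTop (𝓝[>] 1) := by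
      refine tendsto_nhdsWithin_iff.2 ⟨?_, ?_⟩
      · simpa using (tendsto_one_div_atTop_nhds_zero_nat (𝕜 := ℝ)).const_add 1
      · filter_upwards [eventually_ge_atTop 1] with n hn
        have : (0 : ℝ) < n := by exact_mod_cast hn
        simpa using this
    have h3 := (a3.comp h2).eventually (gt_mem_nhds (lt_add_one c))
    have h4 := (tendsto_natCast_atTop_atTop (R := ℝ)).eventually_gt_atTop ((c + 1) / c0)
    obtain ⟨n, e1, e2, e3⟩ := (h3.and (h4.and (eventually_ge_atTop 1))).exists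
    have hn : (0 : ℝ) < n := by exact_mod_cast e3
    have h5 := LB' n e3 _ le_rfl (by simpa using hn)
    simp only [Function.comp, add_sub_cancel_left] at e1
    rw [div_lt_iff₀ hc0] at e2
    have h6 : (1 / (n : ℝ)) ^ 3 * (c0 * n ^ 4) = n * c0 := by field_simp
    have h7 := mul_le_mul_of_nonneg_left h5 (show 0 ≤ (1 / (n : ℝ)) ^ 3 by positivity)
    linarith
  · have key : ∀ σ, θ < σ → (Summable fun y : U' => (q : ℝ) ^ (-σ * h' y)) ∧
        ∑' y : U', (q : ℝ) ^ (-σ * h' y) ≤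
          (∑' x : U, (q : ℝ) ^ (-σ * h x)) * ∑' y, (q : ℝ) ^ (-θ * hY y) := by
      intro σ hσ
      have s1 := (a1 σ hσ).mul_of_nonneg (hS θ h1) (fun _ => by positivity) (fun _ => by positivity)
      have le : ∀ y : U', (q : ℝ) ^ (-σ * h' y) ≤
          (q : ℝ) ^ (-σ * h (j y).1) * (q : ℝ) ^ (-θ * hY (j y).2) := by
        intro y
        rw [← Real.rpow_add (by positivity)]
        refine Real.rpow_le_rpow_of_exponent_le hq'.le ?_
        have e1 : (h (j y).1 : ℝ) + hY (j y).2 ≤ h' y := by exact_mod_cast hj' y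
        have e2 : (0 : ℝ) ≤ hY (j y).2 := Nat.cast_nonneg _
        nlinarith
      have s2 : Summable fun y : U' => (q : ℝ) ^ (-σ * h' y) :=
        Summable.of_nonneg_of_le (fun _ => by positivity) le (s1.comp_injective hj)
      refine ⟨s2, ?_⟩
      rw [(a1 σ hσ).tsum_mul_tsum (hS θ h1) s1]
      exact s2.tsum_le_tsum_of_inj j hj (fun _ _ => by positivity) le s1
    have e1 : θ' ≤ θ := by
      by_contra! hlt
      obtain ⟨σ, h2, h3⟩ := exists_between hlt
      exact b2 σ h3 (key σ h2).1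
    have e2 : θ ≤ θ' := by
      by_contra! hlt
      obtain ⟨σ, h2, h3⟩ := exists_between (max_lt hlt (zero_lt_one.trans h1))
      have h4 := (le_max_left _ _).trans_lt h2
      have h5 := (le_max_right _ _).trans_lt h2
      refine a2 σ h3 (Summable.of_nonneg_of_le (fun _ => by positivity) (fun x => ?_)
        (((b1 σ h4).comp_injective hi).mul_left ((q : ℝ) ^ (σ * C))))
      simp only [Function.comp]
      rw [← Real.rpow_add (by positivity)]
      refine Real.rpow_le_rpow_of_exponent_le hq'.le ?_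
      have : (h' (i x) : ℝ) ≤ h x + C := by exact_mod_cast hC x
      nlinarith
    obtain rfl : θ' = θ := le_antisymm e1 e2
    have h2 : Tendsto (fun σ : ℝ => (σ - θ') * (((σ - θ') ^ 3 * ∑' x : U, (q : ℝ) ^ (-σ * h x)) *
        ∑' y, (q : ℝ) ^ (-θ' * hY y))) (𝓝[>] θ')
        (𝓝 ((θ' - θ') * (c * ∑' y, (q : ℝ) ^ (-θ' * hY y)))) :=
      (((continuous_id.sub continuous_const).tendsto θ').mono_left nhdsWithin_le_nhds).mul
        (a3.mul_const _)
    rw [sub_self, zero_mul] at h2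
    refine absurd (le_of_tendsto_of_tendsto b3 h2 ?_) (not_le.2 hc')
    filter_upwards [self_mem_nhdsWithin] with σ hσ
    have hσ' : 0 < σ - θ' := sub_pos.2 hσ
    calc _ ≤ (σ - θ') ^ 4 * ((∑' x : U, (q : ℝ) ^ (-σ * h x)) * ∑' y, (q : ℝ) ^ (-θ' * hY y)) := by
          gcongr
          exact (key σ hσ).2
      _ = _ := by ring

end Pool.Agent.Lib.MP_dd9c4c_nt
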