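import Mathlib

namespace Pool.Agent.Lib.MP_dd9c4c_nt

variable {α M N : Type*} [AddCommGroup M] [AddCommGroup N]

/-- Cech differential on cochains indexed by lists. -/
def cD : (List α → M) → List α → M
  | _, [] => 0
  | c, a :: l => c l - cD (fun l' => c (a :: l')) l

/-- Prism operator. -/
def cP (ρ : α → α) : (List α → M) → List α → M
  | _, [] => 0
  | c, a :: l => c (a :: ρ a :: l.map ρ) - cP ρ (fun l' => c (a :: l')) l

@[simp] lemma cD_nil (c : List α → M) : cD c [] = 0 := rfl
@[simp] lemma cD_cons (c : List α → M) (a : α) (l : List α) :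
    cD c (a :: l) = c l - cD (fun l' => c (a :: l')) l := rfl
@[simp] lemma cP_nil (ρ : α → α) (c : List α → M) : cP ρ c [] = 0 := rfl
@[simp] lemma cP_cons (ρ : α → α) (c : List α → M) (a : α) (l : List α) :
    cP ρ c (a :: l) = c (a :: ρ a :: l.map ρ) - cP ρ (fun l' => c (a :: l')) l := rfl

lemma cD_map (φ : M →+ N) (c : List α → M) (l : List α) :
    cD (fun l => φ (c l)) l = φ (cD c l) := by
  induction l generalizing c with
  | nil => simp
  | cons a l ih => simp [ih (fun l' => c (a :: l'))]

lemma cD_sub (c c' : List α → M) (l : List α) :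
    cD (fun l => c l - c' l) l = cD c l - cD c' l := by
  induction l generalizing c c' with
  | nil => simp
  | cons a l ih => simp only [cD_cons, ih (fun l' => c (a :: l')) (fun l' => c' (a :: l'))]; abel

lemma cD_zero (l : List α) : cD (fun _ => (0 : M)) l = 0 := by
  induction l with
  | nil => simp
  | cons a l ih => simp [ih]

lemma cD_add (c c' : List α → M) (l : List α) :
    cD (fun l => c l + c' l) l = cD c l + cD c' l := by
  induction l generalizing c c' with
  | nil => simp
  | cons a l ih => simp only [cD_cons, ih (fun l' => c (a :: l')) (fun l' => c' (a :: l'))]; abel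

lemma cD_sum {β : Type*} (s : Finset β) (c : β → List α → M) (l : List α) :
    cD (fun l => ∑ b ∈ s, c b l) l = ∑ b ∈ s, cD (c b) l := by
  classical
  induction s using Finset.induction_on with
  | empty => simp [cD_zero]
  | insert b s hb ih => simp only [Finset.sum_insert hb, cD_add, ih]

lemma cP_sub (ρ : α → α) (c c' : List α → M) (l : List α) :
    cP ρ (fun l => c l - c' l) l = cP ρ c l - cP ρ c' l := by
  induction l generalizing c c' with
  | nil => simp
  | cons a l ih =>
    simp only [cP_cons, ih (fun l' => c (a :: l')) (fun l' => c' (a :: l'))]; abel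

lemma cP_zero (ρ : α → α) (l : List α) : cP ρ (fun _ => (0 : M)) l = 0 := by
  induction l with
  | nil => simp
  | cons a l ih => simp [ih]

lemma cD_comp_map (ρ : α → α) (c : List α → M) (l : List α) :
    cD (fun l => c (l.map ρ)) l = cD c (l.map ρ) := by
  induction l generalizing c with
  | nil => simp
  | cons a l ih => simp [ih (fun l' => c (ρ a :: l'))]

lemma cD_cD (c : List α → M) (l : List α) : cD (cD c) l = 0 := by
  induction l generalizing c with
  | nil => simp
  | cons a l ih =>
    simp only [cD_cons]
    rw [cD_sub c (cD fun l' => c (a :: l')), ih]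
    simp

lemma prism (ρ : α → α) (c : List α → M) (l : List α) :
    cD (cP ρ c) l + cP ρ (cD c) l = c (l.map ρ) - c l := by
  induction l generalizing c with
  | nil => simp
  | cons a l ih =>
    have h := ih (fun l' => c (a :: l'))
    simp only [cD_cons, cP_cons, List.map_cons]
    rw [cD_sub (fun l' => c (a :: ρ a :: l'.map ρ)) (cP ρ fun l' => c (a :: l')),
      cD_comp_map ρ (fun l' => c (a :: ρ a :: l')),
      cP_sub ρ c (cD fun l' => c (a :: l'))]
    have h' : cD (cP ρ fun l' => c (a :: l')) l =
        c (a :: l.map ρ) - c (a :: l) - cP ρ (cD fun l' => c (a :: l')) l := by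
      rw [← h]; abel
    rw [h']; abel

lemma cD_mem (S : AddSubgroup M) (c : List α → M) (l : List α)
    (h : ∀ l', l'.Sublist l → l'.length + 1 = l.length → c l' ∈ S) : cD c l ∈ S := by
  induction l generalizing c with
  | nil => simp
  | cons a l ih =>
    simp only [cD_cons]
    refine S.sub_mem (h l (List.sublist_cons_self a l) rfl) (ih _ fun l' hl hl' => h _ ?_ ?_)
    · exact hl.cons_cons a
    · simp [hl']

lemma cP_mem (S : AddSubgroup M) (ρ : α → α) (c : List α → M) (l : List α)
    (h : ∀ l', (∀ x ∈ l', x ∈ l ∨ ∃ y ∈ l, x = ρ y) → c l' ∈ S) : cP ρ c l ∈ S := by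
  induction l generalizing c with
  | nil => simp
  | cons a l ih =>
    simp only [cP_cons]
    refine S.sub_mem (h _ ?_) (ih _ fun l' hl => h _ ?_)
    · intro x hx
      simp only [List.mem_cons, List.mem_map] at hx ⊢
      rcases hx with rfl | rfl | ⟨y, hy, rfl⟩
      · exact Or.inl (Or.inl rfl)
      · exact Or.inr ⟨a, Or.inl rfl, rfl⟩
      · exact Or.inr ⟨y, Or.inr hy, rfl⟩
    · intro x hx
      simp only [List.mem_cons] at hx ⊢
      rcases hx with rfl | hx
      · exact Or.inl (Or.inl rfl)
      · rcases hl x hx with h1 | ⟨y, hy, rfl⟩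
        · exact Or.inl (Or.inr h1)
        · exact Or.inr ⟨y, Or.inr hy, rfl⟩

end Pool.Agent.Lib.MP_dd9c4c_nt
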