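import Mathlib
import Pool.Agent.Lib.MP_dd9c4c_nt.Cech

set_option linter.unusedSectionVars false
set_option linter.unusedSimpArgs false

namespace Pool.Agent.Lib.MP_dd9c4c_nt

open AddMonoidAlgebra

section generic

variable {K E : Type} [Field K] [AddCommGroup E]

/-- Laurent monomial. -/
noncomputable def mono (K : Type) [Field K] (a : E) : AddMonoidAlgebra K E := single a 1

lemma mono_add (a b : E) : mono K (a + b) = mono K a * mono K b := by
  simp [mono, single_mul_single]

lemma mono_zero : mono K (0 : E) = 1 := rfl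

/-- Elements supported in `s`. -/
noncomputable def Sup (K : Type) [Field K] (s : Set E) : Submodule K (AddMonoidAlgebra K E) :=
  Submodule.span K (mono K '' s)

lemma mono_mem {s : Set E} {a : E} (h : a ∈ s) : mono K a ∈ Sup K s :=
  Submodule.subset_span ⟨a, h, rfl⟩

lemma mem_Sup {s : Set E} {f : AddMonoidAlgebra K E} :
    f ∈ Sup K s ↔ ∀ a, f.coeff a ≠ 0 → a ∈ s := by
  classical
  constructor
  · intro h
    induction h using Submodule.span_induction with
    | mem x hx =>
      obtain ⟨b, hb, rfl⟩ := hx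
      intro a ha
      simp only [mono, coeff_single, Finsupp.single_apply, ne_eq, ite_eq_right_iff,
        one_ne_zero, imp_false, not_not] at ha
      exact ha ▸ hb
    | zero => simp
    | add x y _ _ hx hy =>
      intro a ha
      by_cases h1 : x.coeff a = 0
      · exact hy a (by simpa [h1] using ha)
      · exact hx a h1
    | smul c x _ hx =>
      intro a ha
      exact hx a (by intro h; simp [h] at ha)
  · intro h
    rw [← f.sum_coeff_single, Finsupp.sum]
    refine Submodule.sum_mem _ fun a ha => ?_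
    have : single a (f.coeff a) = f.coeff a • mono K a := by simp [mono]
    rw [this]
    exact Submodule.smul_mem _ _ (mono_mem (h a (by simpa using ha)))

lemma Sup_mono {s t : Set E} (h : s ⊆ t) : Sup K s ≤ Sup K t :=
  Submodule.span_mono (Set.image_mono h)

lemma Sup_mul {s t u : Set E} {f g : AddMonoidAlgebra K E} (hf : f ∈ Sup K s) (hg : g ∈ Sup K t)
    (h : ∀ a ∈ s, ∀ b ∈ t, a + b ∈ u) : f * g ∈ Sup K u := by
  induction hf using Submodule.span_induction with
  | mem x hx =>
    obtain ⟨a, ha, rfl⟩ := hx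
    induction hg using Submodule.span_induction with
    | mem y hy =>
      obtain ⟨b, hb, rfl⟩ := hy
      rw [← mono_add]; exact mono_mem (h a ha b hb)
    | zero => simp
    | add x y _ _ hx hy => rw [mul_add]; exact add_mem hx hy
    | smul c x _ hx => rw [mul_smul_comm]; exact Submodule.smul_mem _ _ hx
  | zero => simp
  | add x y _ _ hx hy => rw [add_mul]; exact add_mem hx hy
  | smul c x _ hx => rw [smul_mul_assoc]; exact Submodule.smul_mem _ _ hx

lemma mem_Sup_univ (f : AddMonoidAlgebra K E) : f ∈ Sup K Set.univ := mem_Sup.2 fun _ _ => trivial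

open Classical in
/-- Projection on the monomials satisfying `p`. -/
noncomputable def flt (p : E → Prop) : AddMonoidAlgebra K E →ₗ[K] AddMonoidAlgebra K E where
  toFun f := ofCoeff (f.coeff.filter p)
  map_add' f g := by ext a; simp [Finsupp.filter_add]
  map_smul' c f := by ext a; simp [Finsupp.filter_smul]

open Classical in
lemma flt_coeff (p : E → Prop) (f : AddMonoidAlgebra K E) (a : E) :
    (flt p f).coeff a = if p a then f.coeff a else 0 := by
  simp [flt, Finsupp.filter_apply]

open Classical in
lemma flt_mono (p : E → Prop) (a : E) : flt p (mono K a) = if p a then mono K a else 0 := by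
  ext b
  rw [flt_coeff]
  by_cases hab : a = b
  · subst hab; split_ifs <;> simp
  · split_ifs <;> simp [mono, Finsupp.single_apply, hab]

lemma flt_mul {s : Set E} {f : AddMonoidAlgebra K E} (hf : f ∈ Sup K s) {p q : E → Prop}
    (h : ∀ a ∈ s, ∀ b, p (a + b) ↔ q b) (g : AddMonoidAlgebra K E) :
    flt p (f * g) = f * flt q g := by
  induction hf using Submodule.span_induction with
  | mem x hx =>
    obtain ⟨a, ha, rfl⟩ := hx
    induction (mem_Sup_univ g) using Submodule.span_induction with
    | mem y hy =>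
      obtain ⟨b, -, rfl⟩ := hy
      rw [← mono_add, flt_mono, flt_mono]
      by_cases hq : q b
      · rw [if_pos hq, if_pos ((h a ha b).2 hq), mono_add]
      · rw [if_neg hq, if_neg (fun hp => hq ((h a ha b).1 hp)), mul_zero]
    | zero => simp
    | add x y _ _ hx hy => rw [mul_add, map_add, map_add, mul_add, hx, hy]
    | smul c x _ hx => rw [mul_smul_comm, map_smul, map_smul, hx, mul_smul_comm]
  | zero => simp
  | add x y _ _ hx hy => rw [add_mul, map_add, hx, hy, add_mul]
  | smul c x _ hx => rw [smul_mul_assoc, map_smul, hx, smul_mul_assoc]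

lemma flt_eq_self {s : Set E} {f : AddMonoidAlgebra K E} (hf : f ∈ Sup K s) {p : E → Prop}
    (h : ∀ a ∈ s, p a) : flt p f = f := by
  ext a
  rw [flt_coeff]
  split_ifs with hp
  · rfl
  · by_contra h0
    exact hp (h a (mem_Sup.1 hf a (Ne.symm h0)))

lemma flt_mem {s : Set E} {f : AddMonoidAlgebra K E} (hf : f ∈ Sup K s) (p : E → Prop) :
    flt p f ∈ Sup K {a | a ∈ s ∧ p a} := by
  refine mem_Sup.2 fun a ha => ?_
  rw [flt_coeff] at ha
  split_ifs at ha with hp
  · exact ⟨mem_Sup.1 hf a ha, hp⟩
  · exact absurd rfl ha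

lemma sum_flt {C : Type} [Fintype C] (cls : E → C) (f : AddMonoidAlgebra K E) :
    ∑ c, flt (fun a => cls a = c) f = f := by
  classical
  ext a
  simp only [coeff_sum, Finsupp.finsetSum_apply, flt_coeff]
  rw [Finset.sum_eq_single (cls a)] <;> simp +contextual [eq_comm]

lemma Sup_empty {s : Set E} {f : AddMonoidAlgebra K E} (hf : f ∈ Sup K s) (hs : ∀ a, a ∉ s) :
    f = 0 := by
  ext a
  by_contra h
  exact hs a (mem_Sup.1 hf a h)

end generic

variable {K V B : Type} [Field K] [Fintype V] [DecidableEq V] [DecidableEq B]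

/-- Exponents that are nonnegative outside `T`. -/
def cone (T : Set V) : Set (V → ℤ) := {a | ∀ v ∉ T, 0 ≤ a v}

/-- Multidegree. -/
def dg (blk : V → B) : (V → ℤ) →+ (B → ℤ) where
  toFun a b := ∑ v, if blk v = b then a v else 0
  map_zero' := by ext; simp
  map_add' a a' := by
    ext b
    simp only [Pi.add_apply, ← Finset.sum_add_distrib]
    refine Finset.sum_congr rfl fun v _ => ?_
    split_ifs <;> simp

lemma dg_apply (blk : V → B) (a : V → ℤ) (b : B) :
    dg blk a b = ∑ v, if blk v = b then a v else 0 := rfl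

lemma dg_single (blk : V → B) (v : V) (n : ℤ) : dg blk (Pi.single v n) = Pi.single (blk v) n := by
  ext b
  rw [dg_apply, Finset.sum_eq_single v]
  · simp [Pi.single_apply, eq_comm]
  · intro w _ hw; simp [Pi.single_apply, hw]
  · simp

/-- Exponents in the cone of `T` of multidegree `d`. -/
def Ex (blk : V → B) (T : Set V) (d : B → ℤ) : Set (V → ℤ) := {a | a ∈ cone T ∧ dg blk a = d}

omit [Fintype V] [DecidableEq V] in
lemma cone_add {T : Set V} {a b : V → ℤ} (ha : a ∈ cone T) (hb : b ∈ cone T) : a + b ∈ cone T :=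
  fun v hv => add_nonneg (ha v hv) (hb v hv)

omit [Fintype V] [DecidableEq V] in
lemma cone_mono {T T' : Set V} (h : T ⊆ T') : cone T ⊆ cone T' :=
  fun _ ha v hv => ha v fun h' => hv (h h')

omit [DecidableEq V] in
lemma Ex_mono {blk : V → B} {T T' : Set V} (h : T ⊆ T') (d : B → ℤ) : Ex blk T d ⊆ Ex blk T' d :=
  fun _ ha => ⟨cone_mono h ha.1, ha.2⟩

omit [DecidableEq V] in
lemma Ex_mul {blk : V → B} {T : Set V} {d e : B → ℤ} {f g : AddMonoidAlgebra K (V → ℤ)}
    (hf : f ∈ Sup K (Ex blk T d)) (hg : g ∈ Sup K (Ex blk T e)) :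
    f * g ∈ Sup K (Ex blk T (d + e)) :=
  Sup_mul hf hg fun _ ha _ hb => ⟨cone_add ha.1 hb.1, by rw [map_add, ha.2, hb.2]⟩

omit [Fintype V] [DecidableEq V] in
lemma cone_mul {T : Set V} {f g : AddMonoidAlgebra K (V → ℤ)}
    (hf : f ∈ Sup K (cone T)) (hg : g ∈ Sup K (cone T)) : f * g ∈ Sup K (cone T) :=
  Sup_mul hf hg fun _ ha _ hb => cone_add ha hb

omit [DecidableEq V] in
lemma Ex_cone {blk : V → B} {T : Set V} {d : B → ℤ} {f : AddMonoidAlgebra K (V → ℤ)}
    (hf : f ∈ Sup K (Ex blk T d)) : f ∈ Sup K (cone T) := Sup_mono (fun _ h => h.1) hf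

/-- Polynomials as Laurent polynomials. -/
noncomputable def toL : MvPolynomial V K →ₐ[K] AddMonoidAlgebra K (V → ℤ) :=
  MvPolynomial.aeval fun v => mono K (Pi.single v 1)

@[simp] lemma toL_X (v : V) : toL (MvPolynomial.X v : MvPolynomial V K) = mono K (Pi.single v 1) :=
  MvPolynomial.aeval_X _ _

lemma mono_nsmul {E : Type} [AddCommGroup E] (n : ℕ) (a : E) : mono K (n • a) = mono K a ^ n := by
  induction n with
  | zero => simp [mono_zero]
  | succ n ih => rw [succ_nsmul, mono_add, ih, pow_succ]

lemma mono_sum {E β : Type} [AddCommGroup E] (s : Finset β) (a : β → E) :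
    mono K (∑ i ∈ s, a i) = ∏ i ∈ s, mono K (a i) := by
  classical
  induction s using Finset.induction_on with
  | empty => simp [mono_zero]
  | insert b s hb ih => rw [Finset.sum_insert hb, Finset.prod_insert hb, mono_add, ih]

lemma toL_monomial (n : V →₀ ℕ) (c : K) :
    toL (MvPolynomial.monomial n c) = c • mono K (fun v => (n v : ℤ)) := by
  rw [toL, MvPolynomial.aeval_monomial, ← Algebra.smul_def, Finsupp.prod_fintype _ _ (by simp)]
  congr 1
  simp_rw [← mono_nsmul, ← mono_sum]
  congr 1
  ext v
  simp [Finset.sum_apply, Pi.single_apply]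

lemma toL_coeff (P : MvPolynomial V K) (n : V →₀ ℕ) :
    (toL P).coeff (fun v => (n v : ℤ)) = P.coeff n := by
  induction P using MvPolynomial.induction_on' with
  | monomial m c =>
    rw [toL_monomial, MvPolynomial.coeff_monomial]
    simp only [mono, coeff_smul, coeff_single, Finsupp.smul_apply, Finsupp.single_apply]
    by_cases h : m = n
    · simp [h]
    · rw [if_neg, if_neg h, smul_zero]
      intro h'
      apply h
      ext v
      exact_mod_cast congrFun h' v
  | add p q hp hq => simp [hp, hq]

lemma toL_injective : Function.Injective (toL : MvPolynomial V K → _) := by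
  intro P Q h
  ext n
  rw [← toL_coeff, ← toL_coeff, h]

lemma toL_mem (T : Set V) (P : MvPolynomial V K) : toL P ∈ Sup K (cone T) := by
  induction P using MvPolynomial.induction_on' with
  | monomial m c =>
    rw [toL_monomial]
    exact Submodule.smul_mem _ _ (mono_mem fun v _ => by simp)
  | add p q hp hq => rw [map_add]; exact add_mem hp hq

lemma exists_toL {f : AddMonoidAlgebra K (V → ℤ)} (hf : f ∈ Sup K (cone (∅ : Set V))) :
    ∃ P, toL P = f := by
  induction hf using Submodule.span_induction with
  | mem x hx =>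
    obtain ⟨a, ha, rfl⟩ := hx
    refine ⟨MvPolynomial.monomial (Finsupp.equivFunOnFinite.symm fun v => (a v).toNat) 1, ?_⟩
    rw [toL_monomial, one_smul]
    congr 1
    ext v
    simpa using ha v (by simp)
  | zero => exact ⟨0, map_zero _⟩
  | add x y _ _ hx hy =>
    obtain ⟨P, rfl⟩ := hx
    obtain ⟨Q, rfl⟩ := hy
    exact ⟨P + Q, map_add _ _ _⟩
  | smul c x _ hx =>
    obtain ⟨P, rfl⟩ := hx
    exact ⟨c • P, map_smul _ _ _⟩

/-- Clearing denominators. -/
lemma clear {T : Set V} {f : AddMonoidAlgebra K (V → ℤ)} (hf : f ∈ Sup K (cone T)) :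
    ∃ (n : V →₀ ℕ) (P : MvPolynomial V K), (∀ v ∉ T, n v = 0) ∧
      f * mono K (fun v => (n v : ℤ)) = toL P := by
  classical
  obtain ⟨N, hN⟩ : ∃ N : ℕ, ∀ a ∈ f.coeff.support, ∀ v, 0 ≤ a v + N := by
    refine ⟨f.coeff.support.sup fun a => Finset.univ.sup fun v => (a v).natAbs, fun a ha v => ?_⟩
    have h1 : (a v).natAbs ≤ Finset.univ.sup fun v => (a v).natAbs :=
      Finset.le_sup (f := fun v => (a v).natAbs) (Finset.mem_univ v)
    have h2 := Finset.le_sup (f := fun a : V → ℤ => Finset.univ.sup fun v => (a v).natAbs) ha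
    have h3 := h1.trans h2
    omega
  let n : V →₀ ℕ := Finsupp.equivFunOnFinite.symm fun v => if v ∈ T then N else 0
  have hmem : f * mono K (fun v => (n v : ℤ)) ∈ Sup K (cone (∅ : Set V)) := by
    refine Sup_mul (s := {a | a ∈ f.coeff.support ∧ a ∈ cone T}) (t := {fun v => (n v : ℤ)})
      (mem_Sup.2 fun a ha => ⟨by simpa using ha, mem_Sup.1 hf a ha⟩) (mono_mem rfl) ?_
    rintro a ⟨ha1, ha2⟩ b rfl v -
    by_cases hv : v ∈ T
    · simpa [n, hv] using hN a ha1 v
    · simpa [n, hv] using ha2 v hv
  obtain ⟨P, hP⟩ := exists_toL hmem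
  exact ⟨n, P, fun v hv => by simp [n, hv], hP.symm⟩

/-- Evaluation of Laurent polynomials in a field. -/
noncomputable def ev {R : Type} [Field R] [Algebra K R] (h : V → R) :
    AddMonoidAlgebra K (V → ℤ) →ₗ[K] R :=
  (Finsupp.linearCombination K fun a : V → ℤ => ∏ v, h v ^ a v) ∘ₗ (coeffLinearEquiv K).toLinearMap

section ev
variable {R : Type} [Field R] [Algebra K R] {h : V → R}

omit [DecidableEq V] in
lemma ev_mono (a : V → ℤ) : ev h (mono K a) = ∏ v, h v ^ a v := by
  simp [ev, mono]

omit [DecidableEq V] in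
lemma ev_mul {T : Set V} (hT : ∀ v ∈ T, h v ≠ 0) {f g : AddMonoidAlgebra K (V → ℤ)}
    (hf : f ∈ Sup K (cone T)) (hg : g ∈ Sup K (cone T)) : ev h (f * g) = ev h f * ev h g := by
  induction hf using Submodule.span_induction with
  | mem x hx =>
    obtain ⟨a, ha, rfl⟩ := hx
    induction hg using Submodule.span_induction with
    | mem y hy =>
      obtain ⟨b, hb, rfl⟩ := hy
      rw [← mono_add, ev_mono, ev_mono, ev_mono, ← Finset.prod_mul_distrib]
      refine Finset.prod_congr rfl fun v _ => ?_
      by_cases hv : v ∈ T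
      · exact zpow_add₀ (hT v hv) _ _
      · obtain ⟨m, hm⟩ := Int.eq_ofNat_of_zero_le (ha v hv)
        obtain ⟨n, hn⟩ := Int.eq_ofNat_of_zero_le (hb v hv)
        rw [Pi.add_apply, hm, hn, ← Nat.cast_add, zpow_natCast, zpow_natCast, zpow_natCast, pow_add]
    | zero => simp
    | add x y _ _ hx hy => rw [mul_add, map_add, map_add, mul_add, hx, hy]
    | smul c x _ hx => rw [mul_smul_comm, map_smul, map_smul, hx, mul_smul_comm]
  | zero => simp
  | add x y _ _ hx hy => rw [add_mul, map_add, map_add, hx, hy, add_mul]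
  | smul c x _ hx => rw [smul_mul_assoc, map_smul, map_smul, hx, smul_mul_assoc]

lemma ev_toL (P : MvPolynomial V K) : ev h (toL P) = MvPolynomial.aeval h P := by
  induction P using MvPolynomial.induction_on' with
  | monomial m c =>
    rw [toL_monomial, map_smul, ev_mono, MvPolynomial.aeval_monomial, ← Algebra.smul_def,
      Finsupp.prod_fintype _ _ (by simp)]
    simp
  | add p q hp hq => simp [hp, hq]

lemma ev_single (v : V) (n : ℤ) : ev h (mono K (Pi.single v n)) = h v ^ n := by
  rw [ev_mono, Finset.prod_eq_single v] <;> simp +contextual [Pi.single_apply]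

end ev

section acyclic

variable {Sl : Type} (blk : V → B) (β : Sl → B)

/-- Index set of the monomials of the embedding. -/
abbrev Idx : Type := {f : Sl → V // ∀ s, blk (f s) = β s}

/-- Variables occurring in a list of monomials. -/
def supp (l : List (Idx blk β)) : Set V := {v | ∃ f ∈ l, ∃ s, f.1 s = v}

theorem acyclic [Nonempty (Idx blk β)] (d : B → ℤ)
    (hd : ∀ a, dg blk a = d → ∀ v, a v < 0 → ∃ w, blk w = blk v ∧ 0 ≤ a w)
    (c : List (Idx blk β) → AddMonoidAlgebra K (V → ℤ))
    (hc : ∀ l, c l ∈ Sup K (Ex blk (supp blk β l) d)) (h0 : ∀ l, cD c l = 0) :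
    ∃ b : List (Idx blk β) → AddMonoidAlgebra K (V → ℤ),
      (∀ l, b l ∈ Sup K (Ex blk (supp blk β l) d)) ∧ ∀ l, cD b l = c l := by
  classical
  let good : (V → ℤ) → V × V → Prop := fun a p => blk p.2 = blk p.1 ∧ a p.1 < 0 ∧ 0 ≤ a p.2
  let cls : (V → ℤ) → Option (V × V) := fun a => if h : ∃ p, good a p then some h.choose else none
  have key : ∀ o : Option (V × V), ∃ b : List (Idx blk β) → AddMonoidAlgebra K (V → ℤ),
      (∀ l, b l ∈ Sup K (Ex blk (supp blk β l) d)) ∧
      ∀ l, cD b l = flt (fun a => cls a = o) (c l) := by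
    intro o
    set c' : List (Idx blk β) → AddMonoidAlgebra K (V → ℤ) :=
      fun l => flt (fun a => cls a = o) (c l) with hc'
    have h0' : ∀ l, cD c' l = 0 := fun l => by
      have := cD_map (flt (K := K) (fun a => cls a = o)).toAddMonoidHom c l
      rw [h0, map_zero] at this
      exact this
    have hm : ∀ l, c' l ∈ Sup K {a | a ∈ Ex blk (supp blk β l) d ∧ cls a = o} :=
      fun l => flt_mem (hc l) _
    cases o with
    | none =>
      obtain ⟨f0⟩ := ‹Nonempty (Idx blk β)›
      refine ⟨fun l => c' (f0 :: l), fun l => Sup_mono ?_ (hm _), fun l => ?_⟩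
      · rintro a ⟨⟨-, ha2⟩, ha3⟩
        refine ⟨fun v _ => ?_, ha2⟩
        by_contra hneg
        obtain ⟨w, hw1, hw2⟩ := hd a ha2 v (not_le.1 hneg)
        have : ∃ p, good a p := ⟨(v, w), hw1, not_le.1 hneg, hw2⟩
        simp only [cls, dif_pos this] at ha3
        cases ha3
      · have := h0' (f0 :: l)
        rw [cD_cons, sub_eq_zero] at this
        exact this.symm
    | some p =>
      have hp : ∀ a, cls a = some p → good a p := by
        intro a ha
        by_cases h : ∃ p, good a p
        · simp only [cls, dif_pos h, Option.some.injEq] at ha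
          exact ha ▸ h.choose_spec
        · simp only [cls, dif_neg h] at ha
          cases ha
      by_cases hb : blk p.2 = blk p.1
      · let ρ : Idx blk β → Idx blk β := fun f =>
          ⟨fun s => if f.1 s = p.1 then p.2 else f.1 s, fun s => by
            have := f.2 s
            dsimp only
            split_ifs with h
            · rw [hb, ← h, this]
            · exact this⟩
        refine ⟨fun l => 0 - cP ρ c' l, fun l => ?_, fun l => ?_⟩
        · refine sub_mem (zero_mem _) ?_
          refine cP_mem (Sup K (Ex blk (supp blk β l) d)).toAddSubgroup ρ c' l fun l' hl' => ?_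
          refine Sup_mono ?_ (hm l')
          rintro a ⟨⟨ha1, ha2⟩, ha3⟩
          refine ⟨fun v hv => ?_, ha2⟩
          by_cases hv' : v ∈ supp blk β l'
          · obtain ⟨f, hf, s, rfl⟩ := hv'
            rcases hl' f hf with h | ⟨g, hg, rfl⟩
            · exact absurd ⟨f, h, s, rfl⟩ hv
            · by_cases h : g.1 s = p.1
              · simpa [ρ, h] using (hp a ha3).2.2
              · exact absurd ⟨g, hg, s, by simp [ρ, h]⟩ hv
          · exact ha1 v hv'
        · have h1 := prism ρ c' l
          have h2 : cD c' = fun _ => 0 := funext h0'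
          have h3 : c' (l.map ρ) = 0 := by
            refine Sup_empty (hm _) ?_
            rintro a ⟨⟨ha1, -⟩, ha3⟩
            obtain ⟨-, h4, h5⟩ := hp a ha3
            refine absurd (ha1 p.1 ?_) (not_le.2 h4)
            rintro ⟨f, hf, s, hs⟩
            obtain ⟨g, -, rfl⟩ := List.mem_map.1 hf
            by_cases h : g.1 s = p.1
            · have : p.2 = p.1 := by simpa [ρ, h] using hs
              rw [this] at h5; omega
            · simp [ρ, h] at hs
          rw [h2, cP_zero, h3] at h1
          rw [cD_sub (fun _ => 0), cD_zero]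
          simp only [add_zero, zero_sub] at h1
          rw [h1]; simp [hc']
      · refine ⟨fun _ => 0, fun _ => zero_mem _, fun l => ?_⟩
        rw [cD_zero]
        exact (Sup_empty (hm l) fun a ha => hb (hp a ha.2).1).symm
  choose b hb1 hb2 using key
  refine ⟨fun l => ∑ o, b o l, fun l => Submodule.sum_mem _ fun o _ => hb1 o l, fun l => ?_⟩
  rw [cD_sum]
  simp only [hb2]
  exact sum_flt cls (c l)

end acyclic

end Pool.Agent.Lib.MP_dd9c4c_nt
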