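import Mathlib
import Pool.Agent.Lib.MP_dd9c4c_nt.Laurent
import Pool.Agent.Lib.MP_dd9c4c_nt.Defs

set_option linter.unusedSectionVars false
set_option linter.unusedSimpArgs false

namespace Pool.Agent.Lib.MP_dd9c4c_nt

open MvPolynomial

variable {K V B L : Type} [Field K] [Fintype V] [DecidableEq V] [DecidableEq B] [Field L]
  [Algebra K L]

/-- `g` is a generic point of the multihomogeneous hypersurface `Q = 0`. -/
structure HS (blk : V → B) (Q : MvPolynomial V K) (dQ : B → ℤ) (g : V → L) : Prop where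
  ne : ∀ v, g v ≠ 0
  hom : toL Q ∈ Sup K (Ex blk ∅ dQ)
  zero : aeval g Q = 0
  Qne : Q ≠ 0
  ker : ∀ (P : MvPolynomial V K) d, toL P ∈ Sup K (Ex blk ∅ d) → aeval g P = 0 → Q ∣ P

variable {blk : V → B} {Q : MvPolynomial V K} {dQ : B → ℤ} {g : V → L}

lemma ev_mul' (hg : ∀ v, g v ≠ 0) (f f' : AddMonoidAlgebra K (V → ℤ)) :
    ev g (f * f') = ev g f * ev g f' :=
  ev_mul (T := Set.univ) (fun v _ => hg v) (mem_Sup.2 fun _ _ _ h => absurd trivial h)
    (mem_Sup.2 fun _ _ _ h => absurd trivial h)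

lemma ev_one {R : Type} [Field R] [Algebra K R] (h : V → R) :
    ev h (1 : AddMonoidAlgebra K (V → ℤ)) = 1 := by
  rw [← mono_zero, ev_mono]; simp

lemma mono_cancel {E : Type} [AddCommGroup E] (a : E) : mono K a * mono K (-a) = 1 := by
  rw [← mono_add, add_neg_cancel, mono_zero]

lemma neg_mem_cone {T : Set V} {n : V →₀ ℕ} (hn : ∀ v ∉ T, n v = 0) :
    (-fun v => (n v : ℤ)) ∈ cone T := fun v hv => by simp [hn v hv]

/-- Project a relation to a fixed degree. -/
lemma flt_deg {T : Set V} {d e : B → ℤ} {f r : AddMonoidAlgebra K (V → ℤ)}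
    (hf : f ∈ Sup K (Ex blk ∅ e)) (hr : r ∈ Sup K (cone T)) :
    ∃ r' ∈ Sup K (Ex blk T (d - e)), flt (fun a => dg blk a = d) (f * r) = f * r' := by
  refine ⟨flt (fun a => dg blk a = d - e) r, flt_mem hr _, flt_mul hf ?_ r⟩
  intro a ha b
  rw [map_add, ha.2, eq_sub_iff_add_eq, add_comm]

lemma HS.kerL (H : HS blk Q dQ g) {T : Set V} {d : B → ℤ} {f : AddMonoidAlgebra K (V → ℤ)}
    (hf : f ∈ Sup K (Ex blk T d)) (h0 : ev g f = 0) :
    ∃ e ∈ Sup K (Ex blk T (d - dQ)), f = toL Q * e := by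
  obtain ⟨n, P, hn, hP⟩ := clear (Ex_cone hf)
  have h1 : toL P ∈ Sup K (Ex blk ∅ (d + dg blk fun v => (n v : ℤ))) := by
    refine mem_Sup.2 fun a ha => ⟨mem_Sup.1 (toL_mem ∅ P) a ha, ?_⟩
    have : toL P ∈ Sup K (Ex blk T (d + dg blk fun v => (n v : ℤ))) := by
      rw [← hP]
      exact Ex_mul hf (mono_mem ⟨fun v _ => by simp, rfl⟩)
    exact (mem_Sup.1 this a ha).2
  have h2 : aeval g P = 0 := by rw [← ev_toL, ← hP, ev_mul' H.ne, h0, zero_mul]
  obtain ⟨P', rfl⟩ := H.ker P _ h1 h2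
  have h3 : f = toL Q * (toL P' * mono K (-fun v => (n v : ℤ))) := by
    rw [← mul_assoc, ← map_mul, ← hP, mul_assoc, mono_cancel, mul_one]
  obtain ⟨e, he, he'⟩ := flt_deg (d := d) H.hom
    (cone_mul (toL_mem T P') (mono_mem (neg_mem_cone hn)))
  refine ⟨e, he, ?_⟩
  rw [← he', ← h3, flt_eq_self hf fun a ha => ha.2]

lemma HS.transfer (H : HS blk Q dQ g) {T : Set V} {d : B → ℤ} {f : AddMonoidAlgebra K (V → ℤ)}
    (hf : f ∈ Sup K (Ex blk T d)) (h0 : ev g f = 0) {R : Type} [Field R] [Algebra K R] {h : V → R}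
    (hT : ∀ v ∈ T, h v ≠ 0) (hQ : aeval h Q = 0) : ev h f = 0 := by
  obtain ⟨e, he, rfl⟩ := H.kerL hf h0
  rw [ev_mul hT (toL_mem T Q) (Ex_cone he), ev_toL, hQ, zero_mul]

variable (K blk g) in
/-- Ring of functions where the variables of `T` do not vanish. -/
def rg (T : Set V) : Subalgebra K L :=
  Algebra.adjoin K {z | ∃ v w, w ∈ T ∧ blk v = blk w ∧ z = g v / g w}

lemma rg_mono {T T' : Set V} (h : T ⊆ T') : rg K blk g T ≤ rg K blk g T' :=
  Algebra.adjoin_mono fun _ ⟨v, w, hw, h1, h2⟩ => ⟨v, w, h hw, h1, h2⟩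

lemma div_mem_rg {T : Set V} {v w : V} (hw : w ∈ T) (h : blk v = blk w) :
    g v / g w ∈ rg K blk g T := Algebra.subset_adjoin ⟨v, w, hw, h, rfl⟩

lemma rg_union (T T' : Set V) : rg K blk g (T ∪ T') = rg K blk g T ⊔ rg K blk g T' := by
  rw [rg, rg, rg, ← Algebra.adjoin_union]
  congr 1
  ext z
  constructor
  · rintro ⟨v, w, hw | hw, h1, h2⟩
    · exact Or.inl ⟨v, w, hw, h1, h2⟩
    · exact Or.inr ⟨v, w, hw, h1, h2⟩
  · rintro (⟨v, w, hw, h1, h2⟩ | ⟨v, w, hw, h1, h2⟩)
    · exact ⟨v, w, Or.inl hw, h1, h2⟩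
    · exact ⟨v, w, Or.inr hw, h1, h2⟩

lemma ratio_mem {T : Set V} {v w : V} (hw : w ∈ T) (h : blk v = blk w) :
    (Pi.single v 1 + Pi.single w (-1) : V → ℤ) ∈ Ex blk T 0 := by
  refine ⟨fun u hu => ?_, ?_⟩
  · have : u ≠ w := fun e => hu (e ▸ hw)
    simp only [Pi.add_apply, Pi.single_apply, if_neg this]
    split_ifs <;> simp
  · rw [map_add, dg_single, dg_single, h, ← Pi.single_add]; simp

lemma ev_ratio {R : Type} [Field R] [Algebra K R] {h : V → R} {v w : V} (hw : h w ≠ 0) :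
    ev h (mono K (Pi.single v 1 + Pi.single w (-1) : V → ℤ)) = h v / h w := by
  rw [mono_add, ev_mul (T := {w}) (by simpa using hw), ev_single, ev_single]
  · simp [div_eq_mul_inv]
  · refine mono_mem fun u _ => ?_
    simp only [Pi.single_apply]; split_ifs <;> simp
  · refine mono_mem fun u hu => ?_
    have : u ≠ w := hu
    simp [Pi.single_apply, this]

lemma lift_rg (hg : ∀ v, g v ≠ 0) {T : Set V} {x : L} (hx : x ∈ rg K blk g T) :
    ∃ f ∈ Sup K (Ex blk T 0), ev g f = x := by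
  induction hx using Algebra.adjoin_induction with
  | mem x hx =>
    obtain ⟨v, w, hw, h, rfl⟩ := hx
    exact ⟨_, mono_mem (ratio_mem hw h), ev_ratio (hg w)⟩
  | algebraMap r =>
    refine ⟨r • mono K 0, Submodule.smul_mem _ _ (mono_mem ⟨fun _ _ => le_rfl, map_zero _⟩), ?_⟩
    rw [map_smul, mono_zero, ev_one, Algebra.algebraMap_eq_smul_one]
  | add x y _ _ hx hy =>
    obtain ⟨f, hf, rfl⟩ := hx
    obtain ⟨f', hf', rfl⟩ := hy
    exact ⟨f + f', add_mem hf hf', map_add _ _ _⟩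
  | mul x y _ _ hx hy =>
    obtain ⟨f, hf, rfl⟩ := hx
    obtain ⟨f', hf', rfl⟩ := hy
    exact ⟨f * f', by simpa using Ex_mul hf hf', ev_mul' hg _ _⟩

lemma prod_zpow_dg {R : Type} [Field R] [Fintype B] (lam : B → R) (hl : ∀ b, lam b ≠ 0)
    (a : V → ℤ) : ∏ v, lam (blk v) ^ a v = ∏ b, lam b ^ dg blk a b := by
  have key : ∀ (s : Finset V) (b : B), lam b ^ (∑ v ∈ s, if blk v = b then a v else 0) =
      ∏ v ∈ s, if blk v = b then lam b ^ a v else 1 := by
    intro s b
    induction s using Finset.induction_on with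
    | empty => simp
    | insert v s hv ih =>
      rw [Finset.sum_insert hv, Finset.prod_insert hv, zpow_add₀ (hl b), ih]
      split_ifs <;> simp
  simp only [dg_apply, key]
  rw [Finset.prod_comm]
  refine Finset.prod_congr rfl fun v _ => ?_
  rw [Finset.prod_eq_single (blk v)] <;> simp +contextual [eq_comm]

lemma ev_mem_rg [Fintype B] (hg : ∀ v, g v ≠ 0) {T : Set V} (hT : ∀ b, ∃ v ∈ T, blk v = b)
    {f : AddMonoidAlgebra K (V → ℤ)} (hf : f ∈ Sup K (Ex blk T 0)) : ev g f ∈ rg K blk g T := by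
  choose c hc1 hc2 using hT
  induction hf using Submodule.span_induction with
  | mem x hx =>
    obtain ⟨a, ⟨ha1, ha2⟩, rfl⟩ := hx
    have : ev g (mono K a) = ∏ v, (g v / g (c (blk v))) ^ a v := by
      simp only [div_zpow, Finset.prod_div_distrib, ev_mono]
      rw [prod_zpow_dg (fun b => g (c b)) (fun b => hg _), ha2]
      simp
    rw [this]
    refine prod_mem fun v _ => ?_
    rcases le_or_gt 0 (a v) with h | h
    · obtain ⟨m, hm⟩ := Int.eq_ofNat_of_zero_le h
      rw [hm, zpow_natCast]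
      exact pow_mem (div_mem_rg (hc1 _) (hc2 _).symm) _
    · have hv : v ∈ T := by
        by_contra hv
        exact absurd (ha1 v hv) (not_le.2 h)
      obtain ⟨m, hm⟩ := Int.eq_ofNat_of_zero_le (neg_nonneg.2 h.le)
      rw [← neg_neg (a v), hm, zpow_neg, ← inv_zpow, inv_div, zpow_natCast]
      exact pow_mem (div_mem_rg hv (hc2 _)) _
  | zero => simp
  | add x y _ _ hx hy => rw [map_add]; exact add_mem hx hy
  | smul c x _ hx => rw [map_smul]; exact Subalgebra.smul_mem _ hx _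

section idx

variable {Sl : Type} [Fintype Sl] [DecidableEq Sl] {β : Sl → B}

/-- Monomial coordinates. -/
def mon {R : Type} [CommRing R] (h : V → R) (f : Idx blk β) : R := ∏ s, h (f.1 s)

/-- Change one slot. -/
def upd (f : Idx blk β) (s : Sl) (v : V) (hv : blk v = β s) : Idx blk β :=
  ⟨Function.update f.1 s v, fun t => by
    by_cases h : t = s
    · subst h; simpa using hv
    · simpa [Function.update_of_ne h] using f.2 t⟩

lemma mon_upd {R : Type} [CommRing R] (h : V → R) (f : Idx blk β) (s : Sl) (v : V)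
    (hv : blk v = β s) : mon h (upd f s v hv) * h (f.1 s) = mon h f * h v := by
  simp only [mon, upd]
  rw [← Finset.mul_prod_erase _ _ (Finset.mem_univ s),
    ← Finset.mul_prod_erase _ (fun s => h (f.1 s)) (Finset.mem_univ s), Function.update_self]
  have : ∏ x ∈ Finset.univ.erase s, h (Function.update f.1 s v x) =
      ∏ x ∈ Finset.univ.erase s, h (f.1 x) :=
    Finset.prod_congr rfl fun t ht => by rw [Function.update_of_ne (Finset.ne_of_mem_erase ht)]
  rw [this]; ring

lemma mon_ne (hg : ∀ v, g v ≠ 0) (f : Idx blk β) : mon g f ≠ 0 :=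
  Finset.prod_ne_zero_iff.2 fun _ _ => hg _

lemma chart_eq (hg : ∀ v, g v ≠ 0) (f : Idx blk β) :
    chart K (mon g) f = rg K blk g (Set.range f.1) := by
  apply le_antisymm
  · refine Algebra.adjoin_le ?_
    rintro _ ⟨f', rfl⟩
    simp only [mon, ← Finset.prod_div_distrib]
    exact prod_mem fun s _ => div_mem_rg ⟨s, rfl⟩ (by rw [f.2, f'.2])
  · refine Algebra.adjoin_le ?_
    rintro _ ⟨v, _, ⟨s, rfl⟩, h, rfl⟩
    refine Algebra.subset_adjoin ⟨upd f s v (h.trans (f.2 s)), ?_⟩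
    simp only
    rw [div_eq_div_iff (mon_ne hg f) (hg _), mon_upd, mul_comm]

lemma supp_cons (f : Idx blk β) (l : List (Idx blk β)) :
    supp blk β (f :: l) = Set.range f.1 ∪ supp blk β l := by
  ext v; simp [supp]

lemma supp_nil : supp blk β [] = ∅ := by ext v; simp [supp]

lemma supp_sublist {l l' : List (Idx blk β)} (h : l'.Sublist l) : supp blk β l' ⊆ supp blk β l :=
  fun _ ⟨f, hf, hs⟩ => ⟨f, h.subset hf, hs⟩

theorem HS.cech [Fintype B] [Nonempty (Idx blk β)] (H : HS blk Q dQ g) (hβ : β.Surjective)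
    (h0 : ∀ a, dg blk a = 0 → ∀ v, a v < 0 → ∃ w, blk w = blk v ∧ 0 ≤ a w)
    (h1 : ∀ a, dg blk a = 0 - dQ → ∀ v, a v < 0 → ∃ w, blk w = blk v ∧ 0 ≤ a w)
    (c : List (Idx blk β) → L) (hc : ∀ l, c l ∈ rg K blk g (supp blk β l))
    (hD : ∀ l, cD c l = 0) :
    ∃ b : List (Idx blk β) → L, (∀ l, l ≠ [] → b l ∈ rg K blk g (supp blk β l)) ∧
      ∀ l, cD b l = c l := by
  choose c1 hc1 hc2 using fun l => lift_rg H.ne (hc l)
  have hD1 : ∀ l, cD c1 l ∈ Sup K (Ex blk (supp blk β l) 0) := fun l =>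
    cD_mem (Sup K (Ex blk (supp blk β l) 0)).toAddSubgroup c1 l fun l' hl _ =>
      Sup_mono (Ex_mono (supp_sublist hl) _) (hc1 l')
  have hD2 : ∀ l, ev g (cD c1 l) = 0 := fun l => by
    have := cD_map (ev (K := K) g).toAddMonoidHom c1 l
    simp only [LinearMap.toAddMonoidHom_coe, hc2] at this
    rw [← this]; exact hD l
  choose e he1 he2 using fun l => H.kerL (hD1 l) (hD2 l)
  have hQ : toL Q ≠ 0 := fun h => H.Qne (toL_injective (by rw [h, map_zero]))
  have he3 : ∀ l, cD e l = 0 := fun l => by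
    have := cD_map (AddMonoidHom.mulLeft (toL Q)) e l
    simp only [AddMonoidHom.coe_mulLeft, ← he2] at this
    rw [cD_cD] at this
    exact (mul_eq_zero.1 this.symm).resolve_left hQ
  obtain ⟨e', he'1, he'2⟩ := acyclic blk β _ h1 e he1 he3
  obtain ⟨b, hb1, hb2⟩ := acyclic blk β 0 h0 (fun l => c1 l - toL Q * e' l) (fun l => by
    refine sub_mem (hc1 l) ?_
    have := Ex_mul (Sup_mono (Ex_mono (Set.empty_subset (supp blk β l)) _) H.hom) (he'1 l)
    simpa using this) (fun l => by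
    have := cD_map (AddMonoidHom.mulLeft (toL Q)) e' l
    simp only [AddMonoidHom.coe_mulLeft] at this
    rw [cD_sub, this, he'2, he2, sub_self])
  refine ⟨fun l => ev g (b l), fun l hl => ev_mem_rg H.ne (fun x => ?_) (hb1 l), fun l => ?_⟩
  · obtain ⟨f, l', rfl⟩ := List.exists_cons_of_ne_nil hl
    obtain ⟨s, rfl⟩ := hβ x
    exact ⟨f.1 s, ⟨f, by simp, s, rfl⟩, f.2 s⟩
  · have := cD_map (ev (K := K) g).toAddMonoidHom b l
    simp only [LinearMap.toAddMonoidHom_coe] at this
    rw [this, hb2, map_sub, ev_mul' H.ne, ev_toL, H.zero, hc2, zero_mul, sub_zero]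

lemma cD_eq_zero {α M : Type*} [AddCommGroup M] (c : List α → M) (l : List α)
    (h : ∀ l', l'.length + 1 = l.length → c l' = 0) : cD c l = 0 := by
  have := cD_mem (⊥ : AddSubgroup M) c l fun l' _ hl => by simpa using h l' hl
  simpa using this

theorem HS.h1 [Fintype B] [Nonempty (Idx blk β)] (H : HS blk Q dQ g) (hβ : β.Surjective)
    (h0 : ∀ a, dg blk a = 0 → ∀ v, a v < 0 → ∃ w, blk w = blk v ∧ 0 ≤ a w)
    (h1 : ∀ a, dg blk a = 0 - dQ → ∀ v, a v < 0 → ∃ w, blk w = blk v ∧ 0 ≤ a w)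
    (c : Idx blk β → Idx blk β → L)
    (hc : ∀ i j, c i j ∈ chart K (mon g) i ⊔ chart K (mon g) j)
    (hD : ∀ i j k, c j k - c i k + c i j = 0) :
    ∃ b : Idx blk β → L, (∀ i, b i ∈ chart K (mon g) i) ∧ ∀ i j, c i j = b j - b i := by
  let C : List (Idx blk β) → L := fun l => match l with
    | [i, j] => c i j
    | _ => 0
  obtain ⟨b, hb1, hb2⟩ := H.cech hβ h0 h1 C (fun l => by
    match l with
    | [] => exact zero_mem _
    | [_] => exact zero_mem _
    | [i, j] =>
      have := hc i j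
      rw [chart_eq H.ne, chart_eq H.ne, ← rg_union] at this
      rw [supp_cons, supp_cons, supp_nil, Set.union_empty]
      exact this
    | _ :: _ :: _ :: _ => exact zero_mem _) (fun l => by
    match l with
    | [i, j, k] =>
      have := hD i j k
      simp only [cD_cons, cD_nil, C]
      linear_combination this
    | [] => rfl
    | [_] => simp [C]
    | [_, _] => simp [C]
    | i :: j :: k :: m :: l =>
      refine cD_eq_zero _ _ fun l' hl => ?_
      match l', hl with
      | _ :: _ :: _ :: _, _ => rfl)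
  refine ⟨fun i => b [i], fun i => ?_, fun i j => ?_⟩
  · have := hb1 [i] (by simp)
    rw [supp_cons, supp_nil, Set.union_empty] at this
    rwa [chart_eq H.ne]
  · have := hb2 [i, j]
    simp only [cD_cons, cD_nil, C] at this
    rw [← this]; ring

theorem HS.h2 [Fintype B] [Nonempty (Idx blk β)] (H : HS blk Q dQ g) (hβ : β.Surjective)
    (h0 : ∀ a, dg blk a = 0 → ∀ v, a v < 0 → ∃ w, blk w = blk v ∧ 0 ≤ a w)
    (h1 : ∀ a, dg blk a = 0 - dQ → ∀ v, a v < 0 → ∃ w, blk w = blk v ∧ 0 ≤ a w)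
    (c : Idx blk β → Idx blk β → Idx blk β → L)
    (hc : ∀ i j k, c i j k ∈ chart K (mon g) i ⊔ chart K (mon g) j ⊔ chart K (mon g) k)
    (hD : ∀ i j k l, c j k l - c i k l + c i j l - c i j k = 0) :
    ∃ b : Idx blk β → Idx blk β → L,
      (∀ i j, b i j ∈ chart K (mon g) i ⊔ chart K (mon g) j) ∧
      ∀ i j k, c i j k = b j k - b i k + b i j := by
  let C : List (Idx blk β) → L := fun l => match l with
    | [i, j, k] => c i j k
    | _ => 0
  obtain ⟨b, hb1, hb2⟩ := H.cech hβ h0 h1 C (fun l => by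
    match l with
    | [] => exact zero_mem _
    | [_] => exact zero_mem _
    | [_, _] => exact zero_mem _
    | [i, j, k] =>
      have := hc i j k
      rw [chart_eq H.ne, chart_eq H.ne, chart_eq H.ne, ← rg_union, ← rg_union] at this
      rw [supp_cons, supp_cons, supp_cons, supp_nil, Set.union_empty, ← Set.union_assoc]
      exact this
    | _ :: _ :: _ :: _ :: _ => exact zero_mem _) (fun l => by
    match l with
    | [i, j, k, m] =>
      have := hD i j k m
      simp only [cD_cons, cD_nil, C]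
      linear_combination this
    | [] => rfl
    | [_] => simp [C]
    | [_, _] => simp [C]
    | [_, _, _] => simp [C]
    | i :: j :: k :: m :: n :: l =>
      refine cD_eq_zero _ _ fun l' hl => ?_
      match l', hl with
      | _ :: _ :: _ :: _ :: _, _ => rfl)
  refine ⟨fun i j => b [i, j], fun i j => ?_, fun i j k => ?_⟩
  · have := hb1 [i, j] (by simp)
    rw [supp_cons, supp_cons, supp_nil, Set.union_empty, rg_union] at this
    rwa [chart_eq H.ne, chart_eq H.ne]
  · have := hb2 [i, j, k]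
    simp only [cD_cons, cD_nil, C] at this
    rw [← this]; ring

end idx

/-- The divisor `s = 0` is prime on the chart of `T`. -/
theorem HS.prime [Fintype B] (H : HS blk Q dQ g) {T : Set V} (hT : ∀ b, ∃ v ∈ T, blk v = b)
    {s c : V} (hs : s ∉ T) (hc : c ∈ T) (hsc : blk s = blk c) {Q' : MvPolynomial V K}
    (hQ' : Prime Q') (hX : ∀ v, ¬ Q' ∣ X v) {ν : V →₀ ℕ} (hν : ∀ v ∉ T, ν v = 0)
    (hτ : aeval (Function.update X s 0) Q = monomial ν 1 * Q')
    {x y z : L} (hx : x ∈ rg K blk g T) (hy : y ∈ rg K blk g T) (hz : z ∈ rg K blk g T)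
    (h : x * y = g s / g c * z) :
    (∃ r ∈ rg K blk g T, x = g s / g c * r) ∨ ∃ r ∈ rg K blk g T, y = g s / g c * r := by
  set τ : MvPolynomial V K →ₐ[K] MvPolynomial V K := aeval (Function.update X s 0) with hτd
  have hsub : ∀ P : MvPolynomial V K, X s ∣ P - τ P := by
    intro P
    induction P using MvPolynomial.induction_on with
    | C a => simp [hτd]
    | add p q hp hq =>
      have : p + q - τ (p + q) = (p - τ p) + (q - τ q) := by rw [map_add]; ring
      rw [this]; exact dvd_add hp hq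
    | mul_X p v hp =>
      by_cases hv : v = s
      · subst hv; simp [hτd]
      · have : p * X v - τ (p * X v) = (p - τ p) * X v := by
          simp [hτd, Function.update_of_ne hv]; ring
        rw [this]; exact hp.mul_right _
  have hτm : ∀ n : V →₀ ℕ, (∀ v ∉ T, n v = 0) → τ (monomial n 1) = monomial n 1 := by
    intro n hn
    rw [hτd, aeval_monomial, monomial_eq, Finsupp.prod, Finsupp.prod]
    simp only [map_one]
    congr 1
    refine Finset.prod_congr rfl fun v hv => ?_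
    rw [Function.update_of_ne]
    rintro rfl
    exact (Finsupp.mem_support_iff.1 hv) (hn _ hs)
  have hndvd : ∀ n : V →₀ ℕ, ¬ Q' ∣ monomial n 1 := by
    intro n hn
    rw [monomial_eq, C_1, one_mul, Finsupp.prod] at hn
    obtain ⟨v, -, hv⟩ := (Prime.dvd_finsetProd_iff hQ' _).1 hn
    exact hX v (hQ'.dvd_of_dvd_pow hv)
  have hm : ∀ n : V →₀ ℕ, mono K (fun v => (n v : ℤ)) = toL (monomial n 1) := by
    intro n; rw [toL_monomial, one_smul]
  -- the conclusion from divisibility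
  have fin : ∀ (f : AddMonoidAlgebra K (V → ℤ)) (n : V →₀ ℕ) (P : MvPolynomial V K),
      f ∈ Sup K (Ex blk T 0) → (∀ v ∉ T, n v = 0) → f * mono K (fun v => (n v : ℤ)) = toL P →
      Q' ∣ τ P → ∃ r ∈ rg K blk g T, ev g f = g s / g c * r := by
    intro f n P hf hn hP ⟨r1, hr1⟩
    obtain ⟨r2, hr2⟩ := hsub P
    obtain ⟨r3, hr3⟩ := hsub Q
    have e1 : monomial ν 1 * P = Q * r1 + X s * (monomial ν 1 * r2 - r3 * r1) := by
      rw [hτ] at hr3
      linear_combination monomial ν 1 * hr2 + monomial ν 1 * hr1 - r1 * hr3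
    set m := mono K (-fun v => (n v : ℤ)) * mono K (-fun v => (ν v : ℤ)) with hmd
    have hmm : m ∈ Sup K (cone T) := cone_mul (mono_mem (neg_mem_cone hn)) (mono_mem (neg_mem_cone hν))
    have e2 : f = toL Q * (toL r1 * m) + toL (X s) * (toL (monomial ν 1 * r2 - r3 * r1) * m) := by
      rw [← mul_assoc (toL Q), ← mul_assoc (toL (X s)), ← add_mul, ← map_mul, ← map_mul, ← map_add,
        ← e1, map_mul, ← hP, ← hm, hmd]
      have := mono_cancel (K := K) (fun v => (n v : ℤ))
      have h2 := mono_cancel (K := K) (fun v => (ν v : ℤ))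
      linear_combination (-f * mono K (fun v => (ν v : ℤ)) * mono K (-fun v => (ν v : ℤ))) * this
        - f * h2
    obtain ⟨e3, -, he3⟩ := flt_deg (d := 0) H.hom (cone_mul (toL_mem T r1) hmm)
    have hXs : toL (X s : MvPolynomial V K) ∈ Sup K (Ex blk ∅ (Pi.single (blk s) 1)) := by
      rw [toL_X]
      refine mono_mem ⟨fun v _ => ?_, dg_single _ _ _⟩
      simp only [Pi.single_apply]; split_ifs <;> simp
    obtain ⟨e4, he4, he4'⟩ := flt_deg (d := 0) hXs
      (cone_mul (toL_mem T (monomial ν 1 * r2 - r3 * r1)) hmm)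
    have e5 : f = toL Q * e3 + toL (X s) * e4 := by
      rw [← he3, ← he4', ← map_add, ← e2, flt_eq_self hf fun a ha => ha.2]
    refine ⟨ev g (mono K (Pi.single c 1) * e4), ev_mem_rg H.ne hT ?_, ?_⟩
    · have h5 : mono K (Pi.single c 1 : V → ℤ) ∈ Sup K (Ex blk T (Pi.single (blk s) 1)) := by
        refine mono_mem ⟨fun v _ => ?_, by rw [dg_single, hsc]⟩
        simp only [Pi.single_apply]; split_ifs <;> simp
      simpa using Ex_mul h5 he4
    · rw [e5, map_add, ev_mul' H.ne, ev_mul' H.ne, ev_mul' H.ne, ev_toL, ev_toL, H.zero, ev_single]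
      have := H.ne c
      simp only [aeval_X]
      field_simp
      ring
  obtain ⟨fx, hfx, rfl⟩ := lift_rg H.ne hx
  obtain ⟨fy, hfy, rfl⟩ := lift_rg H.ne hy
  obtain ⟨fz, hfz, rfl⟩ := lift_rg H.ne hz
  have hr := mono_mem (K := K) (ratio_mem (blk := blk) hc hsc)
  obtain ⟨e, he, he'⟩ := H.kerL (f := fx * fy - mono K (Pi.single s 1 + Pi.single c (-1)) * fz)
    (sub_mem (by simpa using Ex_mul hfx hfy) (by simpa using Ex_mul hr hfz))
    (by rw [map_sub, ev_mul' H.ne, ev_mul' H.ne, ev_ratio (H.ne c), h, sub_self])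
  obtain ⟨nx, Px, hnx, hPx⟩ := clear (Ex_cone hfx)
  obtain ⟨ny, Py, hny, hPy⟩ := clear (Ex_cone hfy)
  have hcz : mono K (Pi.single c (-1) : V → ℤ) * fz ∈ Sup K (cone T) := by
    refine cone_mul (mono_mem fun v hv => ?_) (Ex_cone hfz)
    have : v ≠ c := fun e => hv (e ▸ hc)
    simp [Pi.single_apply, this]
  obtain ⟨nz, Pz, hnz, hPz⟩ := clear hcz
  obtain ⟨ne, Pe, hne, hPe⟩ := clear (Ex_cone he)
  have e6 : Px * Py * (monomial nz 1 * monomial ne 1) =
      X s * (Pz * monomial nx 1 * monomial ny 1 * monomial ne 1) +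
      Q * (Pe * monomial nx 1 * monomial ny 1 * monomial nz 1) := by
    apply toL_injective
    simp only [map_mul, map_add, ← hm, ← hPx, ← hPy, ← hPz, ← hPe, toL_X]
    rw [mono_add] at he'
    linear_combination (mono K (fun v => (nx v : ℤ)) * mono K (fun v => (ny v : ℤ)) *
      mono K (fun v => (nz v : ℤ)) * mono K (fun v => (ne v : ℤ))) * he'
  have e7 : Q' ∣ τ Px * τ Py * (monomial nz 1 * monomial ne 1) := by
    have := congrArg τ e6
    simp only [map_mul, map_add, hτm nz hnz, hτm ne hne, hτ] at this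
    rw [this]
    have h0 : τ (X s) = 0 := by simp [hτd]
    rw [h0, zero_mul, zero_add]
    exact (dvd_mul_left _ _).mul_right _
  rcases hQ'.dvd_or_dvd e7 with h1 | h1
  · rcases hQ'.dvd_or_dvd h1 with h2 | h2
    · exact Or.inl (fin fx nx Px hfx hnx hPx h2)
    · exact Or.inr (fin fy ny Py hfy hny hPy h2)
  · rcases hQ'.dvd_or_dvd h1 with h2 | h2 <;> exact absurd h2 (hndvd _)

end Pool.Agent.Lib.MP_dd9c4c_nt
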