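import Mathlib
import Pool.Agent.Lib.MP_dd9c4c_nt.Hyper

set_option linter.unusedSectionVars false
set_option linter.unusedSimpArgs false
set_option linter.unusedVariables false

namespace Pool.Agent.Lib.MP_dd9c4c_nt

open MvPolynomial Submodule

section rank

variable {G B : Type} [CommGroup G] {S T : Set G}

/-- The map to the subquotient. -/
noncomputable def sqMap (T : Set G) (e : (B → ℤ) → G) (he : ∀ n m, e (n + m) = e n * e m)
    (hS : ∀ n, e n ∈ S) : (B → ℤ) →ₗ[ℤ]
      Additive (Subgroup.closure S ⧸ (Subgroup.closure T).subgroupOf (Subgroup.closure S)) :=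
  (AddMonoidHom.mk' (fun n => Additive.ofMul (QuotientGroup.mk
    ⟨e n, Subgroup.subset_closure (hS n)⟩)) fun n m => by
      rw [← ofMul_mul, ← QuotientGroup.mk_mul]
      congr 2
      exact Subtype.ext (he n m)).toIntLinearMap

lemma quotRank_eq [Fintype B] [DecidableEq B] (e : (B → ℤ) → G) (he : ∀ n m, e (n + m) = e n * e m)
    (hS : ∀ n, e n ∈ S) (p : B → Prop) [DecidablePred p]
    (hker : ∀ n, e n ∈ Subgroup.closure T ↔ ∀ b, p b → n b = 0)
    (hsurj : ∀ M ∈ Subgroup.closure S, ∃ n, (e n)⁻¹ * M ∈ Subgroup.closure T) :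
    quotRank S T = Fintype.card {b // p b} := by
  have hk : ∀ n, sqMap T e he hS n = 0 ↔ ∀ b, p b → n b = 0 := by
    intro n
    rw [← hker]
    change (QuotientGroup.mk _ : (Subgroup.closure S ⧸
      (Subgroup.closure T).subgroupOf (Subgroup.closure S))) = 1 ↔ _
    rw [QuotientGroup.eq_one_iff, Subgroup.mem_subgroupOf]
  let ext : ({b // p b} → ℤ) →ₗ[ℤ] (B → ℤ) :=
    { toFun := fun n b => if h : p b then n ⟨b, h⟩ else 0
      map_add' := fun n m => by ext b; by_cases h : p b <;> simp [h]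
      map_smul' := fun c n => by ext b; by_cases h : p b <;> simp [h] }
  have hbij : Function.Bijective (sqMap T e he hS ∘ₗ ext) := by
    constructor
    · rw [injective_iff_map_eq_zero]
      intro n hn
      ext b
      have := (hk _).1 hn b.1 b.2
      simpa [ext, b.2] using this
    · intro x
      obtain ⟨⟨M, hM⟩, hx⟩ := QuotientGroup.mk_surjective (Additive.toMul x)
      obtain ⟨n, hn⟩ := hsurj M hM
      refine ⟨fun b => n b.1, ?_⟩
      have h1 : sqMap T e he hS n = x := by
        change Additive.ofMul (QuotientGroup.mk _) = Additive.ofMul (Additive.toMul x)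
        rw [← hx]
        congr 1
        rw [QuotientGroup.eq, Subgroup.mem_subgroupOf]
        exact hn
      rw [← h1, LinearMap.comp_apply, ← sub_eq_zero, ← map_sub, hk]
      intro b hb
      simp [ext, hb]
  rw [quotRank, ← (LinearEquiv.ofBijective _ hbij).rank_eq]
  simp

end rank

section key

variable {K L : Type} [Field K] [Field L] [Algebra K L]

/-- Prime element or unit of `A`. -/
def PP (A : Subalgebra K L) (p : L) : Prop :=
  p ∈ A ∧ p ≠ 0 ∧ ∀ x ∈ A, ∀ y ∈ A, ∀ z ∈ A, x * y = p * z →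
    (∃ r ∈ A, x = p * r) ∨ ∃ r ∈ A, y = p * r

lemma mem_one' {A : Subalgebra K L} {x : L} : x ∈ (1 : Submodule A L) ↔ x ∈ A := by
  rw [Submodule.mem_one]
  exact ⟨fun ⟨y, hy⟩ => hy ▸ y.2, fun h => ⟨⟨x, h⟩, rfl⟩⟩

lemma span_mul_span' {A : Subalgebra K L} (x y : L) :
    span A {x} * span A {y} = span A {x * y} := by
  rw [Submodule.span_mul_span, Set.singleton_mul_singleton]

lemma span_one' {A : Subalgebra K L} : span A {(1 : L)} = 1 := Submodule.one_eq_span.symm

lemma span_mul_le {A : Subalgebra K L} {x : L} {M N : Submodule A L} (h : ∀ m ∈ M, x * m ∈ N) :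
    span A {x} * M ≤ N := by
  refine Submodule.mul_le.2 fun a ha m hm => ?_
  obtain ⟨r, rfl⟩ := Submodule.mem_span_singleton.1 ha
  rw [smul_mul_assoc]
  exact N.smul_mem _ (h m hm)

lemma key_span {A : Subalgebra K L} {G : Set L} (hG : ∀ p ∈ G, PP A p) {y : L}
    (hy : y ∈ Submonoid.closure G) : ∀ M M' : Submodule A L, M * M' = 1 → M ≤ 1 → y ∈ M →
      ∃ z ∈ Submonoid.closure G, M = span A {z} := by
  induction hy using Submonoid.closure_induction_left with
  | one =>
    intro M M' _ h1 h2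
    refine ⟨1, one_mem _, le_antisymm (by rw [span_one']; exact h1) ?_⟩
    simpa using h2
  | mul_left p hp y hy ih =>
    intro M M' h0 h1 h2
    obtain ⟨hpA, hp0, hpp⟩ := hG p hp
    have hyA : y ∈ A := by
      have : Submonoid.closure G ≤ A.toSubmonoid := Submonoid.closure_le.2 fun q hq => (hG q hq).1
      exact this hy
    by_cases hM : ∀ m ∈ M, ∃ r ∈ A, m = p * r
    · obtain ⟨z, hz, hz'⟩ := ih (span A {p⁻¹} * M) (span A {p} * M') (by
        rw [mul_mul_mul_comm, span_mul_span', inv_mul_cancel₀ hp0, span_one', h0, one_mul])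
        (span_mul_le fun m hm => by
          obtain ⟨r, hr, rfl⟩ := hM m hm
          rw [inv_mul_cancel_left₀ hp0]
          exact mem_one'.2 hr)
        (by
          have := Submodule.mul_mem_mul (Submodule.mem_span_singleton_self (R := A) p⁻¹) h2
          rwa [inv_mul_cancel_left₀ hp0] at this)
      refine ⟨p * z, mul_mem (Submonoid.subset_closure hp) hz, ?_⟩
      rw [← span_mul_span', ← hz', ← mul_assoc, span_mul_span', mul_inv_cancel₀ hp0, span_one',
        one_mul]
    · push Not at hM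
      obtain ⟨b, hb, hb'⟩ := hM
      refine ih M M' h0 h1 ?_
      have h3 : span A {y} * M' ≤ 1 := span_mul_le fun m hm => by
        have ha : p * y * m ∈ A := mem_one'.1 (h0 ▸ Submodule.mul_mem_mul h2 hm)
        have ha' : b * m ∈ A := mem_one'.1 (h0 ▸ Submodule.mul_mem_mul hb hm)
        rcases hpp _ ha b (mem_one'.1 (h1 hb)) _ (mul_mem hyA ha') (by ring) with
          ⟨r, hr, h⟩ | ⟨r, hr, h⟩
        · rw [mul_assoc] at h
          rw [mul_left_cancel₀ hp0 h]
          exact mem_one'.2 hr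
        · exact absurd h (hb' r hr)
      have h4 : span A {y} ≤ M := by
        calc span A {y} = span A {y} * M' * M := by rw [mul_assoc, mul_comm M', h0, mul_one]
          _ ≤ 1 * M := by gcongr
          _ = M := one_mul M
      exact h4 (Submodule.mem_span_singleton_self y)

lemma key_loc {A A' : Subalgebra K L} {G : Set L} (hG : ∀ p ∈ G, PP A p)
    (hA : ∀ x ∈ A', ∃ y ∈ Submonoid.closure G, y * x ∈ A) (M : (Submodule A L)ˣ)
    (hM : span A' ((M : Submodule A L) : Set L) = 1) :
    ∃ z ∈ Submonoid.closure G, ∃ z' ∈ Submonoid.closure G, (M : Submodule A L) = span A {z / z'} := by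
  have hGA : ∀ y ∈ Submonoid.closure G, y ∈ A ∧ y ≠ 0 := by
    intro y hy
    induction hy using Submonoid.closure_induction with
    | mem x hx => exact ⟨(hG x hx).1, (hG x hx).2.1⟩
    | one => exact ⟨one_mem _, one_ne_zero⟩
    | mul x y _ _ hx hy => exact ⟨mul_mem hx.1 hy.1, mul_ne_zero hx.2 hy.2⟩
  obtain ⟨s, hs⟩ := Submodule.fg_unit M
  have h1 : ∀ x ∈ s, ∃ y ∈ Submonoid.closure G, y * x ∈ A := fun x hx => hA x (by
    have : x ∈ (M : Submodule A L) := hs ▸ Submodule.subset_span hx
    exact mem_one'.1 (hM ▸ Submodule.subset_span this))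
  choose! y hy1 hy2 using h1
  have hY : ∏ x ∈ s, y x ∈ Submonoid.closure G := prod_mem hy1
  have h2 : span A {∏ x ∈ s, y x} * (M : Submodule A L) ≤ 1 := by
    classical
    rw [← hs, Submodule.span_mul_span, Submodule.span_le]
    rintro _ ⟨_, rfl, x, hx, rfl⟩
    refine mem_one'.2 ?_
    simp only
    rw [← Finset.prod_erase_mul _ _ hx, mul_assoc]
    exact mul_mem (prod_mem fun u hu => (hGA _ (hy1 u (Finset.mem_of_mem_erase hu))).1) (hy2 x hx)
  have h3 : ∀ x ∈ span A' ((M : Submodule A L) : Set L),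
      ∃ u ∈ Submonoid.closure G, u * x ∈ (M : Submodule A L) := by
    intro x hx
    induction hx using Submodule.span_induction with
    | mem x hx => exact ⟨1, one_mem _, by simpa using hx⟩
    | zero => exact ⟨1, one_mem _, by simp⟩
    | add x x' _ _ hx hx' =>
      obtain ⟨u, hu, h⟩ := hx
      obtain ⟨u', hu', h'⟩ := hx'
      refine ⟨u * u', mul_mem hu hu', ?_⟩
      have e : u * u' * (x + x') = (⟨u', (hGA _ hu').1⟩ : A) • (u * x) +
          (⟨u, (hGA _ hu).1⟩ : A) • (u' * x') := by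
        change _ = u' * (u * x) + u * (u' * x')
        ring
      rw [e]
      exact add_mem (Submodule.smul_mem _ _ h) (Submodule.smul_mem _ _ h')
    | smul a x _ hx =>
      obtain ⟨u, hu, h⟩ := hx
      obtain ⟨w, hw, hw'⟩ := hA a a.2
      refine ⟨u * w, mul_mem hu hw, ?_⟩
      have e : u * w * (a • x) = (⟨w * a, hw'⟩ : A) • (u * x) := by
        change _ * ((a : L) * x) = w * a * (u * x)
        ring
      rw [e]
      exact Submodule.smul_mem _ _ h
  obtain ⟨u, hu, hu'⟩ := h3 1 (hM ▸ mem_one'.2 (one_mem _))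
  rw [mul_one] at hu'
  have hY0 := (hGA _ hY).2
  obtain ⟨z, hz, hz'⟩ := key_span hG (mul_mem hY hu) (span A {∏ x ∈ s, y x} * (M : Submodule A L))
    (span A {(∏ x ∈ s, y x)⁻¹} * (M⁻¹ : (Submodule A L)ˣ)) (by
      rw [mul_mul_mul_comm, span_mul_span', mul_inv_cancel₀ hY0, span_one', one_mul, Units.mul_inv])
    h2 (Submodule.mul_mem_mul (Submodule.mem_span_singleton_self _) hu')
  refine ⟨z, hz, _, hY, ?_⟩
  rw [div_eq_inv_mul, ← span_mul_span', ← hz', ← mul_assoc, span_mul_span', inv_mul_cancel₀ hY0,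
    span_one', one_mul]

lemma span_span' {A A' : Subalgebra K L} (h : A ≤ A') (s : Set L) :
    span A' ((span A s : Submodule A L) : Set L) = span A' s := by
  refine le_antisymm (Submodule.span_le.2 fun x hx => ?_) (Submodule.span_mono subset_span)
  induction hx using Submodule.span_induction with
  | mem x hx => exact subset_span hx
  | zero => exact zero_mem _
  | add x y _ _ hx hy => exact add_mem hx hy
  | smul a x _ hx => exact (span A' s).smul_mem (⟨a, h a.2⟩ : A') hx

lemma span_ext_mul {A A' : Subalgebra K L} (h : A ≤ A') (M N : Submodule A L) :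
    span A' ((M * N : Submodule A L) : Set L) = span A' (M : Set L) * span A' (N : Set L) := by
  rw [Submodule.mul_eq_span_mul_set, span_span' h, Submodule.span_mul_span]

lemma span_ext_one {A A' : Subalgebra K L} (h : A ≤ A') :
    span A' ((1 : Submodule A L) : Set L) = 1 := by
  rw [← span_one', span_span' h, span_one']

lemma div_mem_of_span_eq {A : Subalgebra K L} {x y : L} (hy : y ≠ 0)
    (h : span A {x} = span A {y}) : x / y ∈ A := by
  have : x ∈ span A {y} := h ▸ Submodule.mem_span_singleton_self x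
  obtain ⟨r, rfl⟩ := Submodule.mem_span_singleton.1 this
  change (r : L) * y / y ∈ A
  rw [mul_div_cancel_right₀ _ hy]
  exact r.2

lemma span_eq_of_div {A : Subalgebra K L} {x y : L} (hx : x ≠ 0) (hy : y ≠ 0)
    (h : x / y ∈ A) (h' : y / x ∈ A) : span A {x} = span A {y} := by
  apply le_antisymm
  · rw [Submodule.span_singleton_le_iff_mem]
    exact Submodule.mem_span_singleton.2 ⟨⟨_, h⟩, div_mul_cancel₀ x hy⟩
  · rw [Submodule.span_singleton_le_iff_mem]
    exact Submodule.mem_span_singleton.2 ⟨⟨_, h'⟩, div_mul_cancel₀ y hx⟩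

variable {ι : Type} {ξ : ι → L}

variable (K ξ) in
/-- Compatible families. -/
def Comp : Set (∀ i, (Submodule (chart K ξ i) L)ˣ) := {M | ∀ i j,
      Submodule.span ↥(chart K ξ i ⊔ chart K ξ j) ((M i : Submodule (chart K ξ i) L) : Set L) =
      Submodule.span ↥(chart K ξ i ⊔ chart K ξ j) ((M j : Submodule (chart K ξ j) L) : Set L)}

variable (K ξ) in
/-- Principal families. -/
def Prin : Set (∀ i, (Submodule (chart K ξ i) L)ˣ) := {M | ∃ z : L, ∀ i,
      (M i : Submodule (chart K ξ i) L) = Submodule.span (chart K ξ i) {z}}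

lemma comp_of_mem {M : ∀ i, (Submodule (chart K ξ i) L)ˣ} (h : M ∈ Subgroup.closure (Comp K ξ)) :
    M ∈ Comp K ξ := by
  induction h using Subgroup.closure_induction with
  | mem x hx => exact hx
  | one =>
    intro i j
    simp only [Pi.one_apply, Units.val_one]
    rw [span_ext_one le_sup_left, span_ext_one le_sup_right]
  | mul x y _ _ hx hy =>
    intro i j
    simp only [Pi.mul_apply, Units.val_mul]
    rw [span_ext_mul le_sup_left, span_ext_mul le_sup_right, hx i j, hy i j]
  | inv x _ hx =>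
    intro i j
    simp only [Pi.inv_apply]
    have h1 := span_ext_mul (le_sup_left : chart K ξ i ≤ chart K ξ i ⊔ chart K ξ j)
      ((x i)⁻¹ : (Submodule _ L)ˣ) (x i)
    have h2 := span_ext_mul (le_sup_right : chart K ξ j ≤ chart K ξ i ⊔ chart K ξ j)
      (x j) ((x j)⁻¹ : (Submodule _ L)ˣ)
    rw [Units.inv_mul, span_ext_one le_sup_left] at h1
    rw [Units.mul_inv, span_ext_one le_sup_right, ← hx i j] at h2
    exact left_inv_eq_right_inv h1.symm h2.symm

lemma prin_of_mem [Nonempty ι] {M : ∀ i, (Submodule (chart K ξ i) L)ˣ}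
    (h : M ∈ Subgroup.closure (Prin K ξ)) :
    ∃ z : L, z ≠ 0 ∧ ∀ i, (M i : Submodule (chart K ξ i) L) = span (chart K ξ i) {z} := by
  induction h using Subgroup.closure_induction with
  | mem x hx =>
    obtain ⟨z, hz⟩ := hx
    refine ⟨z, ?_, hz⟩
    rintro rfl
    obtain ⟨i⟩ := ‹Nonempty ι›
    exact (x i).ne_zero (by simpa using hz i)
  | one => exact ⟨1, one_ne_zero, fun i => span_one'.symm⟩
  | mul x y _ _ hx hy =>
    obtain ⟨z, hz0, hz⟩ := hx
    obtain ⟨z', hz0', hz'⟩ := hy
    exact ⟨z * z', mul_ne_zero hz0 hz0', fun i => by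
      rw [Pi.mul_apply, Units.val_mul, hz, hz', span_mul_span']⟩
  | inv x _ hx =>
    obtain ⟨z, hz0, hz⟩ := hx
    refine ⟨z⁻¹, inv_ne_zero hz0, fun i => ?_⟩
    rw [Pi.inv_apply]
    refine Units.inv_eq_of_mul_eq_one_right ?_
    rw [hz, span_mul_span', mul_inv_cancel₀ hz0, span_one']

/-- Invertible submodule generated by a nonzero element. -/
noncomputable def su (A : Subalgebra K L) (z : L) (hz : z ≠ 0) : (Submodule A L)ˣ :=
  Units.map (spanSingleton A).toMonoidHom (Units.mk0 z hz)

@[simp] lemma su_val (A : Subalgebra K L) (z : L) (hz : z ≠ 0) :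
    (su A z hz : Submodule A L) = span A {z} := rfl

end key

variable {K V B L : Type} [Field K] [Fintype V] [DecidableEq V] [DecidableEq B] [Field L]
  [Algebra K L] [Fintype B] {blk : V → B} {Q : MvPolynomial V K} {dQ : B → ℤ} {g : V → L}
  {Sl : Type} [Fintype Sl] [DecidableEq Sl] {β : Sl → B}

/-- Laurent monomial in the generic point. -/
def zz (g : V → L) (a : V → ℤ) : L := ∏ v, g v ^ a v

lemma zz_ne (hg : ∀ v, g v ≠ 0) (a : V → ℤ) : zz g a ≠ 0 :=
  Finset.prod_ne_zero_iff.2 fun v _ => zpow_ne_zero _ (hg v)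

lemma zz_add (hg : ∀ v, g v ≠ 0) (a b : V → ℤ) : zz g (a + b) = zz g a * zz g b := by
  simp only [zz, ← Finset.prod_mul_distrib, Pi.add_apply, zpow_add₀ (hg _)]

lemma zz_neg (a : V → ℤ) : zz g (-a) = (zz g a)⁻¹ := by
  simp only [zz, ← Finset.prod_inv_distrib, Pi.neg_apply, zpow_neg]

lemma zz_sub (hg : ∀ v, g v ≠ 0) (a b : V → ℤ) : zz g (a - b) = zz g a / zz g b := by
  rw [sub_eq_add_neg, zz_add hg, zz_neg, div_eq_mul_inv]

lemma zz_zero : zz g 0 = 1 := by simp [zz]

lemma zz_single (v : V) (n : ℤ) : zz g (Pi.single v n) = g v ^ n := by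
  rw [zz, Finset.prod_eq_single v] <;> simp +contextual [Pi.single_apply]

lemma zz_sum (hg : ∀ v, g v ≠ 0) {γ : Type} (s : Finset γ) (a : γ → V → ℤ) :
    zz g (∑ i ∈ s, a i) = ∏ i ∈ s, zz g (a i) := by
  classical
  induction s using Finset.induction_on with
  | empty => simp [zz_zero]
  | insert b s hb ih => rw [Finset.sum_insert hb, Finset.prod_insert hb, zz_add hg, ih]

lemma HS.val_zero (H : HS blk Q dQ g) {s : V} {h : V → K} (hQ : aeval h Q = 0) (hs : h s = 0)
    (hh : ∀ v, v ≠ s → h v ≠ 0) {a : V → ℤ} (ha : dg blk a = 0)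
    (h1 : zz g a ∈ rg K blk g {s}ᶜ) (h2 : zz g (-a) ∈ rg K blk g {s}ᶜ) : a s = 0 := by
  have key : ∀ a : V → ℤ, dg blk a = 0 → zz g (-a) ∈ rg K blk g {s}ᶜ → ¬ 0 < a s := by
    intro a ha h2 hpos
    obtain ⟨y, hy, hy'⟩ := lift_rg H.ne h2
    have hma : mono K a ∈ Sup K (Ex blk {s}ᶜ 0) := mono_mem ⟨fun v hv => by
      have : v = s := by simpa using hv
      rw [this]; exact hpos.le, ha⟩
    have h3 := H.transfer (T := {s}ᶜ) (d := 0) (f := mono K a * y - mono K 0) (sub_mem (by simpa only [add_zero] using Ex_mul hma hy)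
      (mono_mem ⟨fun _ _ => le_rfl, map_zero _⟩)) (by
        rw [map_sub, ev_mul' H.ne, hy', ev_mono, mono_zero, ev_one, zz_neg]
        exact sub_eq_zero.2 (mul_inv_cancel₀ (zz_ne H.ne a))) (h := h) hh hQ
    rw [map_sub, ev_mul hh (Ex_cone hma) (Ex_cone hy), mono_zero, ev_one, ev_mono,
      Finset.prod_eq_zero (Finset.mem_univ s) (by rw [hs]; exact zero_zpow _ hpos.ne')] at h3
    simp at h3
  have k1 := key a ha h2
  have k2 := key (-a) (by rw [map_neg, ha, neg_zero]) (by rwa [neg_neg])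
  simp only [Pi.neg_apply] at k2
  omega

/-- Data for the computation of the Picard group. -/
structure PD (K : Type) [Field K] [Algebra K L] (blk : V → B) (β : Sl → B) (g : V → L)
    (Q : MvPolynomial V K) (st : B → V) (sl : B → Sl) : Prop where
  st_blk : ∀ b, blk (st b) = b
  sl_blk : ∀ b, β (sl b) = b
  pp : ∀ (T : Set V) (b : B) (c : V), (∀ b, ∃ v ∈ T, blk v = b) → c ∈ T → blk c = b →
    PP (rg K blk g T) (g (st b) / g c)
  pt : ∀ b, ∃ h : V → K, aeval h Q = 0 ∧ h (st b) = 0 ∧ ∀ v, v ≠ st b → h v ≠ 0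
  base : ∀ x : L, ∃ y ∈ Submonoid.closure {p | PP (rg K blk g (Set.range st)) p},
    y * x ∈ rg K blk g (Set.range st)
  unit : ∀ z ∈ rg K blk g (Set.range st), z⁻¹ ∈ rg K blk g (Set.range st) →
    ∃ c : K, z = algebraMap K L c

variable {st : B → V} {sl : B → Sl}

/-- Exponent of the local equation. -/
def ex (st : B → V) (sl : B → Sl) (f : Idx blk β) (n : B → ℤ) : V → ℤ :=
  ∑ b, (Pi.single (st b) (n b) - Pi.single (f.1 (sl b)) (n b))

lemma ex_add (f : Idx blk β) (n m : B → ℤ) : ex st sl f (n + m) = ex st sl f n + ex st sl f m := by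
  simp only [ex, ← Finset.sum_add_distrib, Pi.add_apply, Pi.single_add]
  exact Finset.sum_congr rfl fun b _ => by abel

lemma ex_neg (f : Idx blk β) (n : B → ℤ) : ex st sl f (-n) = -ex st sl f n := by
  simp only [ex, ← Finset.sum_neg_distrib, Pi.neg_apply, Pi.single_neg]
  exact Finset.sum_congr rfl fun b _ => by abel

lemma PD.dg_ex (D : PD K blk β g Q st sl) (f : Idx blk β) (n : B → ℤ) :
    dg blk (ex st sl f n) = 0 := by
  simp only [ex, map_sum, map_sub, dg_single, D.st_blk, f.2, D.sl_blk, sub_self,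
    Finset.sum_const_zero]

lemma PD.ex_st (D : PD K blk β g Q st sl) (f : Idx blk β) (n : B → ℤ) (b : B)
    (hb : st b ∉ Set.range f.1) : ex st sl f n (st b) = n b := by
  simp only [ex, Finset.sum_apply, Pi.sub_apply]
  rw [Finset.sum_eq_single b]
  · have : st b ≠ f.1 (sl b) := fun e => hb ⟨_, e.symm⟩
    simp [Pi.single_apply, this]
  · intro b' _ hb'
    have h1 : st b ≠ st b' := fun e => hb' (by rw [← D.st_blk b, ← D.st_blk b', e])
    have : st b ≠ f.1 (sl b') := fun e => hb ⟨_, e.symm⟩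
    simp [Pi.single_apply, this, h1]
  · simp

lemma zz_ex (hg : ∀ v, g v ≠ 0) (f : Idx blk β) (n : B → ℤ) :
    zz g (ex st sl f n) = ∏ b, (g (st b) / g (f.1 (sl b))) ^ n b := by
  simp only [ex, zz_sum hg, zz_sub hg, zz_single, div_zpow]

lemma zpow_mem_of {A : Subalgebra K L} {x : L} (h : x ∈ A) (h' : x⁻¹ ∈ A) (n : ℤ) : x ^ n ∈ A := by
  obtain ⟨m, rfl | rfl⟩ := n.eq_nat_or_neg
  · rw [zpow_natCast]; exact pow_mem h m
  · rw [zpow_neg, ← inv_zpow, zpow_natCast]; exact pow_mem h' m

/-- The family attached to a multidegree. -/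
noncomputable def eta0 (hg : ∀ v, g v ≠ 0) (st : B → V) (sl : B → Sl) (n : B → ℤ) :
    ∀ f : Idx blk β, (Submodule (chart K (mon g) f) L)ˣ :=
  fun f => su _ (zz g (ex st sl f n)) (zz_ne hg _)

lemma eta0_add (hg : ∀ v, g v ≠ 0) (n m : B → ℤ) :
    (eta0 hg st sl (n + m) : ∀ f : Idx blk β, (Submodule (chart K (mon g) f) L)ˣ) =
      eta0 hg st sl n * eta0 hg st sl m := by
  ext1 f
  ext1
  simp only [eta0, Pi.mul_apply, Units.val_mul, su_val, span_mul_span', ex_add, zz_add hg]

lemma PD.eta0_mem (D : PD K blk β g Q st sl) (hg : ∀ v, g v ≠ 0) (n : B → ℤ) :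
    eta0 hg st sl n ∈ Comp K (mon g : Idx blk β → L) := by
  intro f f'
  simp only [eta0, su_val]
  rw [span_span' le_sup_left, span_span' le_sup_right]
  have key : ∀ f1 f2 : Idx blk β, Set.range f1.1 ⊆ Set.range f.1 ∪ Set.range f'.1 →
      Set.range f2.1 ⊆ Set.range f.1 ∪ Set.range f'.1 →
      zz g (ex st sl f1 n) / zz g (ex st sl f2 n) ∈ chart K (mon g) f ⊔ chart K (mon g) f' := by
    intro f1 f2 h1 h2
    rw [chart_eq hg, chart_eq hg, ← rg_union, zz_ex hg, zz_ex hg, ← Finset.prod_div_distrib]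
    refine prod_mem fun b _ => ?_
    rw [← div_zpow, div_div_div_cancel_left' _ _ (hg _)]
    refine zpow_mem_of (div_mem_rg (h1 ⟨_, rfl⟩) (by rw [f1.2, f2.2])) ?_ _
    rw [inv_div]
    exact div_mem_rg (h2 ⟨_, rfl⟩) (by rw [f1.2, f2.2])
  exact span_eq_of_div (zz_ne hg _) (zz_ne hg _)
    (key f f' Set.subset_union_left Set.subset_union_right)
    (key f' f Set.subset_union_right Set.subset_union_left)

/-- The base chart. -/
def PD.f0 (D : PD K blk β g Q st sl) : Idx blk β := ⟨fun s => st (β s), fun _ => D.st_blk _⟩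

lemma PD.range_f0 (D : PD K blk β g Q st sl) : Set.range D.f0.1 = Set.range st := by
  ext v
  exact ⟨fun ⟨s, hs⟩ => ⟨_, hs⟩, fun ⟨b, hb⟩ => ⟨sl b, by simp [PD.f0, D.sl_blk, hb]⟩⟩

lemma PD.meets (D : PD K blk β g Q st sl) (f : Idx blk β) (b : B) :
    ∃ v ∈ Set.range f.1, blk v = b := ⟨_, ⟨sl b, rfl⟩, by rw [f.2, D.sl_blk]⟩

lemma PD.eta_eq_zero (D : PD K blk β g Q st sl) (H : HS blk Q dQ g) {n : B → ℤ} :
    eta0 H.ne st sl n ∈ Subgroup.closure (Prin K (mon g : Idx blk β → L)) ↔
      ∀ b, (∃ v, blk v = b ∧ v ≠ st b) → n b = 0 := by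
  have : Nonempty (Idx blk β) := ⟨D.f0⟩
  constructor
  · intro h b ⟨v, hv1, hv2⟩
    obtain ⟨z, hz0, hz⟩ := prin_of_mem (K := K) (ξ := (mon g : Idx blk β → L)) h
    simp only [eta0, su_val] at hz
    have h1 := hz D.f0
    have h2 : zz g (ex st sl D.f0 n) = 1 := by
      rw [zz_ex H.ne]
      exact Finset.prod_eq_one fun b _ => by simp [PD.f0, D.sl_blk, H.ne]
    rw [h2] at h1
    have h3 := div_mem_of_span_eq hz0 h1
    have h4 := div_mem_of_span_eq one_ne_zero h1.symm
    rw [chart_eq H.ne, D.range_f0] at h3 h4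
    obtain ⟨c, rfl⟩ := D.unit z (by simpa using h4) (by simpa using h3)
    let f : Idx blk β := ⟨fun s => if β s = b then v else st (β s), fun s => by
      dsimp only
      split_ifs with h
      · rw [hv1, h]
      · exact D.st_blk _⟩
    have hf : st b ∉ Set.range f.1 := by
      rintro ⟨s, hs⟩
      simp only [f] at hs
      split_ifs at hs with h
      · exact hv2 hs
      · exact h (by rw [← D.st_blk (β s), hs, D.st_blk])
    have hle : chart K (mon g) f ≤ rg K blk g {st b}ᶜ := by
      rw [chart_eq H.ne]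
      exact rg_mono fun u hu e => hf (e ▸ hu)
    obtain ⟨p, hp1, hp2, hp3⟩ := D.pt b
    rw [← D.ex_st f n b hf]
    refine H.val_zero hp1 hp2 hp3 (D.dg_ex f n) ?_ ?_
    · have := mul_mem (hle (div_mem_of_span_eq hz0 (hz f))) (Subalgebra.algebraMap_mem _ c)
      rwa [div_mul_cancel₀ _ hz0] at this
    · have := mul_mem (hle (div_mem_of_span_eq (zz_ne H.ne _) (hz f).symm))
        (Subalgebra.algebraMap_mem _ c⁻¹)
      rw [map_inv₀, div_mul_eq_mul_div, mul_inv_cancel₀ hz0, one_div] at this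
      rwa [zz_neg]
  · intro h
    refine Subgroup.subset_closure ⟨1, fun f => ?_⟩
    simp only [eta0, su_val]
    congr 2
    rw [zz_ex H.ne]
    refine Finset.prod_eq_one fun b _ => ?_
    by_cases hb : f.1 (sl b) = st b
    · simp [hb, H.ne]
    · rw [h b ⟨_, by rw [f.2, D.sl_blk], hb⟩, zpow_zero]

lemma PD.eta_surj (D : PD K blk β g Q st sl) (H : HS blk Q dQ g)
    (M : ∀ f : Idx blk β, (Submodule (chart K (mon g) f) L)ˣ)
    (hM : M ∈ Subgroup.closure (Comp K (mon g : Idx blk β → L))) :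
    ∃ n, (eta0 H.ne st sl n)⁻¹ * M ∈ Subgroup.closure (Prin K (mon g : Idx blk β → L)) := by
  classical
  have hc : M ∈ Comp K (mon g : Idx blk β → L) := comp_of_mem hM
  -- base chart
  obtain ⟨z, hz0, hz⟩ : ∃ z : L, z ≠ 0 ∧ (M D.f0 : Submodule (chart K (mon g) D.f0) L) =
      span (chart K (mon g) D.f0) {z} := by
    obtain ⟨z, -, z', -, h⟩ := key_loc (A' := ⊤) (G := {p | PP (chart K (mon g) D.f0) p})
      (fun p hp => hp) (fun x _ => by
        rw [chart_eq H.ne, D.range_f0]; exact D.base x) (M D.f0) (by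
        refine le_antisymm (fun x _ => mem_one'.2 Algebra.mem_top) ?_
        obtain ⟨y, hy, hy0⟩ := Submodule.exists_mem_ne_zero_of_ne_bot (M D.f0).ne_zero
        rw [← span_one', Submodule.span_singleton_le_iff_mem]
        have := Submodule.smul_mem (span (⊤ : Subalgebra K L) ((M D.f0).val : Set L))
          (⟨y⁻¹, Algebra.mem_top⟩ : (⊤ : Subalgebra K L)) (subset_span (SetLike.mem_coe.2 hy))
        change y⁻¹ * y ∈ _ at this
        rwa [inv_mul_cancel₀ hy0] at this)
    refine ⟨_, ?_, h⟩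
    intro h0
    exact (M D.f0).ne_zero (by simpa [h0] using h)
  let N : ∀ f : Idx blk β, (Submodule (chart K (mon g) f) L)ˣ :=
    fun f => su _ z⁻¹ (inv_ne_zero hz0) * M f
  have hN : ∀ f f' : Idx blk β,
      span ↥(chart K (mon g) f ⊔ chart K (mon g) f') ((N f).val : Set L) =
      span ↥(chart K (mon g) f ⊔ chart K (mon g) f') ((N f').val : Set L) := by
    intro f f'
    simp only [N, Units.val_mul, su_val]
    rw [span_ext_mul le_sup_left, span_ext_mul le_sup_right, hc f f', span_span' le_sup_left,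
      span_span' le_sup_right]
  have h1 : ∀ f : Idx blk β, ∃ n : B → ℤ, (N f).val = span _ {zz g (ex st sl f n)} := by
    intro f
    obtain ⟨z1, hz1, z2, hz2, h⟩ := key_loc (A' := chart K (mon g) f ⊔ chart K (mon g) D.f0)
      (G := Set.range fun b => g (st b) / g (f.1 (sl b))) (by
        rintro _ ⟨b, rfl⟩
        rw [chart_eq H.ne]
        exact D.pp _ b _ (D.meets f) ⟨_, rfl⟩ (by rw [f.2, D.sl_blk])) (by
        intro x hx
        rw [chart_eq H.ne, chart_eq H.ne, ← rg_union, D.range_f0] at hx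
        rw [chart_eq H.ne]
        induction hx using Algebra.adjoin_induction with
        | mem x hx =>
          obtain ⟨v, w, hw | ⟨b, rfl⟩, h, rfl⟩ := hx
          · exact ⟨1, one_mem _, by simpa using div_mem_rg hw h⟩
          · refine ⟨_, Submonoid.subset_closure ⟨b, rfl⟩, ?_⟩
            have : g (st b) / g (f.1 (sl b)) * (g v / g (st b)) = g v / g (f.1 (sl b)) := by
              have := H.ne (st b)
              field_simp
            rw [this]
            exact div_mem_rg ⟨_, rfl⟩ (by rw [h, f.2, D.st_blk, D.sl_blk])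
        | algebraMap r => exact ⟨1, one_mem _, by simp⟩
        | add x y _ _ hx hy =>
          obtain ⟨u, hu, h⟩ := hx
          obtain ⟨u', hu', h'⟩ := hy
          have hA : ∀ u ∈ Submonoid.closure (Set.range fun b => g (st b) / g (f.1 (sl b))),
              u ∈ rg K blk g (Set.range f.1) := by
            intro u hu
            refine (Submonoid.closure_le (S := (rg K blk g (Set.range f.1)).toSubmonoid)).2 ?_ hu
            rintro _ ⟨b, rfl⟩
            exact div_mem_rg ⟨_, rfl⟩ (by rw [f.2, D.st_blk, D.sl_blk])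
          refine ⟨u * u', mul_mem hu hu', ?_⟩
          have : u * u' * (x + y) = u' * (u * x) + u * (u' * y) := by ring
          rw [this]
          exact add_mem (mul_mem (hA _ hu') h) (mul_mem (hA _ hu) h')
        | mul x y _ _ hx hy =>
          obtain ⟨u, hu, h⟩ := hx
          obtain ⟨u', hu', h'⟩ := hy
          refine ⟨u * u', mul_mem hu hu', ?_⟩
          rw [mul_mul_mul_comm]
          exact mul_mem h h') (N f) (by
        rw [hN f D.f0]
        simp only [N, Units.val_mul, su_val]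
        rw [hz, span_mul_span', inv_mul_cancel₀ hz0, span_span' le_sup_right, span_one'])
    obtain ⟨a1, rfl⟩ := Submonoid.mem_closure_range_iff_of_fintype.1 hz1
    obtain ⟨a2, rfl⟩ := Submonoid.mem_closure_range_iff_of_fintype.1 hz2
    refine ⟨fun b => (a1 b : ℤ) - a2 b, ?_⟩
    rw [h, zz_ex H.ne, ← Finset.prod_div_distrib]
    congr 2
    refine Finset.prod_congr rfl fun b _ => ?_
    rw [zpow_sub₀ (div_ne_zero (H.ne _) (H.ne _)), zpow_natCast, zpow_natCast]
  choose n hn using h1
  have h2 : ∀ (f f' : Idx blk β) b, st b ∉ Set.range f.1 → st b ∉ Set.range f'.1 →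
      n f b = n f' b := by
    intro f f' b hf hf'
    have h3 := hN f f'
    rw [hn, hn, span_span' le_sup_left, span_span' le_sup_right] at h3
    have hle : chart K (mon g) f ⊔ chart K (mon g) f' ≤ rg K blk g {st b}ᶜ := by
      rw [chart_eq H.ne, chart_eq H.ne, ← rg_union]
      refine rg_mono ?_
      rintro u (hu | hu) e
      · exact hf (e ▸ hu)
      · exact hf' (e ▸ hu)
    obtain ⟨p, hp1, hp2, hp3⟩ := D.pt b
    have := H.val_zero hp1 hp2 hp3 (a := ex st sl f (n f) - ex st sl f' (n f'))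
      (by rw [map_sub, D.dg_ex, D.dg_ex, sub_zero])
      (by rw [zz_sub H.ne]; exact hle (div_mem_of_span_eq (zz_ne H.ne _) h3))
      (by rw [neg_sub, zz_sub H.ne]; exact hle (div_mem_of_span_eq (zz_ne H.ne _) h3.symm))
    rw [Pi.sub_apply, D.ex_st f _ b hf, D.ex_st f' _ b hf'] at this
    omega
  let m : B → ℤ := fun b => if h : ∃ f : Idx blk β, st b ∉ Set.range f.1 then n h.choose b else 0
  have h4 : eta0 H.ne st sl m = N := by
    ext1 f
    ext1
    rw [hn, eta0, su_val]
    have key : ∀ n1 n2 : B → ℤ, (∀ b, st b ∉ Set.range f.1 → n1 b = n2 b) →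
        zz g (ex st sl f n1) / zz g (ex st sl f n2) ∈ chart K (mon g) f := by
      intro n1 n2 h
      rw [chart_eq H.ne, zz_ex H.ne, zz_ex H.ne, ← Finset.prod_div_distrib]
      refine prod_mem fun b _ => ?_
      rw [← zpow_sub₀ (div_ne_zero (H.ne _) (H.ne _))]
      by_cases hb : st b ∈ Set.range f.1
      · refine zpow_mem_of (div_mem_rg (Set.mem_range_self (sl b))
          (by rw [f.2, D.st_blk, D.sl_blk])) ?_ _
        rw [inv_div]
        exact div_mem_rg hb (by rw [f.2, D.st_blk, D.sl_blk])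
      · rw [h b hb, sub_self, zpow_zero]; exact one_mem _
    have h5 : ∀ b, st b ∉ Set.range f.1 → m b = n f b := by
      intro b hb
      have : ∃ f : Idx blk β, st b ∉ Set.range f.1 := ⟨f, hb⟩
      simp only [m, dif_pos this]
      exact h2 _ _ b this.choose_spec hb
    exact span_eq_of_div (zz_ne H.ne _) (zz_ne H.ne _) (key _ _ h5)
      (key _ _ fun b hb => (h5 b hb).symm)
  refine ⟨m, ?_⟩
  refine Subgroup.subset_closure ⟨z, fun f => ?_⟩
  simp only [h4, Pi.mul_apply, Pi.inv_apply, N]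
  rw [mul_inv_rev, Units.val_mul, Units.val_mul, mul_comm, ← mul_assoc, Units.mul_inv, one_mul]
  refine Units.inv_eq_of_mul_eq_one_right ?_
  rw [su_val, span_mul_span', inv_mul_cancel₀ hz0, span_one']

theorem PD.picRank_eq (D : PD K blk β g Q st sl) (H : HS blk Q dQ g)
    [DecidablePred fun b => ∃ v, blk v = b ∧ v ≠ st b] :
    picRank K (mon g : Idx blk β → L) = Fintype.card {b // ∃ v, blk v = b ∧ v ≠ st b} :=
  quotRank_eq (eta0 H.ne st sl) (eta0_add H.ne) (D.eta0_mem H.ne) _
    (fun _ => D.eta_eq_zero H) (D.eta_surj H)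

end Pool.Agent.Lib.MP_dd9c4c_nt
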