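import Mathlib
import Pool.Agent.Lib.MP_dd9c4c_nt.PicGen

set_option linter.unusedSectionVars false
set_option linter.unusedSimpArgs false
set_option linter.unusedVariables false

namespace Pool.Agent.Lib.MP_dd9c4c_nt

open MvPolynomial

/-- Homogeneous coordinates of `P5 x P1 x P2 x Pk`. -/
abbrev Var (k : ℕ) : Type := (Fin 2 × Fin 3) ⊕ Fin 2 ⊕ Fin 3 ⊕ Fin (k + 1)

/-- Slots of a monomial of degree `(5, 1, 1, k + 1)`. -/
abbrev Slot (k : ℕ) : Type := Fin 5 ⊕ Unit ⊕ Unit ⊕ Fin (k + 1)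

variable {k : ℕ}

/-- Coordinates on `P5`. -/
abbrev vw (a : Fin 2) (i : Fin 3) : Var k := .inl (a, i)
/-- Coordinates on `P1`. -/
abbrev vu (a : Fin 2) : Var k := .inr (.inl a)
/-- Coordinates on `P2`. -/
abbrev vx (i : Fin 3) : Var k := .inr (.inr (.inl i))
/-- Coordinates on `Pk`. -/
abbrev vz (j : Fin (k + 1)) : Var k := .inr (.inr (.inr j))

/-- Block of a variable. -/
def bk : Var k → Fin 4
  | .inl _ => 0
  | .inr (.inl _) => 1
  | .inr (.inr (.inl _)) => 2
  | .inr (.inr (.inr _)) => 3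

/-- Block of a slot. -/
def bs : Slot k → Fin 4
  | .inl _ => 0
  | .inr (.inl _) => 1
  | .inr (.inr (.inl _)) => 2
  | .inr (.inr (.inr _)) => 3

@[simp] lemma bk_w (p) : bk (.inl p : Var k) = 0 := rfl
@[simp] lemma bk_u (a) : bk (vu a : Var k) = 1 := rfl
@[simp] lemma bk_x (a) : bk (vx a : Var k) = 2 := rfl
@[simp] lemma bk_z (a) : bk (vz a : Var k) = 3 := rfl

/-- The equation. -/
def qv {R : Type} [CommRing R] (h : Var k → R) : R :=
  ∑ p : Fin 2 × Fin 3, h (.inl p) * (h (vu p.1) * h (vx p.2) ^ 2)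

lemma qv_eq {R : Type} [CommRing R] (h : Var k → R) : qv h =
    h (vw 0 0) * (h (vu 0) * h (vx 0) ^ 2) + h (vw 0 1) * (h (vu 0) * h (vx 1) ^ 2) +
    h (vw 0 2) * (h (vu 0) * h (vx 2) ^ 2) + (h (vw 1 0) * (h (vu 1) * h (vx 0) ^ 2) +
    h (vw 1 1) * (h (vu 1) * h (vx 1) ^ 2) + h (vw 1 2) * (h (vu 1) * h (vx 2) ^ 2)) := by
  simp [qv, Fintype.sum_prod_type, Fin.sum_univ_succ, add_assoc]

lemma map_qv {R S Φ : Type} [CommRing R] [CommRing S] [FunLike Φ R S] [RingHomClass Φ R S] (φ : Φ)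
    (h : Var k → R) : φ (qv h) = qv fun v => φ (h v) := by
  simp [qv]

variable {K : Type} [Field K]

variable (K k) in
/-- The equation as a polynomial. -/
noncomputable def QQ : MvPolynomial (Var k) K := qv X

lemma aeval_QQ {R : Type} [CommRing R] [Algebra K R] (h : Var k → R) :
    aeval h (QQ k K) = qv h := by
  simp [QQ, map_qv]

/-- A point. -/
def pt {R : Type} (W : Fin 2 → Fin 3 → R) (U : Fin 2 → R) (Y : Fin 3 → R) (Z : Fin (k + 1) → R) :
    Var k → R := Sum.elim (fun p => W p.1 p.2) (Sum.elim U (Sum.elim Y Z))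

@[simp] lemma pt_w {R : Type} (W : Fin 2 → Fin 3 → R) (U Y) (Z : Fin (k + 1) → R) (p) :
    pt W U Y Z (.inl p) = W p.1 p.2 := rfl
@[simp] lemma pt_u {R : Type} (W : Fin 2 → Fin 3 → R) (U Y) (Z : Fin (k + 1) → R) (a) :
    pt W U Y Z (vu a) = U a := rfl
@[simp] lemma pt_x {R : Type} (W : Fin 2 → Fin 3 → R) (U Y) (Z : Fin (k + 1) → R) (a) :
    pt W U Y Z (vx a) = Y a := rfl
@[simp] lemma pt_z {R : Type} (W : Fin 2 → Fin 3 → R) (U Y) (Z : Fin (k + 1) → R) (a) :
    pt W U Y Z (vz a) = Z a := rfl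

lemma var_forall {p : Var k → Prop} : (∀ v, p v) ↔
    (∀ a i, p (vw a i)) ∧ (∀ a, p (vu a)) ∧ (∀ i, p (vx i)) ∧ ∀ j, p (vz j) := by
  simp [Sum.forall, Prod.forall]

/-- A standard chart. -/
structure Ch (k : ℕ) where
  /-- chosen coordinate on `P5` -/
  c0 : Fin 2 × Fin 3
  /-- chosen coordinate on `P1` -/
  a : Fin 2
  /-- chosen coordinate on `P2` -/
  i : Fin 3
  /-- chosen coordinate on `Pk` -/
  j : Fin (k + 1)

namespace Ch

variable (c : Ch k)

/-- The chosen coordinates. -/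
def cv : Fin 4 → Var k := ![.inl c.c0, vu c.a, vx c.i, vz c.j]

@[simp] lemma cv0 : c.cv 0 = .inl c.c0 := rfl
@[simp] lemma cv1 : c.cv 1 = vu c.a := rfl
@[simp] lemma cv2 : c.cv 2 = vx c.i := rfl
@[simp] lemma cv3 : c.cv 3 = vz c.j := rfl

lemma bk_cv (b : Fin 4) : bk (c.cv b) = b := by fin_cases b <;> rfl

/-- The variable one solves for. -/
abbrev w : Var k := vw c.a c.i

/-- Good charts. -/
def Good : Prop := c.c0 ≠ (c.a, c.i)

/-- Free variables. -/
abbrev Free : Type := {v : Var k // v ≠ c.cv (bk v) ∧ v ≠ c.w}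

variable (K) in
/-- Preliminary generic point. -/
noncomputable def g1 (v : Var k) : MvPolynomial c.Free K :=
  if h : v ≠ c.cv (bk v) ∧ v ≠ c.w then X ⟨v, h⟩ else 1

variable (K) in
/-- Generic point of the chart. -/
noncomputable def g0 (v : Var k) : MvPolynomial c.Free K :=
  if v = c.w then -∑ p ∈ Finset.univ.erase (c.a, c.i),
    c.g1 K (.inl p) * (c.g1 K (vu p.1) * c.g1 K (vx p.2) ^ 2) else c.g1 K v

lemma g0_free (v : c.Free) : c.g0 K v.1 = X v := by
  rw [g0, if_neg v.2.2, g1, dif_pos v.2]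

lemma g1_cv (b : Fin 4) : c.g1 K (c.cv b) = 1 := by
  rw [g1, dif_neg]; simp [bk_cv]

variable {c}

lemma Good.cv_ne (hc : c.Good) (b : Fin 4) : c.cv b ≠ c.w := by
  fin_cases b
  · simpa [Good] using hc
  all_goals simp

lemma Good.g0_cv (hc : c.Good) (b : Fin 4) : c.g0 K (c.cv b) = 1 := by
  rw [g0, if_neg (hc.cv_ne b), g1_cv]

lemma qv_g0 : qv (c.g0 K) = 0 := by
  rw [qv, ← Finset.add_sum_erase _ _ (Finset.mem_univ (c.a, c.i))]
  have h1 : c.g0 K (vu c.a) = 1 := by rw [g0, if_neg (by simp)]; exact c.g1_cv 1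
  have h2 : c.g0 K (vx c.i) = 1 := by rw [g0, if_neg (by simp)]; exact c.g1_cv 2
  simp only [h1, h2, one_pow, mul_one]
  rw [g0, if_pos rfl, neg_add_eq_zero]
  refine Finset.sum_congr rfl fun p hp => ?_
  have : (Sum.inl p : Var k) ≠ c.w := by simpa using Finset.ne_of_mem_erase hp
  simp [g0, this]

lemma recon1 {R : Type} [CommRing R] [Algebra K R] {h : Var k → R} (hq : qv h = 0)
    (h1 : ∀ b, h (c.cv b) = 1) (v : Var k) :
    aeval (fun v : c.Free => h v.1) (c.g0 K v) = h v := by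
  have key : ∀ v, v ≠ c.w → aeval (fun v : c.Free => h v.1) (c.g1 K v) = h v := by
    intro v hv
    rw [g1]
    split_ifs with hf
    · simp
    · have : v = c.cv (bk v) := by tauto
      rw [map_one, this, h1]
  rw [g0]
  split_ifs with hv
  · rw [qv, ← Finset.add_sum_erase _ _ (Finset.mem_univ (c.a, c.i))] at hq
    have e1 := h1 1
    have e2 := h1 2
    simp only [cv1, cv2] at e1 e2
    simp only [e1, e2, one_pow, mul_one] at hq
    rw [hv, map_neg, map_sum, neg_eq_iff_add_eq_zero, add_comm, ← hq]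
    congr 1
    refine Finset.sum_congr rfl fun p hp => ?_
    have : (Sum.inl p : Var k) ≠ c.w := by simpa using Finset.ne_of_mem_erase hp
    rw [map_mul, map_mul, map_pow, key _ this, key _ (by simp), key _ (by simp)]
  · exact key v hv

lemma qv_div {R : Type} [Field R] (h : Var k → R) (lam : Fin 4 → R) :
    qv (fun v => h v / lam (bk v)) = qv h / (lam 0 * (lam 1 * lam 2 ^ 2)) := by
  simp only [qv, Finset.sum_div, bk_w, bk_u, bk_x]
  exact Finset.sum_congr rfl fun p _ => by ring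

lemma recon {R : Type} [Field R] [Algebra K R] {h : Var k → R} (hq : qv h = 0)
    (h1 : ∀ b, h (c.cv b) ≠ 0) (v : Var k) :
    aeval (fun v : c.Free => h v.1 / h (c.cv (bk v.1))) (c.g0 K v) = h v / h (c.cv (bk v)) :=
  recon1 (h := fun v => h v / h (c.cv (bk v)))
    (by rw [qv_div h (fun b => h (c.cv b)), hq, zero_div])
    (fun b => by simp only [bk_cv]; exact div_self (h1 b)) v

end Ch

section primes

lemma nv_add {i : Var k} {p q : MvPolynomial (Var k) K} (hp : i ∉ p.vars) (hq : i ∉ q.vars) :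
    i ∉ (p + q).vars := fun h => by
  rcases Finset.mem_union.1 (vars_add_subset p q h) with h | h <;> contradiction

lemma nv_mul {i : Var k} {p q : MvPolynomial (Var k) K} (hp : i ∉ p.vars) (hq : i ∉ q.vars) :
    i ∉ (p * q).vars := fun h => by
  rcases Finset.mem_union.1 (vars_mul p q h) with h | h <;> contradiction

lemma nv_pow {i : Var k} {p : MvPolynomial (Var k) K} (n : ℕ) (hp : i ∉ p.vars) :
    i ∉ (p ^ n).vars := fun h => hp (vars_pow p n h)

lemma nv_X {i j : Var k} (h : i ≠ j) : i ∉ (X j : MvPolynomial (Var k) K).vars := by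
  simpa using h

lemma relPrime_X {v : Var k} {g : MvPolynomial (Var k) K} (h : Var k → K) (hv : h v = 0)
    (hg : aeval h g ≠ 0) : IsRelPrime (X v) g := by
  rw [(X_prime (i := v)).irreducible.isRelPrime_iff_not_dvd]
  rintro ⟨r, rfl⟩
  simp [hv] at hg

lemma not_dvd_X {g : MvPolynomial (Var k) K} (h : Var k → K) (hv : ∀ v, h v ≠ 0)
    (hg : aeval h g = 0) (v : Var k) : ¬ g ∣ X v := by
  rintro ⟨r, hr⟩
  have := congrArg (aeval h) hr
  rw [map_mul, hg, zero_mul, aeval_X] at this
  exact hv v this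

lemma prime_QQ : Prime (QQ k K) := by
  have : QQ k K = (X (vu 0) * X (vx 0) ^ 2) * X (vw 0 0) + (X (vw 0 1) * (X (vu 0) * X (vx 1) ^ 2) +
    X (vw 0 2) * (X (vu 0) * X (vx 2) ^ 2) + (X (vw 1 0) * (X (vu 1) * X (vx 0) ^ 2) +
    X (vw 1 1) * (X (vu 1) * X (vx 1) ^ 2) + X (vw 1 2) * (X (vu 1) * X (vx 2) ^ 2))) := by
    rw [QQ, qv_eq]; ring
  rw [this]
  refine (irreducible_mul_X_add _ _ _ (by simp) ?_ ?_ ?_).prime
  · repeat' first
      | with_reducible apply nv_add | with_reducible apply nv_mul | with_reducible apply nv_pow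
      | exact nv_X (by simp)
  · repeat' first
      | with_reducible apply nv_add | with_reducible apply nv_mul | with_reducible apply nv_pow
      | exact nv_X (by simp)
  · refine IsRelPrime.mul_left ?_ (IsRelPrime.pow_left ?_)
    · exact relPrime_X (pt ![![0, 0, 0], ![0, 1, 0]] ![0, 1] ![0, 1, 0] 0) rfl (by simp)
    · exact relPrime_X (pt ![![0, 0, 0], ![0, 1, 0]] ![0, 1] ![0, 1, 0] 0) rfl (by simp)

variable (K k) in
/-- The equation on `t1 = 0`. -/
noncomputable def Q0 : MvPolynomial (Var k) K :=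
  (X (vu 0) * X (vx 0) ^ 2) * X (vw 0 0) + (X (vw 0 1) * (X (vu 0) * X (vx 1) ^ 2) +
    X (vw 0 2) * (X (vu 0) * X (vx 2) ^ 2) + (X (vw 1 0) * (X (vu 1) * X (vx 0) ^ 2) +
    X (vw 1 2) * (X (vu 1) * X (vx 2) ^ 2)))

lemma prime_Q0 : Prime (Q0 k K) := by
  refine (irreducible_mul_X_add _ _ _ (by simp) ?_ ?_ ?_).prime
  · repeat' first
      | with_reducible apply nv_add | with_reducible apply nv_mul | with_reducible apply nv_pow
      | exact nv_X (by simp)
  · repeat' first
      | with_reducible apply nv_add | with_reducible apply nv_mul | with_reducible apply nv_pow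
      | exact nv_X (by simp)
  · refine IsRelPrime.mul_left ?_ (IsRelPrime.pow_left ?_)
    · exact relPrime_X (pt ![![0, 0, 0], ![0, 0, 1]] ![0, 1] ![0, 0, 1] 0) rfl (by simp)
    · exact relPrime_X (pt ![![0, 0, 0], ![0, 0, 1]] ![0, 1] ![0, 0, 1] 0) rfl (by simp)

variable (K k) in
/-- The equation on `u = 0`. -/
noncomputable def Q1 : MvPolynomial (Var k) K :=
  X (vx 0) ^ 2 * X (vw 1 0) + (X (vw 1 1) * X (vx 1) ^ 2 + X (vw 1 2) * X (vx 2) ^ 2)

lemma prime_Q1 : Prime (Q1 k K) := by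
  refine (irreducible_mul_X_add _ _ _ (by simp) ?_ ?_ ?_).prime
  · repeat' first
      | with_reducible apply nv_add | with_reducible apply nv_mul | with_reducible apply nv_pow
      | exact nv_X (by simp)
  · repeat' first
      | with_reducible apply nv_add | with_reducible apply nv_mul | with_reducible apply nv_pow
      | exact nv_X (by simp)
  · refine IsRelPrime.pow_left ?_
    exact relPrime_X (pt ![![0, 0, 0], ![0, 0, 1]] ![0, 1] ![0, 0, 1] 0) rfl (by simp)

variable (K k) in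
/-- The equation on `x0 = 0`. -/
noncomputable def Q2 : MvPolynomial (Var k) K :=
  (X (vu 0) * X (vx 1) ^ 2) * X (vw 0 1) + (X (vw 0 2) * (X (vu 0) * X (vx 2) ^ 2) +
    (X (vw 1 1) * (X (vu 1) * X (vx 1) ^ 2) + X (vw 1 2) * (X (vu 1) * X (vx 2) ^ 2)))

lemma prime_Q2 : Prime (Q2 k K) := by
  refine (irreducible_mul_X_add _ _ _ (by simp) ?_ ?_ ?_).prime
  · repeat' first
      | with_reducible apply nv_add | with_reducible apply nv_mul | with_reducible apply nv_pow
      | exact nv_X (by simp)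
  · repeat' first
      | with_reducible apply nv_add | with_reducible apply nv_mul | with_reducible apply nv_pow
      | exact nv_X (by simp)
  · refine IsRelPrime.mul_left ?_ (IsRelPrime.pow_left ?_)
    · exact relPrime_X (pt ![![0, 0, 0], ![0, 0, 1]] ![0, 1] ![0, 0, 1] 0) rfl (by simp)
    · exact relPrime_X (pt ![![0, 0, 0], ![0, 0, 1]] ![0, 1] ![0, 0, 1] 0) rfl (by simp)

end primes

/-- The base chart. -/
def cs (k : ℕ) : Ch k := ⟨(1, 1), 0, 0, 0⟩

lemma cs_good : (cs k).Good := by simp [Ch.Good, cs]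

variable (K k) in
/-- The function field. -/
def LL : Type := FractionRing (MvPolynomial (cs k).Free K)

noncomputable instance : Field (LL k K) :=
  inferInstanceAs (Field (FractionRing (MvPolynomial (cs k).Free K)))

noncomputable instance : Algebra (MvPolynomial (cs k).Free K) (LL k K) :=
  inferInstanceAs (Algebra _ (FractionRing (MvPolynomial (cs k).Free K)))

instance : IsFractionRing (MvPolynomial (cs k).Free K) (LL k K) :=
  inferInstanceAs (IsFractionRing _ (FractionRing (MvPolynomial (cs k).Free K)))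

noncomputable instance : Algebra K (LL k K) :=
  ((algebraMap (MvPolynomial (cs k).Free K) (LL k K)).comp C).toAlgebra

instance : IsScalarTower K (MvPolynomial (cs k).Free K) (LL k K) :=
  .of_algebraMap_eq fun _ => rfl

variable (K k) in
/-- The generic point. -/
noncomputable def gg (v : Var k) : LL k K :=
  algebraMap (MvPolynomial (cs k).Free K) _ ((cs k).g0 K v)

lemma aeval_gg (P : MvPolynomial (Var k) K) : aeval (gg k K) P =
    algebraMap (MvPolynomial (cs k).Free K) (LL k K) (aeval ((cs k).g0 K) P) := by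
  rw [← aeval_algebraMap_apply]; rfl

lemma gg_cv (b : Fin 4) : gg k K ((cs k).cv b) = 1 := by
  rw [gg, cs_good.g0_cv, map_one]

lemma qv_gg : qv (gg k K) = 0 := by
  have := map_qv (algebraMap (MvPolynomial (cs k).Free K) (LL k K)) ((cs k).g0 K)
  rw [Ch.qv_g0, map_zero] at this
  exact this.symm

lemma spec_gg {R : Type} [CommRing R] [Algebra K R] {h : Var k → R} (hq : qv h = 0)
    (h1 : ∀ b, h ((cs k).cv b) = 1) {P : MvPolynomial (Var k) K} (hP : aeval (gg k K) P = 0) :
    aeval h P = 0 := by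
  rw [aeval_gg, map_eq_zero_iff _ (IsFractionRing.injective _ _)] at hP
  have := congrArg (aeval (fun v : (cs k).Free => h v.1)) hP
  rw [map_zero, ← AlgHom.comp_apply, comp_aeval] at this
  simpa only [Ch.recon1 hq h1] using this

/-- A point with nonzero coordinates. -/
def pall (R : Type) [CommRing R] : Var k → R := pt ![![-1, -1, -1], ![1, 1, 1]] 1 1 1

lemma pall_ne (v : Var k) : pall K v ≠ 0 := by
  revert v
  simp [var_forall, pall, Fin.forall_fin_succ]

lemma qv_pall : qv (pall K : Var k → K) = 0 := by simp [qv_eq, pall]; ring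

lemma gg_ne (v : Var k) : gg k K v ≠ 0 := fun h =>
  pall_ne v (by
    simpa using spec_gg (P := X v) (qv_pall (K := K)) (fun b => by fin_cases b <;> simp [pall, cs])
      (by simpa using h))

lemma ev_scale {V B : Type} [Fintype V] [DecidableEq V] [Fintype B] [DecidableEq B] {blk : V → B}
    {R : Type} [Field R] [Algebra K R] (h : V → R) (lam : B → R) (hl : ∀ b, lam b ≠ 0)
    {T : Set V} {d : B → ℤ} {f : AddMonoidAlgebra K (V → ℤ)} (hf : f ∈ Sup K (Ex blk T d)) :
    ev (fun v => h v / lam (blk v)) f = ev h f / ∏ b, lam b ^ d b := by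
  induction hf using Submodule.span_induction with
  | mem x hx =>
    obtain ⟨a, ⟨-, ha⟩, rfl⟩ := hx
    simp only [ev_mono, div_zpow, Finset.prod_div_distrib]
    rw [prod_zpow_dg lam hl, ha]
  | zero => simp
  | add x y _ _ hx hy => rw [map_add, map_add, hx, hy, add_div]
  | smul c x _ hx => rw [map_smul, map_smul, hx, smul_div_assoc]

/-- Degree of the equation. -/
def dQQ : Fin 4 → ℤ := ![1, 1, 2, 0]

lemma X_mem (v : Var k) : mono K (Pi.single v 1 : Var k → ℤ) ∈
    Sup K (Ex bk ∅ (Pi.single (bk v) 1)) := by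
  refine mono_mem ⟨fun u _ => ?_, dg_single _ _ _⟩
  simp only [Pi.single_apply]; split_ifs <;> simp

theorem hs : HS bk (QQ k K) dQQ (gg k K) where
  ne := gg_ne
  hom := by
    rw [QQ, map_qv, qv]
    refine Submodule.sum_mem _ fun p _ => ?_
    simp only [toL_X, sq]
    have := Ex_mul (X_mem (K := K) (k := k) (.inl p)) (Ex_mul (X_mem (vu p.1))
      (Ex_mul (X_mem (vx p.2)) (X_mem (vx p.2))))
    have e : (Pi.single (bk (.inl p : Var k)) 1 + (Pi.single (bk (vu p.1 : Var k)) 1 +
      (Pi.single (bk (vx p.2 : Var k)) 1 + Pi.single (bk (vx p.2 : Var k)) 1)) : Fin 4 → ℤ) =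
        dQQ := by
      ext b; fin_cases b <;> simp [dQQ]
    rwa [e] at this
  zero := by rw [aeval_QQ, qv_gg]
  Qne := prime_QQ.ne_zero
  ker := by
    intro P d hP h0
    have hp : (Ideal.span {QQ k K}).IsPrime :=
      (Ideal.span_singleton_prime prime_QQ.ne_zero).2 prime_QQ
    let R0 := MvPolynomial (Var k) K ⧸ Ideal.span {QQ k K}
    let R := FractionRing R0
    let φ : MvPolynomial (Var k) K →ₐ[K] R :=
      (IsScalarTower.toAlgHom K R0 R).comp (Ideal.Quotient.mkₐ K _)
    have hφ : ∀ P, φ P = 0 ↔ QQ k K ∣ P := fun P => by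
      change algebraMap R0 R (Ideal.Quotient.mk _ P) = 0 ↔ _
      rw [map_eq_zero_iff _ (IsFractionRing.injective _ _), Ideal.Quotient.eq_zero_iff_mem,
        Ideal.mem_span_singleton]
    let h : Var k → R := fun v => φ (X v)
    have hh : ∀ P, aeval h P = φ P := fun P => by
      have : aeval h = φ := by ext v; simp [h]
      rw [this]
    have hne : ∀ v, h v ≠ 0 := fun v e =>
      not_dvd_X (pall K) pall_ne (by rw [aeval_QQ, qv_pall]) v ((hφ _).1 e)
    have hq : qv h = 0 := by rw [← aeval_QQ (K := K), hh, hφ]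
    have h1 := spec_gg (h := fun v => h v / h ((cs k).cv (bk v)))
      (by rw [Ch.qv_div h (fun b => h ((cs k).cv b)), hq, zero_div])
      (fun b => by simp only [Ch.bk_cv]; exact div_self (hne _)) h0
    rw [← ev_toL, ev_scale h (fun b => h ((cs k).cv b)) (fun b => hne _) hP, ev_toL, hh,
      div_eq_zero_iff] at h1
    refine (hφ _).1 (h1.resolve_right ?_)
    exact Finset.prod_ne_zero_iff.2 fun b _ => zpow_ne_zero _ (hne _)

end Pool.Agent.Lib.MP_dd9c4c_nt
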