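import Mathlib
import Pool.Agent.Lib.MP_dd9c4c_nt.Concrete

set_option linter.unusedSectionVars false
set_option linter.unusedSimpArgs false
set_option linter.unusedVariables false
set_option linter.style.haveILetI false

namespace Pool.Agent.Lib.MP_dd9c4c_nt

open MvPolynomial
open scoped TensorProduct

section generic

variable {K L : Type} [Field K] [Field L] [Algebra K L]

lemma adjoin_den {A : Subalgebra K L} {r : L} (hr : r ∈ A) {s : Set L}
    (hs : ∀ x ∈ s, ∃ n : ℕ, r ^ n * x ∈ A) {x : L} (hx : x ∈ Algebra.adjoin K s) :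
    ∃ n : ℕ, r ^ n * x ∈ A := by
  induction hx using Algebra.adjoin_induction with
  | mem x hx => exact hs x hx
  | algebraMap c => exact ⟨0, by simp⟩
  | add x y _ _ hx hy =>
    obtain ⟨n, hn⟩ := hx
    obtain ⟨m, hm⟩ := hy
    refine ⟨n + m, ?_⟩
    have : r ^ (n + m) * (x + y) = r ^ m * (r ^ n * x) + r ^ n * (r ^ m * y) := by ring
    rw [this]
    exact add_mem (mul_mem (pow_mem hr _) hn) (mul_mem (pow_mem hr _) hm)
  | mul x y _ _ hx hy =>
    obtain ⟨n, hn⟩ := hx
    obtain ⟨m, hm⟩ := hy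
    refine ⟨n + m, ?_⟩
    rw [pow_add, mul_mul_mul_comm]
    exact mul_mem hn hm

lemma isLoc_away {A A' : Subalgebra K L} (h : A ≤ A') (r : A) (hr0 : (r : L) ≠ 0)
    (hr : (r : L)⁻¹ ∈ A') (hA : ∀ x ∈ A', ∃ n : ℕ, (r : L) ^ n * x ∈ A) :
    letI := (Subalgebra.inclusion h).toAlgebra
    IsLocalization.Away r A' := by
  letI := (Subalgebra.inclusion h).toAlgebra
  refine IsLocalization.Away.mk r ?_ ?_ ?_
  · exact IsUnit.of_mul_eq_one ⟨_, hr⟩ (Subtype.ext (mul_inv_cancel₀ hr0))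
  · intro x
    obtain ⟨n, hn⟩ := hA x x.2
    exact ⟨n, ⟨_, hn⟩, Subtype.ext (mul_comm _ _)⟩
  · intro a b hab
    exact ⟨0, by rw [Subalgebra.inclusion_injective h hab]⟩

lemma smooth_of_loc {A A' : Subalgebra K L} (h : A ≤ A') (r : A) (hr0 : (r : L) ≠ 0)
    (hr : (r : L)⁻¹ ∈ A') (hA : ∀ x ∈ A', ∃ n : ℕ, (r : L) ^ n * x ∈ A) [Algebra.Smooth K A] :
    Algebra.Smooth K A' := by
  letI := (Subalgebra.inclusion h).toAlgebra
  have := isLoc_away h r hr0 hr hA
  have : Algebra.Smooth A A' := Algebra.Smooth.of_isLocalization_Away r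
  have : IsScalarTower K A A' := .of_algebraMap_eq fun _ => rfl
  exact Algebra.Smooth.comp K A A'

lemma smooth_of_cover {A : Subalgebra K L} (s : Set A) (hs : Ideal.span s = ⊤)
    (H : ∀ r ∈ s, ∃ A' : Subalgebra K L, A ≤ A' ∧ (r : L) ≠ 0 ∧ (r : L)⁻¹ ∈ A' ∧
      (∀ x ∈ A', ∃ n : ℕ, (r : L) ^ n * x ∈ A) ∧ Algebra.Smooth K A') : Algebra.Smooth K A := by
  rw [← RingHom.smooth_algebraMap]
  refine RingHom.Smooth.ofLocalizationSpanTarget _ s hs fun r => ?_
  obtain ⟨A', h, hr0, hr, hA, hS⟩ := H r r.2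
  letI := (Subalgebra.inclusion h).toAlgebra
  have := isLoc_away h r hr0 hr hA
  have : IsScalarTower K A A' := .of_algebraMap_eq fun _ => rfl
  rw [← IsScalarTower.algebraMap_eq, RingHom.smooth_algebraMap]
  exact Algebra.Smooth.of_equiv
    ((IsLocalization.algEquiv (Submonoid.powers (r : A)) A' (Localization.Away (r : A))).restrictScalars K)

lemma geom_frac (σ : Type) (E B : Type) [Field E] [Algebra K E] [Field B] [Algebra K B]
    [Algebra (MvPolynomial σ K) B] [IsScalarTower K (MvPolynomial σ K) B]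
    [IsFractionRing (MvPolynomial σ K) B] : IsDomain (E ⊗[K] B) := by
  let A := MvPolynomial σ K
  letI : Algebra (E ⊗[K] A) (E ⊗[K] B) :=
    (Algebra.TensorProduct.map (AlgHom.id E E) (IsScalarTower.toAlgHom K A B)).toAlgebra
  have : IsScalarTower E (E ⊗[K] A) (E ⊗[K] B) :=
    IsScalarTower.of_algebraMap_eq (R := E) (S := E ⊗[K] A) (A := E ⊗[K] B) fun _ => by
      simp [RingHom.algebraMap_toAlgebra]
  have hloc := IsLocalization.tensorProduct_tensorProduct_right K E (nonZeroDivisors A) B (by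
    ext <;> simp [RingHom.algebraMap_toAlgebra])
  have : IsDomain (E ⊗[K] A) := (algebraTensorAlgEquiv K E (σ := σ)).toMulEquiv.isDomain
  refine IsLocalization.isDomain_of_le_nonZeroDivisors _ (M := (nonZeroDivisors A).map
    (Algebra.TensorProduct.includeRight (R := K) (A := E))) ?_
  rintro _ ⟨a, ha, rfl⟩
  refine mem_nonZeroDivisors_of_ne_zero ?_
  rw [map_ne_zero_iff _ (Algebra.TensorProduct.includeRight_injective (algebraMap K E).injective)]
  exact nonZeroDivisors.ne_zero ha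

variable {V B : Type} [Fintype V] [DecidableEq V] [DecidableEq B] {blk : V → B} {g : V → L}

lemma rg_insert (hg : ∀ v, g v ≠ 0) {T : Set V} {v c : V} (hc : c ∈ T) (h : blk v = blk c) :
    (g v / g c)⁻¹ ∈ rg K blk g (insert v T) ∧
      ∀ x ∈ rg K blk g (insert v T), ∃ n : ℕ, (g v / g c) ^ n * x ∈ rg K blk g T := by
  refine ⟨by rw [inv_div]; exact div_mem_rg (Set.mem_insert _ _) h.symm, fun x hx => ?_⟩
  refine adjoin_den (div_mem_rg hc h) ?_ hx
  rintro _ ⟨u, w, rfl | hw, h1, rfl⟩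
  · refine ⟨1, ?_⟩
    have : (g w / g c) ^ 1 * (g u / g w) = g u / g c := by
      have := hg w
      field_simp
    rw [this]
    exact div_mem_rg hc (h1.trans h)
  · exact ⟨0, by simpa using div_mem_rg hw h1⟩

end generic

variable {k : ℕ} {K : Type} [Field K]

namespace Ch

variable (c : Ch k)

variable (K) in
/-- Affine coordinates. -/
noncomputable def yy (v : Var k) : LL k K := gg k K v / gg k K (c.cv (bk v))

variable (K) in
/-- The chart map. -/
noncomputable def phi : MvPolynomial c.Free K →ₐ[K] LL k K := aeval fun v => c.yy K v.1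

lemma phi_g0 (v : Var k) : c.phi K (c.g0 K v) = c.yy K v := recon qv_gg (fun _ => gg_ne _) v

lemma yy_mem (v : Var k) : c.yy K v ∈ rg K bk (gg k K) (Set.range c.cv) :=
  div_mem_rg ⟨_, rfl⟩ (c.bk_cv _).symm

lemma range_phi : (c.phi K).range = rg K bk (gg k K) (Set.range c.cv) := by
  apply le_antisymm
  · rw [phi, ← Algebra.adjoin_range_eq_range_aeval]
    refine Algebra.adjoin_le ?_
    rintro _ ⟨v, rfl⟩
    exact c.yy_mem v.1
  · refine Algebra.adjoin_le ?_
    rintro _ ⟨v, _, ⟨b, rfl⟩, h, rfl⟩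
    rw [c.bk_cv] at h
    subst h
    exact ⟨_, c.phi_g0 v⟩

variable {c}

lemma Good.phi_inj (hc : c.Good) : Function.Injective (c.phi K) := by
  rw [injective_iff_map_eq_zero]
  let R := FractionRing (MvPolynomial c.Free K)
  let h : Var k → R := fun v => algebraMap (MvPolynomial c.Free K) R (c.g0 K v)
  have h1 : ∀ b, h (c.cv b) = 1 := fun b => by simp [h, hc.g0_cv]
  have hT : ∀ v ∈ Set.range c.cv, h v ≠ 0 := by
    rintro _ ⟨b, rfl⟩; rw [h1]; exact one_ne_zero
  have key : ∀ F : MvPolynomial c.Free K, ∃ f ∈ Sup K (Ex bk (Set.range c.cv) 0),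
      ev (gg k K) f = c.phi K F ∧ ev h f = algebraMap _ R F := by
    intro F
    induction F using MvPolynomial.induction_on with
    | C r =>
      refine ⟨r • mono K 0, Submodule.smul_mem _ _ (mono_mem ⟨fun _ _ => le_rfl, map_zero _⟩), ?_⟩
      rw [map_smul, map_smul, mono_zero, ev_one, ev_one, ← Algebra.algebraMap_eq_smul_one,
        ← Algebra.algebraMap_eq_smul_one]
      exact ⟨by simp [phi], rfl⟩
    | add p q hp hq =>
      obtain ⟨f, hf, e1, e2⟩ := hp
      obtain ⟨f', hf', e1', e2'⟩ := hq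
      exact ⟨f + f', add_mem hf hf', by rw [map_add, map_add, e1, e1'],
        by rw [map_add, map_add, e2, e2']⟩
    | mul_X p v hp =>
      obtain ⟨f, hf, e1, e2⟩ := hp
      have hr := mono_mem (K := K) (ratio_mem (blk := bk) (T := Set.range c.cv) (v := v.1)
        ⟨bk v.1, rfl⟩ (c.bk_cv _).symm)
      refine ⟨f * _, by simpa using Ex_mul hf hr, ?_, ?_⟩
      · rw [ev_mul' gg_ne, ev_ratio (gg_ne _), e1, map_mul]
        simp [phi, yy]
      · rw [ev_mul hT (Ex_cone hf) (Ex_cone hr), ev_ratio (hT _ ⟨_, rfl⟩), e2, map_mul, h1]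
        simp [h, g0_free]
  intro F hF
  obtain ⟨f, hf, e1, e2⟩ := key F
  have := hs.transfer hf (e1.trans hF) hT (by
    rw [aeval_QQ, ← map_qv, qv_g0, map_zero])
  rwa [e2, map_eq_zero_iff _ (IsFractionRing.injective _ _)] at this

lemma Good.smooth (hc : c.Good) : Algebra.Smooth K (rg K bk (gg k K) (Set.range c.cv)) := by
  have : Algebra.Smooth K (MvPolynomial c.Free K) := ⟨inferInstance, inferInstance⟩
  exact Algebra.Smooth.of_equiv ((AlgEquiv.ofInjective _ hc.phi_inj).trans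
    (Subalgebra.equivOfEq _ _ c.range_phi))

end Ch

/-- Induction from a good chart to a bigger set of invertible variables. -/
lemma good_induction {p : Set (Var k) → Prop} {c : Ch k} (h0 : p (Set.range c.cv))
    (h1 : ∀ T v, Set.range c.cv ⊆ T → p T → p (insert v T)) {T : Set (Var k)}
    (hT : Set.range c.cv ⊆ T) : p T := by
  have key : ∀ S : Finset (Var k), p (Set.range c.cv ∪ S) := by
    intro S
    induction S using Finset.induction_on with
    | empty => simpa using h0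
    | insert v S _ ih =>
      rw [Finset.coe_insert, Set.union_insert]
      exact h1 _ v Set.subset_union_left ih
  have := key T.toFinite.toFinset
  rwa [Set.Finite.coe_toFinset, Set.union_eq_self_of_subset_left hT] at this

lemma smooth_good {c : Ch k} (hc : c.Good) {T : Set (Var k)} (hT : Set.range c.cv ⊆ T) :
    Algebra.Smooth K (rg K bk (gg k K) T) := by
  refine good_induction (p := fun T => Algebra.Smooth K (rg K bk (gg k K) T)) hc.smooth ?_ hT
  intro T v hT h
  have h1 := rg_insert (K := K) (blk := bk) (g := gg k K) gg_ne (hT ⟨bk v, rfl⟩) (v := v) (c.bk_cv _).symm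
  exact smooth_of_loc (rg_mono (Set.subset_insert v T))
    ⟨_, div_mem_rg (hT ⟨bk v, rfl⟩) (c.bk_cv _).symm⟩ (div_ne_zero (gg_ne _) (gg_ne _)) h1.1 h1.2

lemma cover {T : Set (Var k)} (hT : ∀ b, ∃ v ∈ T, bk v = b) :
    Ideal.span {r : rg K bk (gg k K) T | ∃ v c, c ∈ T ∧ bk v = bk c ∧
      (r : LL k K) = gg k K v / gg k K c ∧
      ∃ c' : Ch k, c'.Good ∧ Set.range c'.cv ⊆ insert v T} = ⊤ := by
  obtain ⟨c, hc⟩ : ∃ c : Ch k, Set.range c.cv ⊆ T := by
    obtain ⟨v0, h0, e0⟩ := hT 0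
    obtain ⟨v1, h1, e1⟩ := hT 1
    obtain ⟨v2, h2, e2⟩ := hT 2
    obtain ⟨v3, h3, e3⟩ := hT 3
    rcases v0 with p | _ | _ | _ <;> simp [bk] at e0
    rcases v1 with _ | a | _ | _ <;> simp [bk] at e1
    rcases v2 with _ | _ | i | _ <;> simp [bk] at e2
    rcases v3 with _ | _ | _ | j <;> simp [bk] at e3
    refine ⟨⟨p, a, i, j⟩, ?_⟩
    rintro _ ⟨b, rfl⟩
    fin_cases b <;> assumption
  rw [Ideal.eq_top_iff_one]
  by_cases hg : c.Good
  · refine Ideal.subset_span ⟨c.cv 0, c.cv 0, hc ⟨_, rfl⟩, rfl, ?_, c, hg,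
      hc.trans (Set.subset_insert _ _)⟩
    rw [div_self (gg_ne _)]; rfl
  · have hg' : c.c0 = (c.a, c.i) := by simpa [Ch.Good] using hg
    let y : Var k → rg K bk (gg k K) T := fun v => ⟨c.yy K v, rg_mono hc (c.yy_mem v)⟩
    have hy : qv y = 0 := by
      apply Subtype.ext
      have := map_qv (rg K bk (gg k K) T).val y
      rw [Subalgebra.coe_val] at this
      rw [this]
      exact (Ch.qv_div (gg k K) (fun b => gg k K (c.cv b))).trans (by rw [qv_gg, zero_div]; rfl)
    have h1 : ∀ b, y (c.cv b) = 1 := fun b => Subtype.ext (by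
      simp only [y, Ch.yy, Ch.bk_cv]; exact div_self (gg_ne _))
    have e0 := h1 0
    have e1 := h1 1
    have e2 := h1 2
    simp only [Ch.cv0, Ch.cv1, Ch.cv2, hg'] at e0 e1 e2
    rw [qv, ← Finset.add_sum_erase _ _ (Finset.mem_univ (c.a, c.i))] at hy
    simp only [e0, e1, e2, one_pow, mul_one] at hy
    rw [eq_neg_of_add_eq_zero_left hy]
    refine neg_mem (Ideal.sum_mem _ fun p hp => Ideal.mul_mem_left _ _ ?_)
    have hp' := Finset.ne_of_mem_erase hp
    by_cases ha : p.1 = c.a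
    · have hi : p.2 ≠ c.i := fun e => hp' (Prod.ext ha e)
      refine Ideal.mul_mem_left _ _ (Ideal.pow_mem_of_mem _ (Ideal.subset_span ?_) 2 two_pos)
      refine ⟨vx p.2, c.cv 2, hc ⟨_, rfl⟩, rfl, rfl, ⟨c.c0, c.a, p.2, c.j⟩, ?_, ?_⟩
      · simp [Ch.Good, hg', hi.symm]
      · rintro _ ⟨b, rfl⟩
        fin_cases b
        · exact Or.inr (hc ⟨0, rfl⟩)
        · exact Or.inr (hc ⟨1, rfl⟩)
        · exact Or.inl rfl
        · exact Or.inr (hc ⟨3, rfl⟩)
    · refine Ideal.mul_mem_right _ _ (Ideal.subset_span ?_)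
      refine ⟨vu p.1, c.cv 1, hc ⟨_, rfl⟩, rfl, rfl, ⟨c.c0, p.1, c.i, c.j⟩, ?_, ?_⟩
      · simp [Ch.Good, hg', Ne.symm ha]
      · rintro _ ⟨b, rfl⟩
        fin_cases b
        · exact Or.inr (hc ⟨0, rfl⟩)
        · exact Or.inl rfl
        · exact Or.inr (hc ⟨2, rfl⟩)
        · exact Or.inr (hc ⟨3, rfl⟩)

theorem smooth_rg {T : Set (Var k)} (hT : ∀ b, ∃ v ∈ T, bk v = b) :
    Algebra.Smooth K (rg K bk (gg k K) T) := by
  refine smooth_of_cover _ (cover hT) ?_
  rintro r ⟨v, c, hc, h, hr, c', hc', hs⟩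
  have h1 := rg_insert (K := K) (blk := bk) (g := gg k K) gg_ne hc h
  rw [hr]
  exact ⟨_, rg_mono (Set.subset_insert v T), div_ne_zero (gg_ne _) (gg_ne _), h1.1, h1.2,
    smooth_good hc' hs⟩

lemma phi_cs (F : MvPolynomial (cs k).Free K) : (cs k).phi K F = algebraMap _ _ F := by
  have : (cs k).phi K = IsScalarTower.toAlgHom K _ _ := by
    ext v
    simp [Ch.phi, Ch.yy, gg_cv]
    rw [gg, Ch.g0_free]
  rw [this]; rfl

lemma mem_base {x : LL k K} : x ∈ rg K bk (gg k K) (Set.range (cs k).cv) ↔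
    ∃ F : MvPolynomial (cs k).Free K, algebraMap _ _ F = x := by
  rw [← Ch.range_phi]
  simp only [AlgHom.mem_range, phi_cs]

/-- Chosen slots. -/
def slv (k : ℕ) : Fin 4 → Slot k := ![.inl 0, .inr (.inl ()), .inr (.inr (.inl ())),
  .inr (.inr (.inr 0))]

lemma bs_slv (b : Fin 4) : bs (slv k b) = b := by fin_cases b <;> rfl

lemma PP_unit {L : Type} [Field L] [Algebra K L] {A : Subalgebra K L} {p : L} (h : p ∈ A)
    (h0 : p ≠ 0) (h' : p⁻¹ ∈ A) : PP A p :=
  ⟨h, h0, fun x hx _ _ _ _ _ => Or.inl ⟨_, mul_mem h' hx, by rw [mul_inv_cancel_left₀ h0]⟩⟩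

theorem pd (h2 : (2 : K) ≠ 0) : PD K bk bs (gg k K) (QQ k K) (cs k).cv (slv k) where
  st_blk := (cs k).bk_cv
  sl_blk := bs_slv
  pp := by
    intro T b c hT hc hb
    have hb' : bk ((cs k).cv b) = bk c := by rw [hb, Ch.bk_cv]
    by_cases hs' : (cs k).cv b ∈ T
    · exact PP_unit (div_mem_rg hc hb') (div_ne_zero (gg_ne _) (gg_ne _))
        (by rw [inv_div]; exact div_mem_rg hs' hb'.symm)
    refine ⟨div_mem_rg hc hb', div_ne_zero (gg_ne _) (gg_ne _), fun x hx y hy z hz h => ?_⟩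
    fin_cases b
    · refine hs.prime hT hs' hc hb' prime_Q0 (not_dvd_X (pt ![![-1, 1, -2], ![1, 1, 1]] 1 1 1)
        ?_ ?_) (ν := 0) (fun _ _ => rfl) ?_ hx hy hz h
      · simp [var_forall, Fin.forall_fin_succ, h2]
      · simp [Q0]; ring
      · rw [aeval_QQ]; simp [qv_eq, cs, Q0, Function.update_apply]; ring
    · refine hs.prime hT hs' hc hb' prime_Q1 (not_dvd_X (pt ![![1, 1, 1], ![-2, 1, 1]] 1 1 1)
        ?_ ?_) (ν := Finsupp.single (vu 1) 1) ?_ ?_ hx hy hz h
      · simp [var_forall, Fin.forall_fin_succ, h2]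
      · simp [Q1]; ring
      · intro v hv
        rw [Finsupp.single_eq_of_ne]
        rintro rfl
        obtain ⟨w, hw, e⟩ := hT 1
        rcases w with _ | a | _ | _ <;> simp [bk] at e
        fin_cases a
        · exact hs' hw
        · exact hv hw
      · rw [← X_pow_eq_monomial]
        rw [aeval_QQ]; simp [qv_eq, cs, Q1, Function.update_apply]; ring
    · refine hs.prime hT hs' hc hb' prime_Q2 (not_dvd_X (pall K) pall_ne ?_) (ν := 0)
        (fun _ _ => rfl) ?_ hx hy hz h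
      · simp [Q2, pall]
      · rw [aeval_QQ]; simp [qv_eq, cs, Q2, Function.update_apply]; ring
    · refine hs.prime hT hs' hc hb' prime_QQ (not_dvd_X (pall K) pall_ne ?_) (ν := 0)
        (fun _ _ => rfl) ?_ hx hy hz h
      · rw [aeval_QQ, qv_pall]
      · rw [aeval_QQ]; simp [qv_eq, cs, QQ, Function.update_apply]
  pt := by
    intro b
    fin_cases b
    · refine ⟨pt ![![-1, 1, -2], ![1, 0, 1]] 1 1 1, ?_, rfl, ?_⟩
      · rw [aeval_QQ]; simp [qv_eq]; try ring
      · simp [var_forall, Fin.forall_fin_succ, h2, cs]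
    · refine ⟨pt ![![1, 1, 1], ![-2, 1, 1]] ![0, 1] 1 1, ?_, rfl, ?_⟩
      · rw [aeval_QQ]; simp [qv_eq]; try ring
      · simp [var_forall, Fin.forall_fin_succ, h2, cs]
    · refine ⟨pt ![![-1, -1, -1], ![1, 1, 1]] 1 ![0, 1, 1] 1, ?_, rfl, ?_⟩
      · rw [aeval_QQ]; simp [qv_eq]; try ring
      · simp [var_forall, Fin.forall_fin_succ, h2, cs]
    · refine ⟨pt ![![-1, -1, -1], ![1, 1, 1]] 1 1 (Function.update 1 0 0), ?_, by simp [cs], ?_⟩
      · rw [aeval_QQ]; simp [qv_eq]; try ring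
      · simp +contextual [var_forall, Fin.forall_fin_succ, h2, cs, Function.update_apply]
  base := by
    intro x
    obtain ⟨a, b, hb, rfl⟩ := IsFractionRing.div_surjective (A := MvPolynomial (cs k).Free K) x
    have hb0 := nonZeroDivisors.ne_zero hb
    have inj := IsFractionRing.injective (MvPolynomial (cs k).Free K) (LL k K)
    refine ⟨algebraMap _ _ b, ?_, mem_base.2 ⟨a, ?_⟩⟩
    · clear hb
      induction b using UniqueFactorizationMonoid.induction_on_prime with
      | h₁ => exact absurd rfl hb0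
      | h₂ u hu =>
        obtain ⟨u, rfl⟩ := hu
        refine Submonoid.subset_closure (PP_unit (mem_base.2 ⟨_, rfl⟩)
          ((map_ne_zero_iff _ inj).2 hb0) (mem_base.2 ⟨(u⁻¹ : (MvPolynomial (cs k).Free K)ˣ), ?_⟩))
        simp
      | h₃ a p ha hp ih =>
        rw [map_mul]
        refine mul_mem (Submonoid.subset_closure ⟨mem_base.2 ⟨_, rfl⟩,
          (map_ne_zero_iff _ inj).2 hp.ne_zero, fun x hx y hy z hz h => ?_⟩) (ih ha)
        obtain ⟨x, rfl⟩ := mem_base.1 hx
        obtain ⟨y, rfl⟩ := mem_base.1 hy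
        obtain ⟨z, rfl⟩ := mem_base.1 hz
        rw [← map_mul, ← map_mul] at h
        rcases hp.dvd_or_dvd ⟨z, inj h⟩ with ⟨r, rfl⟩ | ⟨r, rfl⟩
        · exact Or.inl ⟨_, mem_base.2 ⟨r, rfl⟩, map_mul _ _ _⟩
        · exact Or.inr ⟨_, mem_base.2 ⟨r, rfl⟩, map_mul _ _ _⟩
    · rw [mul_div_cancel₀ _ ((map_ne_zero_iff _ inj).2 hb0)]
  unit := by
    intro z hz hz'
    obtain rfl | h0 := eq_or_ne z 0
    · exact ⟨0, by simp⟩
    obtain ⟨a, rfl⟩ := mem_base.1 hz
    obtain ⟨b, hb⟩ := mem_base.1 hz'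
    have : a * b = 1 := IsFractionRing.injective (MvPolynomial (cs k).Free K) (LL k K) (by
      rw [map_mul, hb, mul_inv_cancel₀ h0, map_one])
    obtain ⟨r, -, rfl⟩ := isUnit_iff_eq_C_of_isReduced.1 (IsUnit.of_mul_eq_one b this)
    exact ⟨r, rfl⟩

/-- Index set of the embedding. -/
abbrev II (k : ℕ) : Type := Idx (bk (k := k)) (bs (k := k))

variable (K k) in
/-- Generic point in the anticanonical embedding. -/
noncomputable abbrev xi : II k → LL k K := mon (gg k K)

theorem picRank_zero (h2 : (2 : K) ≠ 0) :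
    picRank K (xi 0 K) = (3 : ℕ) := by
  rw [(pd h2).picRank_eq hs]
  congr 1

theorem picRank_one (h2 : (2 : K) ≠ 0) :
    picRank K (xi 1 K) = (4 : ℕ) := by
  rw [(pd h2).picRank_eq hs]
  congr 1

end Pool.Agent.Lib.MP_dd9c4c_nt
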