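import Mathlib
import Pool.Agent.Lib.MP_dd9c4c_nt.Charts

set_option linter.unusedSectionVars false
set_option linter.unusedSimpArgs false
set_option linter.unusedVariables false
set_option linter.style.haveILetI false

namespace Pool.Agent.Lib.MP_dd9c4c_nt

open MvPolynomial Submodule

section generic

variable {K L I : Type} [Field K] [Field L] [Algebra K L] [Fintype I] [DecidableEq I]

/-- Top forms of the subalgebra `A`, measured by `Δ`. -/
def topf (Δ : AlternatingMap L (KaehlerDifferential K L) L I) (A : Subalgebra K L) :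
    Submodule A L :=
  span A {z | ∃ a : I → L, (∀ k, a k ∈ A) ∧ z = Δ fun k => KaehlerDifferential.D K L (a k)}

lemma det_comb {M : Type} [AddCommGroup M] [Module L M] (b : Module.Basis I L M) (v : I → M)
    (c : Matrix I I L) : b.det (fun i => ∑ j, c i j • v j) = c.det * b.det v := by
  rw [Module.Basis.det_apply, Module.Basis.det_apply, ← Matrix.det_transpose c, mul_comm,
    ← Matrix.det_mul]
  congr 1
  ext i j
  simp [Module.Basis.toMatrix_apply, Matrix.mul_apply, mul_comm]

lemma topf_eq (b : Module.Basis I L (KaehlerDifferential K L)) {A : Subalgebra K L} {y : I → L}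
    (hy : ∀ i, y i ∈ A) (h : ∀ a ∈ A, ∃ c : I → L, (∀ i, c i ∈ A) ∧
      KaehlerDifferential.D K L a = ∑ j, c j • KaehlerDifferential.D K L (y j)) :
    topf b.det A = span A {b.det fun k => KaehlerDifferential.D K L (y k)} := by
  apply le_antisymm
  · rw [topf, span_le]
    rintro _ ⟨a, ha, rfl⟩
    choose c hc1 hc2 using fun i => h (a i) (ha i)
    simp only [hc2]
    erw [det_comb b _ (Matrix.of c)]
    have : (Matrix.of c).det ∈ A := by
      rw [Matrix.det_apply']
      exact sum_mem fun σ _ => mul_mem (intCast_mem _ _) (prod_mem fun i _ => hc1 _ _)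
    exact mem_span_singleton.2 ⟨⟨_, this⟩, rfl⟩
  · rw [span_singleton_le_iff_mem]
    exact subset_span ⟨y, hy, rfl⟩

lemma topf_mono (Δ : AlternatingMap L (KaehlerDifferential K L) L I) {A A' : Subalgebra K L}
    (h : A ≤ A') {x : L} (hx : x ∈ topf Δ A) : x ∈ topf Δ A' := by
  induction hx using span_induction with
  | mem x hx =>
    obtain ⟨a, ha, rfl⟩ := hx
    exact subset_span ⟨a, fun k => h (ha k), rfl⟩
  | zero => exact zero_mem _
  | add x y _ _ hx hy => exact add_mem hx hy
  | smul a x _ hx => exact (topf Δ A').smul_mem ⟨a, h a.2⟩ hx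

lemma topf_loc (Δ : AlternatingMap L (KaehlerDifferential K L) L I) {A : Subalgebra K L} {r : L}
    (hr : r ∈ A) {y : I → L} (hy : ∀ i, ∃ n : ℕ, r ^ n * y i ∈ A) :
    ∃ n : ℕ, r ^ n * Δ (fun k => KaehlerDifferential.D K L (y k)) ∈ topf Δ A := by
  choose n hn using hy
  refine ⟨∑ i, (n i + 1), ?_⟩
  have h1 : ∀ i, r ^ (n i + 1) • KaehlerDifferential.D K L (y i) =
      r • KaehlerDifferential.D K L (r ^ n i * y i) +
        (-(n i : L) * (r ^ n i * y i)) • KaehlerDifferential.D K L r := by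
    intro i
    rw [Derivation.leibniz, Derivation.leibniz_pow, ← Nat.cast_smul_eq_nsmul L]
    rcases n i with _ | m
    · simp
    · simp only [Nat.add_sub_cancel]
      module
  rw [← Finset.prod_pow_eq_pow_sum, ← smul_eq_mul, ← Δ.map_smul_univ]
  simp only [h1]
  have := Δ.toMultilinearMap.map_add_univ
    (fun i => r • KaehlerDifferential.D K L (r ^ n i * y i))
    (fun i => (-(n i : L) * (r ^ n i * y i)) • KaehlerDifferential.D K L r)
  simp only [AlternatingMap.coe_multilinearMap] at this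
  erw [this]
  refine sum_mem fun s _ => ?_
  have e : s.piecewise (fun i => r • KaehlerDifferential.D K L (r ^ n i * y i))
      (fun i => (-(n i : L) * (r ^ n i * y i)) • KaehlerDifferential.D K L r) =
      fun i => (if i ∈ s then r else -(n i : L) * (r ^ n i * y i)) •
        KaehlerDifferential.D K L (if i ∈ s then r ^ n i * y i else r) := by
    ext i
    by_cases hi : i ∈ s <;> simp [hi]
  rw [e, Δ.map_smul_univ]
  refine (topf Δ A).smul_mem ⟨_, prod_mem fun i _ => ?_⟩ (subset_span ⟨_, fun i => ?_, rfl⟩)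
  · split_ifs
    · exact hr
    · exact mul_mem (neg_mem (natCast_mem _ _)) (hn i)
  · split_ifs
    · exact hn i
    · exact hr

lemma det3 {J : Type} [Fintype J] [DecidableEq J] (P : Matrix ((I ⊕ J) ⊕ Unit) ((I ⊕ J) ⊕ Unit) L)
    (h1 : ∀ x, P (.inr ()) (.inl x) = 0) (h2 : ∀ i j, P (.inl (.inl i)) (.inl (.inr j)) = 0) :
    P.det = (Matrix.of fun i i' => P (.inl (.inl i)) (.inl (.inl i'))).det *
      (Matrix.of fun j j' => P (.inl (.inr j)) (.inl (.inr j'))).det * P (.inr ()) (.inr ()) := by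
  have e1 : P.toBlocks₂₁ = 0 := by ext i j; exact h1 j
  have e2 : P.toBlocks₁₁.toBlocks₁₂ = 0 := by ext i j; exact h2 i j
  have e3 : P.det = P.toBlocks₁₁.det * P.toBlocks₂₂.det := by
    conv_lhs => rw [← P.fromBlocks_toBlocks, e1, Matrix.det_fromBlocks_zero₂₁]
  have e4 : P.toBlocks₁₁.det = P.toBlocks₁₁.toBlocks₁₁.det * P.toBlocks₁₁.toBlocks₂₂.det := by
    conv_lhs => rw [← P.toBlocks₁₁.fromBlocks_toBlocks, e2, Matrix.det_fromBlocks_zero₁₂]
  rw [e3, e4, Matrix.det_unique P.toBlocks₂₂]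
  rfl

end generic

variable {k : ℕ} {K : Type} [Field K]

variable (K k) in
/-- Basis of the differentials of the function field. -/
noncomputable def bas : Module.Basis (cs k).Free (LL k K) (KaehlerDifferential K (LL k K)) :=
  (KaehlerDifferential.mvPolynomialBasis K (cs k).Free).ofIsLocalizedModule (LL k K)
    (nonZeroDivisors (MvPolynomial (cs k).Free K))
    (KaehlerDifferential.map K K (MvPolynomial (cs k).Free K) (LL k K))

lemma bas_apply (v : (cs k).Free) : bas k K v = KaehlerDifferential.D K _ (gg k K v.1) := by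
  rw [bas, Module.Basis.ofIsLocalizedModule_apply, KaehlerDifferential.mvPolynomialBasis_apply,
    KaehlerDifferential.map_D, gg, Ch.g0_free]

/-- Gradient of the equation. -/
def dq {R : Type} [CommRing R] (h : Var k → R) : Var k → R :=
  pt (fun a i => h (vu a) * h (vx i) ^ 2) (fun a => ∑ i, h (vw a i) * h (vx i) ^ 2)
    (fun i => ∑ a, 2 * h (vw a i) * h (vu a) * h (vx i)) 0

lemma dq_D : ∑ v, dq (gg k K) v • KaehlerDifferential.D K _ (gg k K v) = 0 := by
  have := congrArg (KaehlerDifferential.D K _) (qv_gg (k := k) (K := K))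
  rw [map_zero] at this
  rw [← this, qv_eq]
  simp only [dq, Fintype.sum_sum_type, Fintype.sum_prod_type, Fin.sum_univ_two, Fin.sum_univ_three,
    pt_w, pt_u, pt_x, pt_z, Pi.zero_apply, zero_smul, Finset.sum_const_zero, map_add,
    Derivation.leibniz, sq]
  module

lemma dq_euler (b : Fin 4) : ∑ v, dq (gg k K) v * (if bk v = b then gg k K v else 0) = 0 := by
  have := qv_gg (k := k) (K := K)
  rw [qv_eq] at this
  simp only [dq, Fintype.sum_sum_type, Fintype.sum_prod_type, Fin.sum_univ_two, Fin.sum_univ_three,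
    pt_w, pt_u, pt_x, pt_z, Pi.zero_apply, zero_mul, Finset.sum_const_zero, bk_w, bk_u, bk_x]
  fin_cases b <;> simp
  · linear_combination this
  · linear_combination this
  · linear_combination 2 * this

namespace Ch

variable {c : Ch k}

lemma cv_inj (c : Ch k) : Function.Injective c.cv := fun b b' h => by
  rw [← c.bk_cv b, h, c.bk_cv]

/-- Decomposition of the variables. -/
noncomputable def Good.eqv (hc : c.Good) : (c.Free ⊕ Fin 4) ⊕ Unit ≃ Var k :=
  Equiv.ofBijective (Sum.elim (Sum.elim Subtype.val c.cv) fun _ => c.w) (by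
    have h1 : ∀ (v : c.Free) b, v.1 ≠ c.cv b := fun v b e => v.2.1 (by rw [e, c.bk_cv])
    constructor
    · rintro ((a | a) | a) ((b | b) | b) h <;> simp only [Sum.elim_inl, Sum.elim_inr] at h
      · rw [Subtype.ext h]
      · exact absurd h (h1 _ _)
      · exact absurd h a.2.2
      · exact absurd h.symm (h1 _ _)
      · rw [c.cv_inj h]
      · exact absurd h (hc.cv_ne _)
      · exact absurd h.symm b.2.2
      · exact absurd h.symm (hc.cv_ne _)
      · rfl
    · intro v
      by_cases h1 : v = c.w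
      · exact ⟨.inr (), h1.symm⟩
      · by_cases h2 : v = c.cv (bk v)
        · exact ⟨.inl (.inr (bk v)), h2.symm⟩
        · exact ⟨.inl (.inl ⟨v, h2, h1⟩), rfl⟩)

lemma Good.card (hc : c.Good) : Fintype.card (cs k).Free = Fintype.card c.Free := by
  have h1 := Fintype.card_congr hc.eqv
  have h2 := Fintype.card_congr (cs_good (k := k)).eqv
  simp only [Fintype.card_sum] at h1 h2
  omega

end Ch

variable (K k) in
/-- The big matrix. -/
noncomputable def bigM : Matrix (Var k) (((cs k).Free ⊕ Fin 4) ⊕ Unit) (LL k K) := .of fun v =>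
  Sum.elim (Sum.elim (fun j => (bas k K).repr (KaehlerDifferential.D K _ (gg k K v)) j)
    (fun b => if bk v = b then gg k K v else 0)) (fun _ => if v = (cs k).w then 1 else 0)

lemma bigM_1 (v j) : bigM k K v (.inl (.inl j)) =
  (bas k K).repr (KaehlerDifferential.D K _ (gg k K v)) j := rfl
lemma bigM_2 (v b) : bigM k K v (.inl (.inr b)) = if bk v = b then gg k K v else 0 := rfl
lemma bigM_3 (v) : bigM k K v (.inr ()) = if v = (cs k).w then 1 else 0 := rfl

variable (K) in
/-- Row operations. -/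
noncomputable def rowM (c : Ch k) (ε : (cs k).Free ≃ c.Free) :
    Matrix (((cs k).Free ⊕ Fin 4) ⊕ Unit) (Var k) (LL k K) := .of <|
  Sum.elim (Sum.elim (fun i u => (if u = (ε i).1 then (gg k K (c.cv (bk (ε i).1)))⁻¹ else 0) -
    (if u = c.cv (bk (ε i).1) then gg k K (ε i).1 / gg k K (c.cv (bk (ε i).1)) ^ 2 else 0))
    (fun b u => if u = c.cv b then 1 else 0)) (fun _ => dq (gg k K))

section
variable {c : Ch k} (ε : (cs k).Free ≃ c.Free)

lemma rowM_1 (i u) : rowM K c ε (.inl (.inl i)) u =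
    (if u = (ε i).1 then (gg k K (c.cv (bk (ε i).1)))⁻¹ else 0) -
    (if u = c.cv (bk (ε i).1) then gg k K (ε i).1 / gg k K (c.cv (bk (ε i).1)) ^ 2 else 0) := rfl
lemma rowM_2 (b u) : rowM K c ε (.inl (.inr b)) u = if u = c.cv b then 1 else 0 := rfl
lemma rowM_3 (u) : rowM K c ε (.inr ()) u = dq (gg k K) u := rfl

lemma rowM_mul (i) (m : Var k → LL k K) : ∑ u, rowM K c ε (.inl (.inl i)) u * m u =
    (gg k K (c.cv (bk (ε i).1)))⁻¹ * m (ε i).1 -
      gg k K (ε i).1 / gg k K (c.cv (bk (ε i).1)) ^ 2 * m (c.cv (bk (ε i).1)) := by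
  simp only [rowM_1, sub_mul, Finset.sum_sub_distrib, ite_mul, zero_mul, Finset.sum_ite_eq',
    Finset.mem_univ, if_true]

lemma det_prod : (rowM K c ε * bigM k K).det = (bas k K).det
      (fun i => KaehlerDifferential.D K _ (c.yy K (ε i).1)) * ∏ b, gg k K (c.cv b) := by
  rw [det3]
  · have e1 : (rowM K c ε * bigM k K) (.inr ()) (.inr ()) = 1 := by
      have a1 := gg_cv (k := k) (K := K) 1
      have a2 := gg_cv (k := k) (K := K) 2
      simp only [Ch.cv1, Ch.cv2] at a1 a2
      simp only [Matrix.mul_apply, rowM_3, bigM_3, mul_ite, mul_one, mul_zero, Finset.sum_ite_eq',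
        Finset.mem_univ, if_true, dq, pt_w, a1, a2, one_pow]
    have e2 : (Matrix.of fun i i' => (rowM K c ε * bigM k K) (.inl (.inl i)) (.inl (.inl i'))) =
        ((bas k K).toMatrix fun i => KaehlerDifferential.D K _ (c.yy K (ε i).1)).transpose := by
      ext i j
      simp only [Matrix.transpose_apply, Matrix.of_apply, Matrix.mul_apply, rowM_mul,
        Module.Basis.toMatrix_apply, bigM_1, Ch.yy, Derivation.leibniz_div,
        map_smul, map_sub, Finsupp.smul_apply, Finsupp.sub_apply, smul_eq_mul]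
      have := gg_ne (K := K) (c.cv (bk (ε i).1))
      field_simp
    have e3 : (Matrix.of fun i i' => (rowM K c ε * bigM k K) (.inl (.inr i)) (.inl (.inr i'))) =
        Matrix.diagonal fun b => gg k K (c.cv b) := by
      ext b b'
      simp only [Matrix.of_apply, Matrix.mul_apply, rowM_2, bigM_2, ite_mul, one_mul, zero_mul,
        Finset.sum_ite_eq', Finset.mem_univ, if_true, Ch.bk_cv, Matrix.diagonal_apply]
    rw [e1, e2, e3, mul_one, Matrix.det_transpose, Matrix.det_diagonal, Module.Basis.det_apply]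
  · rintro (j | b)
    · have := congrArg (fun ω => (bas k K).repr ω j) (dq_D (k := k) (K := K))
      simp only [map_sum, map_smul, Finsupp.finsetSum_apply, Finsupp.smul_apply, smul_eq_mul,
        map_zero, Finsupp.zero_apply] at this
      simpa only [Matrix.mul_apply, rowM_3, bigM_1] using this
    · simpa only [Matrix.mul_apply, rowM_3, bigM_2] using dq_euler (k := k) (K := K) b
  · intro i b
    simp only [Matrix.mul_apply, rowM_mul, bigM_2, Ch.bk_cv]
    have := gg_ne (K := K) (c.cv (bk (ε i).1))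
    split_ifs
    · field_simp; ring
    · simp

lemma det_row (hc : c.Good) (e : ((cs k).Free ⊕ Fin 4) ⊕ Unit → Var k)
    (e1 : ∀ i, e (.inl (.inl i)) = (ε i).1) (e2 : ∀ b, e (.inl (.inr b)) = c.cv b)
    (e3 : e (.inr ()) = c.w) : ((rowM K c ε).submatrix id e).det =
      (∏ i, (gg k K (c.cv (bk (ε i).1)))⁻¹) * (gg k K (vu c.a) * gg k K (vx c.i) ^ 2) := by
  have hf : ∀ (v : c.Free) b, v.1 ≠ c.cv b := fun v b e => v.2.1 (by rw [e, c.bk_cv])
  rw [← Matrix.det_transpose, det3]
  · have a1 : (Matrix.of fun i i' => ((rowM K c ε).submatrix id e).transpose (.inl (.inl i))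
        (.inl (.inl i'))) = Matrix.diagonal fun i => (gg k K (c.cv (bk (ε i).1)))⁻¹ := by
      ext i i'
      simp only [Matrix.of_apply, Matrix.transpose_apply, Matrix.submatrix_apply, id, rowM_1, e1,
        if_neg (hf _ _), sub_zero, Matrix.diagonal_apply, Subtype.val_inj, ε.injective.eq_iff]
      split_ifs with h
      · rw [h]
      · rfl
    have a2 : (Matrix.of fun i i' => ((rowM K c ε).submatrix id e).transpose (.inl (.inr i))
        (.inl (.inr i'))) = 1 := by
      ext i i'
      simp only [Matrix.of_apply, Matrix.transpose_apply, Matrix.submatrix_apply, id, rowM_2, e2,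
        c.cv_inj.eq_iff, Matrix.one_apply]
    rw [a1, a2, Matrix.det_diagonal, Matrix.det_one, mul_one, Matrix.transpose_apply,
      Matrix.submatrix_apply, e3]
    rfl
  · rintro (i | b)
    · simp only [Matrix.transpose_apply, Matrix.submatrix_apply, id, rowM_1, e3,
        if_neg (ε i).2.2.symm, if_neg (hc.cv_ne _).symm, sub_zero]
    · simp only [Matrix.transpose_apply, Matrix.submatrix_apply, id, rowM_2, e3,
        if_neg (hc.cv_ne _).symm]
  · intro i b
    simp only [Matrix.transpose_apply, Matrix.submatrix_apply, id, rowM_2, e1, if_neg (hf _ _)]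

end

lemma jac_aux {c : Ch k} (hc : c.Good) (ε : (cs k).Free ≃ c.Free) :
    (bas k K).det (fun i => KaehlerDifferential.D K _ (c.yy K (ε i).1)) * ∏ b, gg k K (c.cv b) =
      (∏ i, (gg k K (c.cv (bk (ε i).1)))⁻¹) * (gg k K (vu c.a) * gg k K (vx c.i) ^ 2) *
      ((bigM k K).submatrix (((ε.sumCongr (Equiv.refl _)).sumCongr (Equiv.refl _)).trans hc.eqv)
        id).det := by
  set e := ((ε.sumCongr (Equiv.refl (Fin 4))).sumCongr (Equiv.refl Unit)).trans hc.eqv with he
  rw [← det_prod, ← det_row ε hc e (fun _ => rfl) (fun _ => rfl) rfl, ← Matrix.det_mul,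
    Matrix.submatrix_mul_equiv]
  rfl

/-- The monomial of a chart. -/
def Ch.idx (c : Ch k) : II k := ⟨fun s => c.cv (bs s), fun _ => c.bk_cv _⟩

lemma jac {c : Ch k} (hc : c.Good) (ε : (cs k).Free ≃ c.Free) : ∃ s : ℤˣ,
    (bas k K).det (fun i => KaehlerDifferential.D K _ (c.yy K (ε i).1)) =
      ((s : ℤ) : LL k K) * (xi k K c.idx)⁻¹ := by
  have h0 := jac_aux (K := K) (cs_good (k := k)) (Equiv.refl _)
  have a1 := gg_cv (k := k) (K := K) 1
  have a2 := gg_cv (k := k) (K := K) 2
  simp only [Ch.cv1, Ch.cv2] at a1 a2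
  simp only [Equiv.refl_apply, Ch.yy, gg_cv, div_one, ← bas_apply, Module.Basis.det_self, a1, a2,
    inv_one, Finset.prod_const_one, one_pow, mul_one, one_mul] at h0
  have h1 := jac_aux (K := K) hc ε
  set e0 := (((Equiv.refl (cs k).Free).sumCongr (Equiv.refl (Fin 4))).sumCongr
    (Equiv.refl Unit)).trans (cs_good (k := k)).eqv
  set e := ((ε.sumCongr (Equiv.refl (Fin 4))).sumCongr (Equiv.refl Unit)).trans hc.eqv with he
  have h2 : (bigM k K).submatrix e id =
      ((bigM k K).submatrix e0 id).submatrix (e.trans e0.symm) id := by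
    ext i j; simp
  rw [h2, Matrix.det_permute, ← h0, mul_one] at h1
  refine ⟨Equiv.Perm.sign (e.trans e0.symm), ?_⟩
  have h3 := Equiv.prod_comp e fun v => gg k K (c.cv (bk v))
  have e1 : ∀ i, e (.inl (.inl i)) = (ε i).1 := fun _ => rfl
  have e2 : ∀ b, e (.inl (.inr b)) = c.cv b := fun _ => rfl
  have e3 : e (.inr ()) = c.w := rfl
  rw [Fintype.prod_sum_type, Fintype.prod_sum_type] at h3
  simp only [e1, e2, e3, Fintype.prod_unique, Ch.bk_cv, PUnit.default_eq_unit] at h3
  have h4 : ∏ v : Var k, gg k K (c.cv (bk v)) = xi k K c.idx *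
      (gg k K (.inl c.c0) * (gg k K (vu c.a) * gg k K (vx c.i) ^ 2)) := by
    simp [xi, mon, Ch.idx, Fintype.prod_sum_type, bs]
    ring
  rw [h4, bk_w, Ch.cv0] at h3
  rw [Finset.prod_inv_distrib] at h1
  have n1 : ∏ i, gg k K (c.cv (bk (ε i).1)) ≠ 0 := Finset.prod_ne_zero_iff.2 fun _ _ => gg_ne _
  have n2 : ∏ b, gg k K (c.cv b) ≠ 0 := Finset.prod_ne_zero_iff.2 fun _ _ => gg_ne _
  have n3 := mon_ne (gg_ne (k := k) (K := K)) c.idx
  have n4 := gg_ne (k := k) (K := K) (.inl c.c0)
  have h5 : (∏ i, gg k K (c.cv (bk (ε i).1))) * ∏ b, gg k K (c.cv b) =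
      xi k K c.idx * (gg k K (vu c.a) * gg k K (vx c.i) ^ 2) :=
    mul_right_cancel₀ n4 (by rw [h3]; ring)
  have h6 : gg k K (vu c.a) * gg k K (vx c.i) ^ 2 = (xi k K c.idx)⁻¹ *
      ((∏ i, gg k K (c.cv (bk (ε i).1))) * ∏ b, gg k K (c.cv b)) := by
    rw [h5, inv_mul_cancel_left₀ n3]
  refine mul_right_cancel₀ n2 ?_
  rw [h1, h6]
  field_simp

lemma D_good {c : Ch k} (hc : c.Good) (ε : (cs k).Free ≃ c.Free) {T : Set (Var k)}
    (hT : Set.range c.cv ⊆ T) (a : LL k K) (ha : a ∈ rg K bk (gg k K) T) :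
    ∃ m : (cs k).Free → LL k K, (∀ i, m i ∈ rg K bk (gg k K) T) ∧
      KaehlerDifferential.D K _ a = ∑ j, m j • KaehlerDifferential.D K _ (c.yy K (ε j).1) := by
  let p : LL k K → Prop := fun a => ∃ m : (cs k).Free → LL k K, (∀ i, m i ∈ rg K bk (gg k K) T) ∧
      KaehlerDifferential.D K _ a = ∑ j, m j • KaehlerDifferential.D K _ (c.yy K (ε j).1)
  have comb : ∀ x y z α β, p x → p y → α ∈ rg K bk (gg k K) T → β ∈ rg K bk (gg k K) T →
      KaehlerDifferential.D K _ z = α • KaehlerDifferential.D K _ x +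
        β • KaehlerDifferential.D K _ y → p z := by
    rintro x y z α β ⟨m, hm, e⟩ ⟨m', hm', e'⟩ hα hβ h
    refine ⟨fun j => α * m j + β * m' j, fun j => add_mem (mul_mem hα (hm j)) (mul_mem hβ (hm' j)),
      ?_⟩
    rw [h, e, e', Finset.smul_sum, Finset.smul_sum, ← Finset.sum_add_distrib]
    exact Finset.sum_congr rfl fun j _ => by module
  have hphi : ∀ F, p (c.phi K F) := by
    intro F
    induction F using MvPolynomial.induction_on with
    | C r => exact ⟨0, fun _ => zero_mem _, by simp [Ch.phi]⟩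
    | add p q hp hq => exact comb _ _ _ 1 1 hp hq (one_mem _) (one_mem _) (by simp)
    | mul_X q v hq =>
      have hv : p (c.yy K v.1) := ⟨Pi.single (ε.symm v) 1, fun i => by
        rw [Pi.single_apply]; split_ifs <;> simp, by
        rw [Finset.sum_eq_single (ε.symm v)] <;> simp +contextual [Pi.single_apply]⟩
      refine comb _ _ _ (c.phi K q) (c.yy K v.1) hv hq
        (rg_mono hT (by rw [← c.range_phi]; exact ⟨q, rfl⟩)) (rg_mono hT (c.yy_mem _)) ?_
      rw [map_mul, Derivation.leibniz]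
      simp [Ch.phi]
  have hy : ∀ v, p (c.yy K v) := fun v => c.phi_g0 (K := K) v ▸ hphi _
  induction ha using Algebra.adjoin_induction with
  | mem x hx =>
    obtain ⟨v, w, hw, h, rfl⟩ := hx
    have e : gg k K v / gg k K w = c.yy K v / c.yy K w := by
      rw [Ch.yy, Ch.yy, h, div_div_div_cancel_right₀ (gg_ne _)]
    have hw' : (c.yy K w)⁻¹ ∈ rg K bk (gg k K) T := by
      rw [Ch.yy, inv_div]; exact div_mem_rg hw (c.bk_cv _)
    refine comb _ _ _ ((c.yy K w)⁻¹ ^ 2 * c.yy K w) (-((c.yy K w)⁻¹ ^ 2 * c.yy K v)) (hy v) (hy w)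
      (mul_mem (pow_mem hw' _) (rg_mono hT (c.yy_mem _)))
      (neg_mem (mul_mem (pow_mem hw' _) (rg_mono hT (c.yy_mem _)))) ?_
    rw [e, Derivation.leibniz_div]
    module
  | algebraMap r => exact ⟨0, fun _ => zero_mem _, by simp⟩
  | add x y _ _ hx hy => exact comb _ _ _ 1 1 hx hy (one_mem _) (one_mem _) (by simp)
  | mul x y hx' hy' hx hy => exact comb _ _ _ x y hy hx hx' hy' (Derivation.leibniz _ _ _)

lemma xi_div_mem {T : Set (Var k)} {f f' : II k} (hf : Set.range f.1 ⊆ T) :
    xi k K f' / xi k K f ∈ rg K bk (gg k K) T := by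
  simp only [xi, mon, ← Finset.prod_div_distrib]
  exact prod_mem fun s _ => div_mem_rg (hf ⟨s, rfl⟩) (by rw [f.2, f'.2])

theorem topf_chart (f : II k) : topf (bas k K).det (rg K bk (gg k K) (Set.range f.1)) =
    span _ {(xi k K f)⁻¹} := by
  set T := Set.range f.1
  have hT : ∀ b, ∃ v ∈ T, bk v = b := fun b => ⟨_, ⟨slv k b, rfl⟩, by rw [f.2, bs_slv]⟩
  have n0 := mon_ne (gg_ne (k := k) (K := K)) f
  apply le_antisymm
  · intro x hx
    refine mem_of_span_eq_top_of_smul_pow_mem _ _ (cover hT) _ ?_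
    rintro ⟨r, v, c, hc, h, hr, c', hc', hs⟩
    have h1 := rg_insert (K := K) (blk := bk) (g := gg k K) gg_ne hc h
    let ε := Fintype.equivOfCardEq hc'.card
    have h2 := topf_mono _ (rg_mono (Set.subset_insert v T)) hx
    rw [topf_eq _ (fun i => rg_mono hs (c'.yy_mem (ε i).1)) (D_good hc' ε hs)] at h2
    obtain ⟨s, hs'⟩ := jac (K := K) hc' ε
    obtain ⟨a, rfl⟩ := mem_span_singleton.1 h2
    have n1 := mon_ne (gg_ne (k := k) (K := K)) c'.idx
    obtain ⟨n, hn⟩ := h1.2 _ (mul_mem (mul_mem a.2 (intCast_mem _ (s : ℤ)))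
      (xi_div_mem (f := c'.idx) (f' := f) (fun _ ⟨s, hs0⟩ => hs ⟨_, hs0⟩)))
    refine ⟨n, mem_span_singleton.2 ⟨⟨_, hn⟩, ?_⟩⟩
    rw [hs']
    simp only [Subalgebra.smul_def, smul_eq_mul, SubmonoidClass.coe_pow, hr]
    field_simp
  · rw [span_singleton_le_iff_mem]
    refine mem_of_span_eq_top_of_smul_pow_mem _ _ (cover hT) _ ?_
    rintro ⟨r, v, c, hc, h, hr, c', hc', hs⟩
    have h1 := rg_insert (K := K) (blk := bk) (g := gg k K) gg_ne hc h
    let ε := Fintype.equivOfCardEq hc'.card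
    obtain ⟨s, hs'⟩ := jac (K := K) hc' ε
    obtain ⟨n, hn⟩ := topf_loc (bas k K).det (div_mem_rg hc h)
      (fun i => h1.2 _ (rg_mono hs (c'.yy_mem (ε i).1)))
    obtain ⟨m, hm⟩ := h1.2 _ (mul_mem (intCast_mem _ (s : ℤ))
      (xi_div_mem (f := f) (f' := c'.idx) (Set.subset_insert _ _)))
    refine ⟨m + n, ?_⟩
    have := (topf (bas k K).det _).smul_mem ⟨_, hm⟩ hn
    rw [hs'] at this
    have n1 := mon_ne (gg_ne (k := k) (K := K)) c'.idx
    have hss : ((s : ℤ) : LL k K) * ((s : ℤ) : LL k K) = 1 := by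
      rw [← Int.cast_mul, ← Units.val_mul, Int.units_mul_self]; simp
    have e : (r ^ (m + n)) • (xi k K f)⁻¹ = (gg k K v / gg k K c) ^ m *
        (((s : ℤ) : LL k K) * (xi k K c'.idx / xi k K f)) * ((gg k K v / gg k K c) ^ n *
        (((s : ℤ) : LL k K) * (xi k K c'.idx)⁻¹)) := by
      simp only [Subalgebra.smul_def, smul_eq_mul, SubmonoidClass.coe_pow, hr]
      rw [pow_add]
      have : xi k K c'.idx * (xi k K c'.idx)⁻¹ = 1 := mul_inv_cancel₀ n1
      linear_combination (-(gg k K v / gg k K c) ^ m * (gg k K v / gg k K c) ^ n * (xi k K f)⁻¹) *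
        (hss + ((s : ℤ) : LL k K) * ((s : ℤ) : LL k K) * this)
    rw [e]
    exact this

theorem canon_xi : ∃ Δ : AlternatingMap (LL k K) (KaehlerDifferential K (LL k K)) (LL k K)
      (Fin (Module.finrank (LL k K) (KaehlerDifferential K (LL k K)))), ∀ i,
    Submodule.span (chart K (xi k K) i) {z | ∃ a : Fin (Module.finrank (LL k K)
      (KaehlerDifferential K (LL k K))) → LL k K,
      (∀ j, a j ∈ chart K (xi k K) i) ∧ z = Δ fun j => KaehlerDifferential.D K _ (a j)} =
    Submodule.span (chart K (xi k K) i) {(xi k K i)⁻¹} := by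
  let e : (cs k).Free ≃ Fin (Module.finrank (LL k K) (KaehlerDifferential K (LL k K))) :=
    Fintype.equivFinOfCardEq (Module.finrank_eq_card_basis (bas k K)).symm
  refine ⟨(bas k K).det.domDomCongr e, fun f => ?_⟩
  rw [chart_eq gg_ne, ← topf_chart, topf]
  congr 1
  ext z
  constructor
  · rintro ⟨a, ha, rfl⟩
    exact ⟨fun i => a (e i), fun i => ha _, rfl⟩
  · rintro ⟨a, ha, rfl⟩
    exact ⟨fun i => a (e.symm i), fun i => ha _, by simp [Function.comp_def]⟩

end Pool.Agent.Lib.MP_dd9c4c_nt
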