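import Mathlib

set_option linter.unusedSectionVars false
set_option linter.unusedSimpArgs false
set_option linter.unusedVariables false

namespace Pool.Agent.Lib.MP_dd9c4c_nt

open Polynomial Finset

variable {F : Type} [Field F] [Fintype F]

variable (F) in
/-- Monic polynomials of degree `n`. -/
noncomputable def Mon (n : ℕ) : Finset F[X] :=
  Finset.univ.map (((monicEquivDegreeLT (R := F) n).trans
    (degreeLTEquiv F n).toEquiv).symm.toEmbedding.trans (Function.Embedding.subtype _))

lemma mem_Mon {n : ℕ} {p : F[X]} : p ∈ Mon F n ↔ p.Monic ∧ p.natDegree = n := by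
  simp only [Mon, Finset.mem_map, Finset.mem_univ, true_and, Function.Embedding.trans_apply,
    Equiv.coe_toEmbedding, Function.Embedding.subtype_apply]
  constructor
  · rintro ⟨a, rfl⟩
    exact (((monicEquivDegreeLT (R := F) n).trans (degreeLTEquiv F n).toEquiv).symm a).2
  · intro h
    exact ⟨_, by rw [Equiv.symm_apply_apply _ ⟨p, h⟩]⟩

lemma card_Mon (n : ℕ) : (Mon F n).card = Fintype.card F ^ n := by simp [Mon]

open Classical in
lemma card_dvd_le {e : ℕ} {π : F[X]} (hπ : π ∈ Mon F e) (m : ℕ) :
    (((Mon F m).filter (π ∣ ·)).card : ℝ) ≤ (Fintype.card F : ℝ) ^ m * ((Fintype.card F : ℝ)⁻¹) ^ e := by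
  obtain ⟨h1, h2⟩ := mem_Mon.1 hπ
  have hq : (0 : ℝ) < Fintype.card F := by exact_mod_cast Fintype.card_pos
  by_cases he : e ≤ m
  · have : (Mon F m).filter (π ∣ ·) ⊆ (Mon F (m - e)).image (π * ·) := by
      intro p hp
      obtain ⟨hp, r, rfl⟩ := Finset.mem_filter.1 hp
      obtain ⟨h3, h4⟩ := mem_Mon.1 hp
      have h5 := h1.of_mul_monic_left h3
      rw [h1.natDegree_mul h5] at h4
      exact Finset.mem_image.2 ⟨r, mem_Mon.2 ⟨h5, by omega⟩, rfl⟩
    have h6 := (Finset.card_le_card this).trans Finset.card_image_le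
    rw [card_Mon] at h6
    calc _ ≤ ((Fintype.card F ^ (m - e) : ℕ) : ℝ) := by exact_mod_cast h6
      _ = _ := by
        rw [Nat.cast_pow, pow_sub₀ _ hq.ne' he, inv_pow]
  · have : (Mon F m).filter (π ∣ ·) = ∅ := by
      refine Finset.filter_eq_empty_iff.2 fun p hp hd => he ?_
      obtain ⟨h3, h4⟩ := mem_Mon.1 hp
      rw [← h2, ← h4]
      exact natDegree_le_of_dvd hd h3.ne_zero
    rw [this]
    simp only [Finset.card_empty, Nat.cast_zero]
    positivity

variable (F) in
/-- Tuples of monic polynomials. -/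
noncomputable def Box (d : Fin 6 → ℕ) : Finset (Fin 6 → F[X]) := Fintype.piFinset fun i => Mon F (d i)

lemma card_Box (d : Fin 6 → ℕ) : (Box F d).card = Fintype.card F ^ ∑ i, d i := by
  simp only [Box, Fintype.card_piFinset, card_Mon, Finset.prod_pow_eq_pow_sum]

open Classical in
lemma card_not_coprime (d : Fin 6 → ℕ) {i j : Fin 6} (hij : i ≠ j) :
    (((Box F d).filter fun a => ¬ IsCoprime (a i) (a j)).card : ℝ) ≤
      (Fintype.card F : ℝ) ^ (∑ i, d i) / (Fintype.card F - 1) := by
  have hq : (1 : ℝ) < Fintype.card F := by exact_mod_cast Fintype.one_lt_card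
  set q : ℝ := (Fintype.card F : ℝ) with hqd
  have hsub : (Box F d).filter (fun a => ¬ IsCoprime (a i) (a j)) ⊆
      (Finset.Ico 1 (d i + 1)).biUnion fun e => (Mon F e).biUnion fun π =>
        Fintype.piFinset fun l => if l ∈ ({i, j} : Finset (Fin 6)) then (Mon F (d l)).filter (π ∣ ·)
          else Mon F (d l) := by
    intro a ha
    obtain ⟨ha, hc⟩ := Finset.mem_filter.1 ha
    have ha' := Fintype.mem_piFinset.1 ha
    have hi := mem_Mon.1 (ha' i)
    obtain ⟨z, hz, h1, h2⟩ : ∃ z, Irreducible z ∧ z ∣ a i ∧ z ∣ a j := by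
      by_contra! h
      exact hc (isCoprime_of_irreducible_dvd (fun h0 => hi.1.ne_zero h0.1) h)
    have hm := monic_normalize hz.ne_zero
    have hd1 : normalize z ∣ a i := normalize_dvd_iff.2 h1
    have hd2 : normalize z ∣ a j := normalize_dvd_iff.2 h2
    refine Finset.mem_biUnion.2 ⟨(normalize z).natDegree, Finset.mem_Ico.2 ⟨?_, ?_⟩,
      Finset.mem_biUnion.2 ⟨normalize z, mem_Mon.2 ⟨hm, rfl⟩, Fintype.mem_piFinset.2 fun l => ?_⟩⟩
    · exact ((normalize_associated z).symm.irreducible hz).natDegree_pos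
    · have := natDegree_le_of_dvd hd1 hi.1.ne_zero
      omega
    · split_ifs with hl
      · refine Finset.mem_filter.2 ⟨ha' l, ?_⟩
        rcases Finset.mem_insert.1 hl with rfl | hl
        · exact hd1
        · rw [Finset.mem_singleton.1 hl]; exact hd2
      · exact ha' l
  have h1 := (Finset.card_le_card hsub).trans (Finset.card_biUnion_le.trans
    (Finset.sum_le_sum fun e _ => Finset.card_biUnion_le))
  calc _ ≤ ((∑ e ∈ Finset.Ico 1 (d i + 1), ∑ π ∈ Mon F e, (Fintype.piFinset fun l =>
        if l ∈ ({i, j} : Finset (Fin 6)) then (Mon F (d l)).filter (π ∣ ·)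
          else Mon F (d l)).card : ℕ) : ℝ) := by exact_mod_cast h1
    _ ≤ ∑ e ∈ Finset.Ico 1 (d i + 1), q ^ (∑ i, d i) * (q⁻¹) ^ e := by
      push_cast
      refine Finset.sum_le_sum fun e _ => ?_
      calc _ ≤ ∑ π ∈ Mon F e, q ^ (∑ i, d i) * ((q⁻¹) ^ e) ^ 2 := by
            refine Finset.sum_le_sum fun π hπ => ?_
            rw [Fintype.card_piFinset]
            push_cast
            calc _ ≤ ∏ l, q ^ d l * (if l ∈ ({i, j} : Finset (Fin 6)) then (q⁻¹) ^ e else 1) := by
                  refine Finset.prod_le_prod (fun _ _ => Nat.cast_nonneg _) fun l _ => ?_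
                  split_ifs
                  · exact card_dvd_le hπ _
                  · simp [card_Mon, q]
              _ = _ := by
                  rw [Finset.prod_mul_distrib, Finset.prod_pow_eq_pow_sum, Finset.prod_ite_mem,
                    Finset.univ_inter, Finset.prod_const, Finset.card_pair hij]
        _ = _ := by
            rw [Finset.sum_const, card_Mon, nsmul_eq_mul]
            push_cast
            have : (Fintype.card F : ℝ) ^ e * (q⁻¹) ^ e = 1 := by
              rw [← mul_pow, mul_inv_cancel₀ (by positivity), one_pow]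
            linear_combination q ^ (∑ i, d i) * (q⁻¹) ^ e * this
    _ ≤ q ^ (∑ i, d i) * ((q⁻¹) ^ 1 / (1 - q⁻¹)) := by
      rw [← Finset.mul_sum]
      gcongr
      exact geom_sum_Ico_le_of_lt_one (by positivity) (inv_lt_one_of_one_lt₀ hq)
    _ = _ := by
      have : q - 1 ≠ 0 := by linarith
      field_simp

open Classical in
lemma card_zero {K : Type} [Field K] [Algebra F[X] K] (hinj : Function.Injective (algebraMap F[X] K))
    {g : MvPolynomial (Fin 6) K} (hg : g ≠ 0) (d : Fin 6 → ℕ)
    (hd : ∀ i, 4 * ∑ i, g.degreeOf i ≤ d i) :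
    (((Box F d).filter fun a => MvPolynomial.eval (fun i => algebraMap F[X] K (a i)) g = 0).card : ℝ)
      ≤ (Fintype.card F : ℝ) ^ (∑ i, d i) / 4 := by
  have h := MvPolynomial.schwartz_zippel_sum_degreeOf hg
    fun i => (Mon F (d i)).image (algebraMap F[X] K)
  simp only [Finset.card_image_of_injective _ hinj, card_Mon] at h
  have h1 : ((Box F d).filter fun a =>
      MvPolynomial.eval (fun i => algebraMap F[X] K (a i)) g = 0).card ≤
      ((Fintype.piFinset fun i => (Mon F (d i)).image (algebraMap F[X] K)).filter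
        fun x => MvPolynomial.eval x g = 0).card := by
    refine Finset.card_le_card_of_injOn (fun a i => algebraMap F[X] K (a i)) ?_ ?_
    · intro a ha
      obtain ⟨ha, h0⟩ := Finset.mem_filter.1 ha
      exact Finset.mem_filter.2 ⟨Fintype.mem_piFinset.2 fun i =>
        Finset.mem_image_of_mem _ (Fintype.mem_piFinset.1 ha i), h0⟩
    · intro a _ b _ hab
      ext1 i
      exact hinj (congrFun hab i)
  have h2 := (NNRat.cast_le (K := ℝ)).2 h
  push_cast at h2
  have hq : (2 : ℝ) ≤ Fintype.card F := by exact_mod_cast Fintype.one_lt_card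
  rw [Finset.prod_pow_eq_pow_sum, div_le_iff₀ (by positivity)] at h2
  have h3 : ∑ i, (g.degreeOf i : ℝ) / (Fintype.card F : ℝ) ^ d i ≤ 1 / 4 := by
    set N := ∑ i, g.degreeOf i with hN
    calc _ ≤ ∑ i, (g.degreeOf i : ℝ) / (4 * N + 1) := by
          refine Finset.sum_le_sum fun i _ => ?_
          gcongr
          calc (4 * N + 1 : ℝ) ≤ 2 ^ (4 * N) := by exact_mod_cast Nat.lt_two_pow_self
            _ ≤ 2 ^ d i := pow_le_pow_right₀ one_le_two (hd i)
            _ ≤ _ := by gcongr
      _ = N / (4 * N + 1) := by rw [← Finset.sum_div, hN]; push_cast; rfl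
      _ ≤ 1 / 4 := by
          rw [div_le_div_iff₀ (by positivity) (by positivity)]; linarith
  calc _ ≤ _ := Nat.cast_le.2 h1
    _ ≤ _ := h2
    _ ≤ 1 / 4 * (Fintype.card F : ℝ) ^ (∑ i, d i) := by gcongr
    _ = _ := by ring

open Classical in
lemma card_good (hq : 61 ≤ Fintype.card F) {K : Type} [Field K] [Algebra F[X] K]
    (hinj : Function.Injective (algebraMap F[X] K))
    {g : MvPolynomial (Fin 6) K} (hg : g ≠ 0) (d : Fin 6 → ℕ)
    (hd : ∀ i, 4 * ∑ i, g.degreeOf i ≤ d i) :
    (Fintype.card F : ℝ) ^ (∑ i, d i) / 4 ≤ ((Box F d).filter fun a =>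
      (∀ i j, i ≠ j → IsCoprime (a i) (a j)) ∧
      MvPolynomial.eval (fun i => algebraMap F[X] K (a i)) g ≠ 0).card := by
  have hsub : Box F d ⊆ ((Box F d).filter fun a => (∀ i j, i ≠ j → IsCoprime (a i) (a j)) ∧
      MvPolynomial.eval (fun i => algebraMap F[X] K (a i)) g ≠ 0) ∪
      (((Box F d).filter fun a => MvPolynomial.eval (fun i => algebraMap F[X] K (a i)) g = 0) ∪
      (Finset.univ : Finset (Fin 6)).offDiag.biUnion fun p =>
        (Box F d).filter fun a => ¬ IsCoprime (a p.1) (a p.2)) := by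
    intro a ha
    simp only [Finset.mem_union, Finset.mem_filter, ha, true_and, Finset.mem_biUnion,
      Finset.mem_offDiag, Finset.mem_univ]
    by_cases h1 : MvPolynomial.eval (fun i => algebraMap F[X] K (a i)) g = 0
    · exact Or.inr (Or.inl h1)
    by_cases h2 : ∀ i j, i ≠ j → IsCoprime (a i) (a j)
    · exact Or.inl ⟨h2, h1⟩
    · push Not at h2
      obtain ⟨i, j, hij, h⟩ := h2
      exact Or.inr (Or.inr ⟨(i, j), hij, h⟩)
  have h1 := (Finset.card_le_card hsub).trans ((Finset.card_union_le _ _).trans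
    (Nat.add_le_add_left ((Finset.card_union_le _ _).trans
      (Nat.add_le_add_left Finset.card_biUnion_le _)) _))
  rw [card_Box] at h1
  have h2 := (Nat.cast_le (α := ℝ)).2 h1
  push_cast at h2
  have h3 := card_zero hinj hg d hd
  have hq' : (61 : ℝ) ≤ Fintype.card F := by exact_mod_cast hq
  have h4 : ∑ p ∈ (Finset.univ : Finset (Fin 6)).offDiag,
      (((Box F d).filter fun a => ¬ IsCoprime (a p.1) (a p.2)).card : ℝ) ≤
      30 * ((Fintype.card F : ℝ) ^ (∑ i, d i) / 60) := by
    calc _ ≤ ∑ p ∈ (Finset.univ : Finset (Fin 6)).offDiag,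
          (Fintype.card F : ℝ) ^ (∑ i, d i) / 60 := by
          refine Finset.sum_le_sum fun p hp => (card_not_coprime d (Finset.mem_offDiag.1 hp).2.2).trans ?_
          gcongr
          linarith
      _ = _ := by simp [Finset.offDiag_card]
  linarith

omit [Fintype F] in
lemma eq_of_cross {x y x' y' : F[X]} (hx : x.Monic) (hx' : x'.Monic) (h : IsCoprime x y)
    (h' : IsCoprime x' y') (e : x * y' = x' * y) : x = x' :=
  eq_of_monic_of_associated hx hx' (associated_of_dvd_dvd
    (h.dvd_of_dvd_mul_right ⟨y', e.symm⟩) (h'.dvd_of_dvd_mul_right ⟨y, e⟩))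

omit [Fintype F] in
lemma eq_of_two {a b c a' b' c' : F[X]} (ha : a.Monic) (ha' : a'.Monic) (h : IsCoprime b c)
    (h' : IsCoprime b' c') (e1 : a * b = a' * b') (e2 : a * c = a' * c') : a = a' := by
  obtain ⟨r, s, hrs⟩ := h
  obtain ⟨r', s', hrs'⟩ := h'
  refine eq_of_monic_of_associated ha ha' (associated_of_dvd_dvd ⟨r' * b + s' * c, ?_⟩
    ⟨r * b' + s * c', ?_⟩)
  · linear_combination (-a') * hrs' - r' * e1 - s' * e2
  · linear_combination (-a) * hrs + r * e1 + s * e2

omit [Fintype F] in
lemma toric_inj {a b : Fin 6 → F[X]} (ha : ∀ i, (a i).Monic) (hb : ∀ i, (b i).Monic)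
    (ca : ∀ i j, i ≠ j → IsCoprime (a i) (a j)) (cb : ∀ i j, i ≠ j → IsCoprime (b i) (b j))
    (e01 : a 0 * a 4 * a 5 * (b 1 * b 3 * b 5) = b 0 * b 4 * b 5 * (a 1 * a 3 * a 5))
    (e02 : a 0 * a 4 * a 5 * (b 2 * b 3 * b 4) = b 0 * b 4 * b 5 * (a 2 * a 3 * a 4))
    (e12 : a 1 * a 3 * a 5 * (b 2 * b 3 * b 4) = b 1 * b 3 * b 5 * (a 2 * a 3 * a 4)) : a = b := by
  have cop : ∀ {a : Fin 6 → F[X]}, (∀ i j, i ≠ j → IsCoprime (a i) (a j)) → ∀ i j k l,
      i ≠ k → i ≠ l → j ≠ k → j ≠ l → IsCoprime (a i * a j) (a k * a l) :=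
    fun c i j k l h1 h2 h3 h4 => ((c _ _ h1).mul_right (c _ _ h2)).mul_left
      ((c _ _ h3).mul_right (c _ _ h4))
  have n : ∀ i, a i * b i ≠ 0 := fun i => mul_ne_zero (ha i).ne_zero (hb i).ne_zero
  have key : ∀ i j k l, i ≠ k → i ≠ l → j ≠ k → j ≠ l →
      a i * a j * (b k * b l) = b i * b j * (a k * a l) → a i * a j = b i * b j :=
    fun i j k l h1 h2 h3 h4 e => eq_of_cross ((ha i).mul (ha j)) ((hb i).mul (hb j))
      (cop ca i j k l h1 h2 h3 h4) (cop cb i j k l h1 h2 h3 h4) e
  have f04 := key 0 4 1 3 (by decide) (by decide) (by decide) (by decide)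
    (mul_right_cancel₀ (n 5) (by linear_combination e01))
  have f13 := key 1 3 0 4 (by decide) (by decide) (by decide) (by decide)
    (mul_right_cancel₀ (n 5) (by linear_combination -e01))
  have f05 := key 0 5 2 3 (by decide) (by decide) (by decide) (by decide)
    (mul_right_cancel₀ (n 4) (by linear_combination e02))
  have f23 := key 2 3 0 5 (by decide) (by decide) (by decide) (by decide)
    (mul_right_cancel₀ (n 4) (by linear_combination -e02))
  have f15 := key 1 5 2 4 (by decide) (by decide) (by decide) (by decide)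
    (mul_right_cancel₀ (n 3) (by linear_combination e12))
  have f24 := key 2 4 1 5 (by decide) (by decide) (by decide) (by decide)
    (mul_right_cancel₀ (n 3) (by linear_combination -e12))
  have g0 := eq_of_two (ha 0) (hb 0) (ca 4 5 (by decide)) (cb 4 5 (by decide)) f04 f05
  have g1 := eq_of_two (ha 1) (hb 1) (ca 3 5 (by decide)) (cb 3 5 (by decide)) f13 f15
  have g2 := eq_of_two (ha 2) (hb 2) (ca 3 4 (by decide)) (cb 3 4 (by decide)) f23 f24
  rw [g0] at f04 f05
  rw [g1] at f13
  ext1 i
  fin_cases i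
  · exact g0
  · exact g1
  · exact g2
  · exact mul_left_cancel₀ (hb 1).ne_zero f13
  · exact mul_left_cancel₀ (hb 0).ne_zero f04
  · exact mul_left_cancel₀ (hb 0).ne_zero f05

lemma summable_poly {σ : ℝ} (hσ : 1 < σ) :
    Summable fun p : F[X] => (Fintype.card F : ℝ) ^ (-σ * p.natDegree) := by
  classical
  have hq : (1 : ℝ) < Fintype.card F := by exact_mod_cast Fintype.one_lt_card
  set q : ℝ := (Fintype.card F : ℝ) with hqd
  have hr : q ^ (1 - σ) < 1 := Real.rpow_lt_one_of_one_lt_of_neg hq (by linarith)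
  refine summable_of_sum_le (fun p => by positivity) (c := q * (1 - q ^ (1 - σ))⁻¹) fun s => ?_
  rw [← Finset.sum_fiberwise_of_maps_to (t := s.image natDegree) (g := natDegree)
    fun p hp => Finset.mem_image_of_mem _ hp]
  calc _ ≤ ∑ n ∈ s.image natDegree, q * (q ^ (1 - σ)) ^ n := by
        refine Finset.sum_le_sum fun n _ => ?_
        have h1 : (s.filter fun p => p.natDegree = n).card ≤ Fintype.card F ^ (n + 1) := by
          have : (s.filter fun p => p.natDegree = n).card ≤
              (Finset.univ : Finset (Fin (n + 1) → F)).card := by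
            refine Finset.card_le_card_of_injOn (fun p i => p.coeff i) (fun _ _ => by simp) ?_
            intro p hp p' hp' h
            have hp1 := (Finset.mem_filter.1 hp).2
            have hp2 := (Finset.mem_filter.1 hp').2
            ext i
            by_cases hi : i < n + 1
            · exact congrFun h ⟨i, hi⟩
            · rw [coeff_eq_zero_of_natDegree_lt (by omega), coeff_eq_zero_of_natDegree_lt (by omega)]
          simpa using this
        rw [Finset.sum_congr rfl (g := fun _ => q ^ (-σ * n)) fun p hp => by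
          rw [(Finset.mem_filter.1 hp).2], Finset.sum_const, nsmul_eq_mul]
        calc _ ≤ q ^ (n + 1) * q ^ (-σ * n) := by
              gcongr
              rw [hqd]
              exact_mod_cast h1
          _ = _ := by
              rw [← Real.rpow_natCast (q ^ (1 - σ)), ← Real.rpow_mul (by positivity), pow_succ,
                ← Real.rpow_natCast, mul_comm _ q, mul_assoc, ← Real.rpow_add (by positivity)]
              congr 2; ring
    _ ≤ _ := by
        rw [← Finset.mul_sum]
        gcongr
        rw [← tsum_geometric_of_lt_one (by positivity) hr]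
        exact (summable_geometric_of_lt_one (by positivity) hr).sum_le_tsum _
          fun _ _ => by positivity

lemma summable_ratFunc {σ : ℝ} (hσ : 1 < σ) :
    Summable fun c : RatFunc F => (Fintype.card F : ℝ) ^
      (-σ * (2 * max c.denom.natDegree c.num.natDegree : ℕ)) := by
  have hq : (1 : ℝ) < Fintype.card F := by exact_mod_cast Fintype.one_lt_card
  have h := (summable_poly (F := F) hσ).mul_of_nonneg (summable_poly (F := F) hσ)
    (fun _ => by positivity) (fun _ => by positivity)
  have hinj : Function.Injective fun c : RatFunc F => (c.denom, c.num) := by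
    intro c c' h
    simp only [Prod.mk.injEq] at h
    rw [← c.num_div_denom, ← c'.num_div_denom, h.1, h.2]
  refine Summable.of_nonneg_of_le (fun _ => by positivity) (fun c => ?_) (h.comp_injective hinj)
  simp only [Function.comp]
  rw [← Real.rpow_add (by positivity)]
  refine Real.rpow_le_rpow_of_exponent_le hq.le ?_
  have h1 : (c.denom.natDegree : ℝ) + c.num.natDegree ≤
      (2 * max c.denom.natDegree c.num.natDegree : ℕ) := by
    exact_mod_cast (by omega : c.denom.natDegree + c.num.natDegree ≤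
      2 * max c.denom.natDegree c.num.natDegree)
  nlinarith

end Pool.Agent.Lib.MP_dd9c4c_nt
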