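import Mathlib
import Pool.Agent.Lib.MP_dd9c4c_nt.Canon

set_option linter.unusedSectionVars false
set_option linter.unusedSimpArgs false
set_option linter.unusedVariables false
set_option linter.style.haveILetI false

namespace Pool.Agent.Lib.MP_dd9c4c_nt

open MvPolynomial

variable {k : ℕ} {K : Type} [Field K]

lemma aeval_smul_hom {ι R : Type} [CommRing R] [Algebra K R] {G : MvPolynomial ι K} {n : ℕ}
    (hG : G.IsHomogeneous n) (c : R) (x : ι → R) :
    aeval (fun i => c * x i) G = c ^ n * aeval x G := by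
  conv_lhs => rw [G.as_sum]
  conv_rhs => rw [G.as_sum]
  rw [map_sum, map_sum, Finset.mul_sum]
  refine Finset.sum_congr rfl fun d hd => ?_
  rw [aeval_monomial, aeval_monomial, hG.degree_eq_sum_deg_support hd, Finsupp.prod, Finsupp.prod,
    ← Finset.prod_pow_eq_pow_sum]
  simp only [mul_pow, Finset.prod_mul_distrib]
  ring

lemma map_mon {R S Φ : Type} [CommRing R] [CommRing S] [FunLike Φ R S] [RingHomClass Φ R S] (φ : Φ)
    (h : Var k → R) (f : II k) : φ (mon h f) = mon (fun v => φ (h v)) f := by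
  simp [mon]

lemma one_mem_Ex : (1 : AddMonoidAlgebra K (Var k → ℤ)) ∈ Sup K (Ex bk ∅ 0) :=
  mono_mem (a := 0) ⟨fun _ _ => le_rfl, map_zero _⟩

lemma prod_mem_Ex {γ : Type} (s : Finset γ) (f : γ → AddMonoidAlgebra K (Var k → ℤ))
    (d : γ → Fin 4 → ℤ) (h : ∀ i ∈ s, f i ∈ Sup K (Ex bk ∅ (d i))) :
    ∏ i ∈ s, f i ∈ Sup K (Ex bk ∅ (∑ i ∈ s, d i)) := by
  classical
  induction s using Finset.induction_on with
  | empty => simpa using one_mem_Ex
  | insert a s ha ih =>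
    rw [Finset.prod_insert ha, Finset.sum_insert ha]
    exact Ex_mul (h a (Finset.mem_insert_self _ _)) (ih fun i hi => h i (Finset.mem_insert_of_mem hi))

lemma mon_hom {G : MvPolynomial (II k) K} {n : ℕ} (hG : G.IsHomogeneous n) :
    toL (aeval (mon (X : Var k → MvPolynomial (Var k) K)) G) ∈
      Sup K (Ex bk ∅ (n • ∑ s : Slot k, Pi.single (bs s) 1)) := by
  have h1 : ∀ f : II k, toL (mon (X : Var k → MvPolynomial (Var k) K) f) ∈
      Sup K (Ex bk ∅ (∑ s : Slot k, Pi.single (bs s) 1)) := by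
    intro f
    rw [map_mon, mon]
    refine prod_mem_Ex _ _ _ fun s _ => ?_
    rw [toL_X, ← f.2 s]
    exact X_mem _
  rw [G.as_sum, map_sum, map_sum]
  refine Submodule.sum_mem _ fun d hd => ?_
  rw [aeval_monomial, ← Algebra.smul_def, map_smul, Finsupp.prod, map_prod,
    hG.degree_eq_sum_deg_support hd, Finset.sum_smul]
  refine Submodule.smul_mem _ _ (prod_mem_Ex _ _ _ fun f _ => ?_)
  rw [map_pow, ← Finset.card_range (d f), ← Finset.prod_const, ← Finset.sum_const]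
  exact prod_mem_Ex _ _ _ fun _ _ => h1 f

lemma aeval_mon {R : Type} [CommRing R] [Algebra K R] (h : Var k → R) (G : MvPolynomial (II k) K) :
    aeval h (aeval (mon (X : Var k → MvPolynomial (Var k) K)) G) = aeval (mon h) G := by
  rw [← AlgHom.comp_apply, comp_aeval]
  simp only [map_mon, aeval_X]

lemma vanish {G : MvPolynomial (II k) K} {n : ℕ} (hG : G.IsHomogeneous n)
    (h0 : aeval (xi k K) G = 0) {R : Type} [CommRing R] [Algebra K R] {h : Var k → R}
    (hq : qv h = 0) : aeval (mon h) G = 0 := by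
  obtain ⟨P, hP⟩ := hs.ker _ _ (mon_hom hG) (by rw [aeval_mon, h0])
  rw [← aeval_mon, hP, map_mul, aeval_QQ, hq, zero_mul]

lemma rep_mk {ι : Type} (v : ι → K) (hv : v ≠ 0) :
    ∃ c : K, c ≠ 0 ∧ (Projectivization.mk K v hv).rep = fun i => c * v i := by
  obtain ⟨a, ha⟩ := Projectivization.exists_smul_eq_mk_rep K v hv
  exact ⟨a, a.ne_zero, ha ▸ rfl⟩

lemma eval_mk_ne {ι : Type} {v : ι → K} (hv : v ≠ 0) {G : MvPolynomial ι K} {n : ℕ}
    (hG : G.IsHomogeneous n) :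
    eval (Projectivization.mk K v hv).rep G ≠ 0 ↔ aeval v G ≠ 0 := by
  obtain ⟨c, hc, e⟩ := rep_mk v hv
  rw [e, ← aeval_eq_eval, aeval_smul_hom hG]
  exact ⟨right_ne_zero_of_mul, mul_ne_zero (pow_ne_zero _ hc)⟩

lemma mk_mem_pts {h : Var k → K} (hq : qv h = 0) (hv : (mon h : II k → K) ≠ 0) :
    Projectivization.mk K (mon h) hv ∈ pts K (xi k K) := by
  intro n G hG h0
  by_contra hne
  exact (eval_mk_ne hv hG).1 hne (vanish hG h0 hq)

lemma pts_rep {x : Projectivization K (II k → K)} (hx : x ∈ pts K (xi k K)) :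
    ∃ (h : Var k → K) (c : K), qv h = 0 ∧ x.rep = fun f => c * mon h f := by
  obtain ⟨f0, hf0⟩ := Function.ne_iff.1 x.rep_nonzero
  simp only [Pi.zero_apply] at hf0
  let up : Var k → II k := fun v => upd f0 (slv k (bk v)) v (bs_slv _).symm
  let f1 : II k := ⟨fun s => f0.1 (slv k (bs s)), fun s => by rw [f0.2, bs_slv]⟩
  have hup : ∀ v, xi k K (up v) = xi k K f0 * (gg k K v / gg k K (f0.1 (slv k (bk v)))) := by
    intro v
    rw [← mul_div_assoc, eq_div_iff (gg_ne _)]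
    exact mon_upd _ _ _ _ _
  refine ⟨fun v => x.rep (up v) / x.rep f0, x.rep f1, ?_, ?_⟩
  · have h1 := hx 4 (qv fun v => X (up v)) (by
      refine IsHomogeneous.sum _ _ _ fun p _ => ?_
      exact (isHomogeneous_X _ _).mul ((isHomogeneous_X _ _).mul (isHomogeneous_X_pow _ 2))) (by
      rw [map_qv]
      simp only [aeval_X, hup]
      have := Ch.qv_div (gg k K) (fun b => gg k K (f0.1 (slv k b)) / xi k K f0)
      rw [qv_gg, zero_div] at this
      rw [← this]
      congr 1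
      ext v
      rw [div_div_eq_mul_div]; ring)
    rw [map_qv] at h1
    simp only [eval_X] at h1
    rw [Ch.qv_div (fun v => x.rep (up v)) (fun _ => x.rep f0), h1, zero_div]
  · ext f
    have h1 := hx (Fintype.card (Slot k) + 1)
      ((∏ s, X (up (f.1 s))) * X f1 - X f0 ^ Fintype.card (Slot k) * X f) (by
      refine IsHomogeneous.sub (IsHomogeneous.mul ?_ (isHomogeneous_X _ _))
        ((isHomogeneous_X_pow _ _).mul (isHomogeneous_X _ _))
      have := IsHomogeneous.prod Finset.univ (fun s => (X (up (f.1 s)) : MvPolynomial (II k) K))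
        (fun _ => 1) fun s _ => isHomogeneous_X _ _
      simpa using this) (by
      simp only [map_sub, map_mul, map_prod, map_pow, aeval_X, hup, Finset.prod_mul_distrib,
        Finset.prod_const, Finset.card_univ, Finset.prod_div_distrib, f.2]
      have : xi k K f1 = ∏ s, gg k K (f0.1 (slv k (bs s))) := rfl
      rw [← this, mul_assoc, div_mul_cancel₀ _ (mon_ne gg_ne f1)]
      exact sub_self _)
    simp only [map_sub, map_mul, map_prod, map_pow, eval_X] at h1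
    simp only [mon, Finset.prod_div_distrib, Finset.prod_const, Finset.card_univ]
    field_simp
    linear_combination -h1

/-- Parameters of the fibre. -/
abbrev Lam (k : ℕ) : Type := Fin 3 ⊕ (Fin 2 × Fin 2) ⊕ Fin (k + 1)

section
variable {R : Type} [CommRing R]

/-- Toric coordinates. -/
def tX (a : Fin 6 → R) : Fin 3 → R := ![a 0 * a 4 * a 5, a 1 * a 3 * a 5, a 2 * a 3 * a 4]

/-- Conics. -/
def tE (a : Fin 6 → R) : Fin 2 → R := ![a 2 * (a 1 * a 3 - a 0 * a 4), a 1 * (a 2 * a 3 - a 0 * a 5)]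

/-- The parametrisation. -/
def Psi (l : Lam k → R) (a : Fin 6 → R) : Var k → R :=
  pt (fun b => ![-(l (.inr (.inl (b, 0))) + l (.inr (.inl (b, 1)))) * (l (.inl 1) * l (.inl 2)) ^ 2,
      l (.inr (.inl (b, 0))) * (l (.inl 0) * l (.inl 2)) ^ 2,
      l (.inr (.inl (b, 1))) * (l (.inl 0) * l (.inl 1)) ^ 2])
    ![l (.inr (.inl (1, 0))) * tE a 0 + l (.inr (.inl (1, 1))) * tE a 1,
      -(l (.inr (.inl (0, 0))) * tE a 0 + l (.inr (.inl (0, 1))) * tE a 1)]
    ![l (.inl 0) * (-tX a 0 + tX a 1 + tX a 2), l (.inl 1) * (tX a 0 - tX a 1 + tX a 2),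
      l (.inl 2) * (tX a 0 + tX a 1 - tX a 2)]
    fun j => l (.inr (.inr j))

lemma qv_Psi (l : Lam k → R) (a : Fin 6 → R) : qv (Psi l a) = 0 := by
  simp [qv_eq, Psi, tX, tE]
  ring

lemma map_Psi {S Φ : Type} [CommRing S] [FunLike Φ R S] [RingHomClass Φ R S] (φ : Φ)
    (l : Lam k → R) (a : Fin 6 → R) (v : Var k) :
    φ (Psi l a v) = Psi (fun i => φ (l i)) (fun i => φ (a i)) v := by
  revert v
  simp [var_forall, Fin.forall_fin_succ, Psi, tX, tE]

end

lemma psi_dom (h2 : (2 : K) ≠ 0) {E : Type} [Field E] [IsAlgClosed E] [Algebra K E] (g : Var k → E)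
    (hq : qv g = 0) (hu : g (vu 0) = 1)
    (h0 : g (vw 0 1) * g (vw 1 2) - g (vw 0 2) * g (vw 1 1) ≠ 0)
    (h1 : g (vw 0 2) * g (vw 1 0) - g (vw 0 0) * g (vw 1 2) ≠ 0)
    (h2' : g (vw 0 0) * g (vw 1 1) - g (vw 0 1) * g (vw 1 0) ≠ 0)
    (hT : g (vw 1 0) * g (vx 0) ^ 2 + g (vw 1 1) * g (vx 1) ^ 2 + g (vw 1 2) * g (vx 2) ^ 2 ≠ 0) :
    ∃ (l : Lam k → E) (a : Fin 6 → E) (κ : Fin 4 → E), (∀ i, l (.inl i) ≠ 0) ∧ (∀ b, κ b ≠ 0) ∧
      ∀ v, Psi l a v = κ (bk v) * g v := by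
  obtain ⟨p0, e0⟩ := IsAlgClosed.exists_pow_nat_eq
    (g (vw 0 1) * g (vw 1 2) - g (vw 0 2) * g (vw 1 1)) two_pos
  obtain ⟨p1, e1⟩ := IsAlgClosed.exists_pow_nat_eq
    (g (vw 0 2) * g (vw 1 0) - g (vw 0 0) * g (vw 1 2)) two_pos
  obtain ⟨p2, e2⟩ := IsAlgClosed.exists_pow_nat_eq
    (g (vw 0 0) * g (vw 1 1) - g (vw 0 1) * g (vw 1 0)) two_pos
  have n0 : p0 ≠ 0 := by rintro rfl; exact h0 (by rw [← e0]; simp)
  have n1 : p1 ≠ 0 := by rintro rfl; exact h1 (by rw [← e1]; simp)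
  have n2 : p2 ≠ 0 := by rintro rfl; exact h2' (by rw [← e2]; simp)
  have t2 : (2 : E) ≠ 0 := by
    have := (map_ne_zero (algebraMap K E)).2 h2
    rwa [map_ofNat] at this
  have t4 : (4 : E) ≠ 0 := by
    have := mul_ne_zero t2 t2
    norm_num at this
    exact this
  obtain ⟨y0, hy0⟩ : ∃ y, g (vx 0) = p0 * (2 * y) := ⟨g (vx 0) / p0 / 2, by field_simp⟩
  obtain ⟨y1, hy1⟩ : ∃ y, g (vx 1) = p1 * (2 * y) := ⟨g (vx 1) / p1 / 2, by field_simp⟩
  obtain ⟨y2, hy2⟩ : ∃ y, g (vx 2) = p2 * (2 * y) := ⟨g (vx 2) / p2 / 2, by field_simp⟩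
  have s0 : g (vw 0 0) * p0 ^ 2 + g (vw 0 1) * p1 ^ 2 + g (vw 0 2) * p2 ^ 2 = 0 := by
    rw [e0, e1, e2]; ring
  have s1 : g (vw 1 0) * p0 ^ 2 + g (vw 1 1) * p1 ^ 2 + g (vw 1 2) * p2 ^ 2 = 0 := by
    rw [e0, e1, e2]; ring
  rw [qv_eq, hu, hy0, hy1, hy2] at hq
  obtain ⟨T, hT'⟩ : ∃ T, g (vw 1 0) * g (vx 0) ^ 2 + g (vw 1 1) * g (vx 1) ^ 2 +
      g (vw 1 2) * g (vx 2) ^ 2 = 4 * T := ⟨_, (mul_div_cancel₀ _ t4).symm⟩
  have hT0 : T ≠ 0 := by rintro rfl; exact hT (by rw [hT']; simp)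
  rw [hy0, hy1, hy2] at hT'
  have hT'' : g (vw 1 0) * (p0 * y0) ^ 2 + g (vw 1 1) * (p1 * y1) ^ 2 +
      g (vw 1 2) * (p2 * y2) ^ 2 = T := mul_left_cancel₀ t4 (by linear_combination hT')
  have hq' : g (vw 0 0) * (p0 * y0) ^ 2 + g (vw 0 1) * (p1 * y1) ^ 2 +
      g (vw 0 2) * (p2 * y2) ^ 2 = -(T * g (vu 1)) :=
    mul_left_cancel₀ t4 (by linear_combination hq - g (vu 1) * hT')
  refine ⟨Sum.elim ![p0, p1, p2] (Sum.elim (fun q => ![g (vw q.1 1) * p1 ^ 2,
    g (vw q.1 2) * p2 ^ 2] q.2) fun j => g (vz j)), ![y1 + y2, y0 + y2, y0 + y1, 1, 1, 1],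
    ![(p0 * p1 * p2) ^ 2, -T, 1, 1], ?_, ?_, ?_⟩
  · simp [Fin.forall_fin_succ, n0, n1, n2]
  · simp [Fin.forall_fin_succ, n0, n1, n2, hT0]
  · simp only [var_forall, Fin.forall_fin_succ, Psi, tX, tE]
    simp [hu, hy0, hy1, hy2]
    refine ⟨⟨⟨?_, ?_, ?_⟩, ?_, ?_, ?_⟩, ⟨?_, ?_⟩, ?_, ?_, ?_⟩
    · linear_combination (-(p1 * p2) ^ 2) * s0
    · ring
    · ring
    · linear_combination (-(p1 * p2) ^ 2) * s1
    · ring
    · ring
    · linear_combination y0 ^ 2 * s1 - hT''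
    · linear_combination hq' - y0 ^ 2 * s0
    · exact Or.inl (by ring)
    · exact Or.inl (by ring)
    · exact Or.inl (by ring)

lemma aeval_alg {σ A B : Type} [CommRing A] [CommRing B] [Algebra K A] [Algebra K B] [Algebra A B]
    [IsScalarTower K A B] (x : σ → A) (P : MvPolynomial σ K) :
    aeval (fun v => algebraMap A B (x v)) P = algebraMap A B (aeval x P) :=
  aeval_algebraMap_apply B x P

lemma exists_par' (E : Type) [Field E] [Algebra (LL k K) E] [Algebra K E]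
    [IsScalarTower K (LL k K) E] [IsAlgClosed E] (h2 : (2 : K) ≠ 0) {S : Set K} 
    (hS : S.Infinite) {G : MvPolynomial (II k) K}
    {n : ℕ} (hG : G.IsHomogeneous n) (h0 : aeval (xi k K) G ≠ 0) :
    ∃ (l : Lam k → K) (a : Fin 6 → K), (∀ i, l i ∈ S) ∧ (∀ i, l (.inl i) ≠ 0) ∧
      aeval (mon (Psi l a)) G ≠ 0 := by
  let g : Var k → E := fun v => algebraMap (LL k K) E (gg k K v)
  have key : ∀ P : MvPolynomial (Var k) K,
      aeval (pt ![![-1, 0, 1], ![1, 1, 0]] 1 ![1, 0, 0] 1 : Var k → K) P ≠ 0 → aeval g P ≠ 0 := by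
    intro P hP h
    refine hP (spec_gg (by simp [qv_eq]) (fun b => by fin_cases b <;> simp [cs]) ?_)
    rw [aeval_alg, map_eq_zero] at h
    exact h
  obtain ⟨l, a, κ, hl, hκ, e⟩ := psi_dom h2 g
    (by rw [← map_qv, qv_gg, map_zero]) (by
      have := gg_cv (k := k) (K := K) 1
      simp only [Ch.cv1, cs] at this
      simp [g, this])
    (by
      have := key (X (vw 0 1) * X (vw 1 2) - X (vw 0 2) * X (vw 1 1)) (by simp)
      rwa [map_sub, map_mul, map_mul, aeval_X, aeval_X, aeval_X, aeval_X] at this)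
    (by
      have := key (X (vw 0 2) * X (vw 1 0) - X (vw 0 0) * X (vw 1 2)) (by simp)
      rwa [map_sub, map_mul, map_mul, aeval_X, aeval_X, aeval_X, aeval_X] at this)
    (by
      have := key (X (vw 0 0) * X (vw 1 1) - X (vw 0 1) * X (vw 1 0)) (by simp)
      rwa [map_sub, map_mul, map_mul, aeval_X, aeval_X, aeval_X, aeval_X] at this)
    (by
      have := key (X (vw 1 0) * X (vx 0) ^ 2 + X (vw 1 1) * X (vx 1) ^ 2 +
        X (vw 1 2) * X (vx 2) ^ 2) (by simp)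
      simpa only [map_add, map_mul, map_pow, aeval_X] using this)
  let H : MvPolynomial (Lam k ⊕ Fin 6) K :=
    aeval (mon (Psi (fun i => X (.inl i)) (fun i => X (.inr i)))) G * ∏ i, X (.inl (.inl i))
  have hH : ∀ {R : Type} [CommRing R] [Algebra K R] (x : Lam k ⊕ Fin 6 → R), aeval x H =
      aeval (mon (Psi (fun i => x (.inl i)) (fun i => x (.inr i)))) G * ∏ i, x (.inl (.inl i)) := by
    intro R _ _ x
    simp only [H, map_mul, map_prod, aeval_X]
    rw [← AlgHom.comp_apply, comp_aeval]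
    simp only [map_mon, map_Psi, aeval_X]
  have hH0 : H ≠ 0 := by
    intro h
    have := hH (Sum.elim l a)
    rw [h, map_zero] at this
    refine mul_ne_zero ?_ (Finset.prod_ne_zero_iff.2 fun i _ => hl i) this.symm
    have e2 : (mon (Psi (fun i => Sum.elim l a (.inl i)) (fun i => Sum.elim l a (.inr i))) :
        II k → E) = fun f => (∏ s : Slot k, κ (bs s)) * algebraMap (LL k K) E (xi k K f) := by
      ext f
      simp only [Sum.elim_inl, Sum.elim_inr, mon, e, f.2, Finset.prod_mul_distrib, map_prod, g]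
    rw [e2, aeval_smul_hom hG, aeval_alg]
    exact mul_ne_zero (pow_ne_zero _ (Finset.prod_ne_zero_iff.2 fun s _ => hκ _))
      ((map_ne_zero _).2 h0)
  obtain ⟨x, hx, hx0⟩ : ∃ x ∈ Set.pi Set.univ (fun _ : Lam k ⊕ Fin 6 => S), eval x H ≠ 0 := by
    by_contra! h
    exact hH0 (funext_set (fun _ => S) (fun _ => hS) fun x hx => by rw [h x hx, map_zero])
  rw [← aeval_eq_eval, hH] at hx0
  exact ⟨_, _, fun i => hx _ trivial,
    fun i => Finset.prod_ne_zero_iff.1 (right_ne_zero_of_mul hx0) i (Finset.mem_univ _),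
    left_ne_zero_of_mul hx0⟩

lemma exists_par (h2 : (2 : K) ≠ 0) {S : Set K} (hS : S.Infinite) {G : MvPolynomial (II k) K}
    {n : ℕ} (hG : G.IsHomogeneous n) (h0 : aeval (xi k K) G ≠ 0) :
    ∃ (l : Lam k → K) (a : Fin 6 → K), (∀ i, l i ∈ S) ∧ (∀ i, l (.inl i) ≠ 0) ∧
      aeval (mon (Psi l a)) G ≠ 0 :=
  exists_par' (AlgebraicClosure (LL k K)) h2 hS hG h0

instance : Nonempty (II k) := ⟨(cs k).idx⟩

lemma exists_pt [Infinite K] (h2 : (2 : K) ≠ 0) {G : MvPolynomial (II k) K}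
    {n : ℕ} (hG : G.IsHomogeneous n) (h0 : aeval (xi k K) G ≠ 0) :
    ∃ h : Var k → K, qv h = 0 ∧ (mon h : II k → K) ≠ 0 ∧ aeval (mon h) G ≠ 0 := by
  obtain ⟨l, a, -, -, h⟩ := exists_par h2 Set.infinite_univ (hG.mul (isHomogeneous_X K (cs k).idx))
    (by rw [map_mul, aeval_X]; exact mul_ne_zero h0 (mon_ne gg_ne _))
  rw [map_mul, aeval_X] at h
  exact ⟨_, qv_Psi l a, fun e => right_ne_zero_of_mul h (congrFun e _), left_ne_zero_of_mul h⟩

lemma neg_cond (d : Fin 4 → ℤ) (h0 : -6 < d 0) (h1 : -2 < d 1) (h2 : -3 < d 2) (h3 : -1 < d 3)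
    (a : Var k → ℤ) (ha : dg bk a = d) (v : Var k) (hv : a v < 0) :
    ∃ w, bk w = bk v ∧ 0 ≤ a w := by
  by_contra! h
  have e := congrFun ha (bk v)
  have hle : dg bk a (bk v) ≤ ∑ w : Var k, if bk w = bk v then -1 else 0 := by
    rw [dg_apply]
    refine Finset.sum_le_sum fun w _ => ?_
    split_ifs with hw
    · have := h w hw; omega
    · rfl
  rw [e] at hle
  rcases v with p | b | i | j <;> simp [Fintype.sum_sum_type] at hle <;> omega

theorem hyp [Infinite K] (h2 : (2 : K) ≠ 0) : Hyp K (xi k K) where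
  ne := mon_ne gg_ne
  gen := by
    rw [eq_top_iff]
    intro x _
    obtain ⟨a, b, hb, rfl⟩ := IsFractionRing.div_surjective (A := MvPolynomial (cs k).Free K) x
    have key : ∀ F : MvPolynomial (cs k).Free K, algebraMap _ (LL k K) F ∈
        IntermediateField.adjoin K {z | ∃ i j, z = xi k K i / xi k K j} := by
      intro F
      have h1 : algebraMap _ (LL k K) F ∈ chart K (xi k K) (pd h2).f0 := by
        rw [chart_eq gg_ne, (pd h2).range_f0]
        exact mem_base.2 ⟨F, rfl⟩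
      refine IntermediateField.algebra_adjoin_le_adjoin _ _ (Algebra.adjoin_mono ?_ h1)
      rintro _ ⟨j, rfl⟩
      exact ⟨_, _, rfl⟩
    exact div_mem (key a) (key b)
  smooth := fun f => by
    rw [chart_eq gg_ne]
    exact smooth_rg ((pd h2).meets f)
  geom := geom_frac (cs k).Free _ _
  canon := canon_xi
  h1 := hs.h1 (fun b => ⟨_, bs_slv b⟩) (neg_cond _ (by simp) (by simp) (by simp) (by simp))
    (neg_cond _ (by simp [dQQ]) (by simp [dQQ]) (by simp [dQQ]) (by simp [dQQ]))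
  h2 := hs.h2 (fun b => ⟨_, bs_slv b⟩) (neg_cond _ (by simp) (by simp) (by simp) (by simp))
    (neg_cond _ (by simp [dQQ]) (by simp [dQQ]) (by simp [dQQ]) (by simp [dQQ]))
  dense := by
    intro n G hG h
    by_contra h0
    obtain ⟨p, hq, hv, hp⟩ := exists_pt h2 hG h0
    exact (eval_mk_ne hv hG).2 hp (h _ (mk_mem_pts hq hv))

end Pool.Agent.Lib.MP_dd9c4c_nt
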