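import Mathlib
import Pool.Agent.Lib.MP_dd9c4c_nt.Points
import Pool.Agent.Lib.MP_dd9c4c_nt.Count

set_option linter.unusedSectionVars false
set_option linter.unusedSimpArgs false
set_option linter.unusedVariables false

namespace Pool.Agent.Lib.MP_dd9c4c_nt

open Polynomial

variable {F : Type} [Field F] {ι : Type}

lemma height_le {x : Projectivization (RatFunc F) (ι → RatFunc F)} {P : ι → F[X]} {c : RatFunc F}
    {n : ℕ} (h : x.rep = fun i => c * algebraMap F[X] _ (P i)) (hP : ∀ i, (P i).natDegree ≤ n) :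
    height F x ≤ n := Nat.sInf_le ⟨P, c, h, hP⟩

lemma exists_primitive [Fintype ι] (x : Projectivization (RatFunc F) (ι → RatFunc F)) :
    ∃ (P r : ι → F[X]) (c : RatFunc F), (x.rep = fun i => c * algebraMap F[X] _ (P i)) ∧
      ∑ i, r i * P i = 1 := by
  classical
  obtain ⟨b, hb⟩ := IsLocalization.exist_integer_multiples_of_finite (nonZeroDivisors F[X]) x.rep
  choose P0 hP0 using hb
  have inj := IsFractionRing.injective F[X] (RatFunc F)
  have hb0 : algebraMap F[X] (RatFunc F) b ≠ 0 :=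
    (map_ne_zero_iff _ inj).2 (nonZeroDivisors.ne_zero b.2)
  obtain ⟨g, hg⟩ := (IsPrincipalIdealRing.principal (Ideal.span (Set.range P0))).principal
  have h1 : ∀ i, ∃ p, P0 i = g * p := fun i => Ideal.mem_span_singleton.1 (by
    rw [← Ideal.submodule_span_eq, ← hg]; exact Ideal.subset_span ⟨i, rfl⟩)
  choose P hP using h1
  obtain ⟨r, hr⟩ := Ideal.mem_span_range_iff_exists_fun.1
    (show g ∈ Ideal.span (Set.range P0) from hg ▸ Submodule.mem_span_singleton_self g)
  have e : x.rep = fun i => (algebraMap F[X] _ g / algebraMap F[X] (RatFunc F) b) *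
      algebraMap F[X] _ (P i) := by
    ext i
    have := hP0 i
    rw [hP, map_mul, Algebra.smul_def] at this
    field_simp
    rw [this, mul_comm]
  have hg0 : g ≠ 0 := by
    rintro rfl
    exact x.rep_nonzero (by rw [e]; ext i; simp)
  refine ⟨P, r, _, e, mul_left_cancel₀ hg0 ?_⟩
  rw [mul_one, Finset.mul_sum]
  conv_rhs => rw [← hr]
  exact Finset.sum_congr rfl fun i _ => by rw [hP]; ring

lemma height_spec [Fintype ι] (x : Projectivization (RatFunc F) (ι → RatFunc F)) :
    ∃ (P : ι → F[X]) (c : RatFunc F), (x.rep = fun i => c * algebraMap F[X] _ (P i)) ∧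
      ∀ i, (P i).natDegree ≤ height F x := by
  obtain ⟨P, r, c, h, -⟩ := exists_primitive x
  exact Nat.sInf_mem (s := {n | ∃ (P : ι → F[X]) (c : RatFunc F),
    (x.rep = fun i => c * algebraMap F[X] _ (P i)) ∧ ∀ i, (P i).natDegree ≤ n})
    ⟨Finset.univ.sup fun i => (P i).natDegree, P, c, h,
      fun i => Finset.le_sup (f := fun i => (P i).natDegree) (Finset.mem_univ i)⟩

lemma zeta_eq (z : RatFunc F) (a : Fin 2) : ![1, z] a =
    (algebraMap F[X] (RatFunc F) z.denom)⁻¹ * algebraMap F[X] _ (![z.denom, z.num] a) := by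
  have h : algebraMap F[X] (RatFunc F) z.denom ≠ 0 :=
    (map_ne_zero_iff _ (IsFractionRing.injective F[X] (RatFunc F))).2 z.denom_ne_zero
  fin_cases a
  · simp [h]
  · simp only [Fin.mk_one, Matrix.cons_val_one, Matrix.cons_val_zero]
    rw [inv_mul_eq_div, z.num_div_denom]

variable {ι' : Type} [Fintype ι] [Fintype ι'] {r : ι' → ι} {j1 j2 : ι' → Fin 2}
  {x : Projectivization (RatFunc F) (ι → RatFunc F)}
  {y : Projectivization (RatFunc F) (ι' → RatFunc F)} {z l : RatFunc F}

lemma height_tensor_le (h : y.rep = fun f => l * (x.rep (r f) * (![1, z] (j1 f) * ![1, z] (j2 f)))) :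
    height F y ≤ height F x + 2 * max z.denom.natDegree z.num.natDegree := by
  obtain ⟨P, c, e, hP⟩ := height_spec x
  have hW : ∀ a, (![z.denom, z.num] a).natDegree ≤ max z.denom.natDegree z.num.natDegree := by
    intro a; fin_cases a <;> simp
  refine height_le (P := fun f => P (r f) * (![z.denom, z.num] (j1 f) * ![z.denom, z.num] (j2 f)))
    (c := l * c * (algebraMap F[X] (RatFunc F) z.denom)⁻¹ ^ 2) ?_ fun f => ?_
  · rw [h, e]
    ext f
    simp only [zeta_eq, map_mul]
    ring
  · rw [two_mul]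
    exact natDegree_mul_le_of_le (hP _) (natDegree_mul_le_of_le (hW _) (hW _))

lemma height_tensor_ge (hs : ∀ m a b, ∃ f, r f = m ∧ j1 f = a ∧ j2 f = b)
    (h : y.rep = fun f => l * (x.rep (r f) * (![1, z] (j1 f) * ![1, z] (j2 f)))) :
    height F x + 2 * max z.denom.natDegree z.num.natDegree ≤ height F y := by
  obtain ⟨P, ρ, c, e, hP⟩ := exists_primitive x
  obtain ⟨Y, ν, e', hY⟩ := height_spec y
  choose s hs1 hs2 hs3 using hs
  have inj := IsFractionRing.injective F[X] (RatFunc F)
  have hν : ν ≠ 0 := by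
    rintro rfl
    exact y.rep_nonzero (by rw [e']; ext i; simp)
  set W := ![z.denom, z.num] with hW
  obtain ⟨u, v, huv⟩ := z.isCoprime_num_denom
  have hc : ∑ a, ![v, u] a * W a = 1 := by simp [hW, ← huv, add_comm]
  set κ := l * c * (algebraMap F[X] (RatFunc F) z.denom)⁻¹ ^ 2 / ν with hκ
  have h1 : ∀ f, algebraMap F[X] _ (Y f) = κ * algebraMap F[X] _ (P (r f) * (W (j1 f) * W (j2 f))) := by
    intro f
    have := congrFun (e'.symm.trans h) f
    simp only [e, zeta_eq, ← hW] at this
    rw [hκ, div_mul_eq_mul_div, eq_div_iff hν, mul_comm, this]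
    simp only [map_mul]
    ring
  obtain ⟨κ0, hκ0⟩ : ∃ κ0 : F[X], algebraMap F[X] _ κ0 = κ := by
    refine ⟨∑ m, ∑ a, ∑ b, ρ m * (![v, u] a * ![v, u] b) * Y (s m a b), ?_⟩
    simp only [map_sum, map_mul (algebraMap F[X] (RatFunc F)) _ (Y _), h1, hs1, hs2, hs3]
    have : κ = κ * algebraMap F[X] _ ((∑ i, ρ i * P i) * ((∑ a, ![v, u] a * W a) *
      (∑ a, ![v, u] a * W a))) := by rw [hP, hc]; simp
    conv_rhs => rw [this]
    simp only [Finset.sum_mul_sum, Finset.mul_sum, Finset.sum_mul, map_sum, map_mul]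
    rw [Finset.sum_comm]
    refine Finset.sum_congr rfl fun a _ => ?_
    rw [Finset.sum_comm]
    exact Finset.sum_congr rfl fun b _ => Finset.sum_congr rfl fun m _ => by ring
  have h2 : ∀ f, Y f = κ0 * (P (r f) * (W (j1 f) * W (j2 f))) := fun f =>
    inj (by rw [h1, map_mul _ κ0, hκ0])
  have hκ1 : κ0 ≠ 0 := by
    rintro rfl
    exact y.rep_nonzero (by rw [e']; ext i; simp [h2])
  obtain ⟨a, ha0, ha⟩ : ∃ a, W a ≠ 0 ∧ (W a).natDegree = max z.denom.natDegree z.num.natDegree := by
    rcases le_or_gt z.num.natDegree z.denom.natDegree with h | h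
    · exact ⟨0, z.denom_ne_zero, by simp [hW, h]⟩
    · exact ⟨1, fun h0 => by simp [hW] at h0; simp [h0] at h, by simp [hW, h.le]⟩
  have h3 : ∀ m, P m ≠ 0 → (P m).natDegree + 2 * max z.denom.natDegree z.num.natDegree ≤
      height F y := by
    intro m hm
    have := hY (s m a a)
    rw [h2, hs1, hs2, hs3, natDegree_mul hκ1 (mul_ne_zero hm (mul_ne_zero ha0 ha0)),
      natDegree_mul hm (mul_ne_zero ha0 ha0), natDegree_mul ha0 ha0, ha] at this
    omega
  obtain ⟨m0, hm0⟩ : ∃ m, P m ≠ 0 := by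
    by_contra! h0
    simp [h0] at hP
  have h4 := h3 m0 hm0
  have h5 : height F x ≤ height F y - 2 * max z.denom.natDegree z.num.natDegree := by
    refine height_le e fun m => ?_
    by_cases hm : P m = 0
    · simp [hm]
    · have := h3 m hm
      omega
  omega

end Pool.Agent.Lib.MP_dd9c4c_nt
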