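import Mathlib
import Pool.Agent.Lib.MP_dd9c4c_nt.Height

set_option linter.unusedSectionVars false
set_option linter.unusedSimpArgs false
set_option linter.unusedVariables false

namespace Pool.Agent.Lib.MP_dd9c4c_nt

open Polynomial

variable {F : Type} [Field F]

/-- Degrees of the toric coordinates. -/
def dd (D : ℕ) (b : Fin 4 → ℕ) : Fin 6 → ℕ :=
  ![D + b 0 + b 3, D + b 1 + b 3, D + b 2 + b 3, D + b 0, D + b 1, D + b 2]

lemma sum_dd (D : ℕ) (b : Fin 4 → ℕ) :
    ∑ i, dd D b i = 6 * D + 2 * (b 0 + b 1 + b 2) + 3 * b 3 := by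
  simp [dd, Fin.sum_univ_succ]; ring

lemma deg_mon {l : Lam 0 → F[X]} {C : ℕ} (hl : ∀ i, (l i).natDegree ≤ C) {D : ℕ} {b : Fin 4 → ℕ}
    {a : Fin 6 → F[X]} (ha : ∀ i, (a i).natDegree ≤ dd D b i) (f : II 0) :
    (mon (Psi l a) f).natDegree ≤ 28 * C + ∑ i, dd D b i := by
  have a0 : (a 0).natDegree ≤ D + b 0 + b 3 := ha 0
  have a1 : (a 1).natDegree ≤ D + b 1 + b 3 := ha 1
  have a2 : (a 2).natDegree ≤ D + b 2 + b 3 := ha 2
  have a3 : (a 3).natDegree ≤ D + b 0 := ha 3
  have a4 : (a 4).natDegree ≤ D + b 1 := ha 4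
  have a5 : (a 5).natDegree ≤ D + b 2 := ha 5
  have m3 : ∀ {p q r : F[X]} {i j k n : ℕ}, p.natDegree ≤ i → q.natDegree ≤ j → r.natDegree ≤ k →
      i + j + k ≤ n → (p * q * r).natDegree ≤ n := fun h1 h2 h3 h4 =>
    (natDegree_mul_le_of_le (natDegree_mul_le_of_le h1 h2) h3).trans h4
  have ad : ∀ {p q : F[X]} {n : ℕ}, p.natDegree ≤ n → q.natDegree ≤ n → (p + q).natDegree ≤ n :=
    fun h1 h2 => natDegree_add_le_of_degree_le h1 h2
  have su : ∀ {p q : F[X]} {n : ℕ}, p.natDegree ≤ n → q.natDegree ≤ n → (p - q).natDegree ≤ n :=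
    fun h1 h2 => (natDegree_sub_le_of_le h1 h2).trans (max_self _).le
  have ng : ∀ {p : F[X]} {n : ℕ}, p.natDegree ≤ n → (-p).natDegree ≤ n :=
    fun h1 => natDegree_neg_le_of_le h1
  set eX := 3 * D + (b 0 + b 1 + b 2) + b 3
  have hX : ∀ i, (tX a i).natDegree ≤ eX := by
    intro i
    fin_cases i
    · exact m3 a0 a4 a5 (by omega)
    · exact m3 a1 a3 a5 (by omega)
    · exact m3 a2 a3 a4 (by omega)
  have hE : ∀ i, (tE a i).natDegree ≤ eX + b 3 := by
    intro i
    fin_cases i
    · have : tE a 0 = a 2 * a 1 * a 3 - a 2 * a 0 * a 4 := by simp [tE]; ring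
      exact this ▸ su (m3 a2 a1 a3 (by omega)) (m3 a2 a0 a4 (by omega))
    · have : tE a 1 = a 1 * a 2 * a 3 - a 1 * a 0 * a 5 := by simp [tE]; ring
      exact this ▸ su (m3 a1 a2 a3 (by omega)) (m3 a1 a0 a5 (by omega))
  have sq : ∀ i j, ((l i * l j) ^ 2).natDegree ≤ 2 * (C + C) := fun i j =>
    natDegree_pow_le_of_le 2 (natDegree_mul_le_of_le (hl i) (hl j))
  have hv : ∀ v, (Psi l a v).natDegree ≤ ![5 * C, C + (eX + b 3), C + eX, C] (bk v) := by
    rw [var_forall]
    refine ⟨fun s i => ?_, fun s => ?_, fun i => ?_, fun j => hl _⟩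
    · fin_cases i
      · exact (natDegree_mul_le_of_le (ng (ad (hl _) (hl _))) (sq _ _)).trans (by simp; omega)
      · exact (natDegree_mul_le_of_le (hl _) (sq _ _)).trans (by simp; omega)
      · exact (natDegree_mul_le_of_le (hl _) (sq _ _)).trans (by simp; omega)
    · fin_cases s
      · exact ad (natDegree_mul_le_of_le (hl _) (hE 0)) (natDegree_mul_le_of_le (hl _) (hE 1))
      · exact ng (ad (natDegree_mul_le_of_le (hl _) (hE 0)) (natDegree_mul_le_of_le (hl _) (hE 1)))
    · fin_cases i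
      · exact natDegree_mul_le_of_le (hl _) (ad (ad (ng (hX 0)) (hX 1)) (hX 2))
      · exact natDegree_mul_le_of_le (hl _) (ad (su (hX 0) (hX 1)) (hX 2))
      · exact natDegree_mul_le_of_le (hl _) (su (ad (hX 0) (hX 1)) (hX 2))
  refine (natDegree_prod_le _ _).trans ((Finset.sum_le_sum fun s _ => hv (f.1 s)).trans ?_)
  simp only [f.2, sum_dd]
  simp [Fintype.sum_sum_type, bs]
  omega

lemma mon_ratio {K : Type} [Field K] {k : ℕ} {h h' : Var k → K} {c : K} {f : II k}
    (e : ∀ f : II k, mon h f = c * mon h' f) (h0 : mon h' f ≠ 0) (hc : c ≠ 0) :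
    ∃ μ : K, ∀ i, h (vx i) = μ * h' (vx i) := by
  let s := slv k 2
  have hs : h' (f.1 s) ≠ 0 := Finset.prod_ne_zero_iff.1 h0 s (Finset.mem_univ _)
  refine ⟨h (f.1 s) / h' (f.1 s), fun i => ?_⟩
  have e1 := mon_upd h f s (vx i) rfl
  have e2 := mon_upd h' f s (vx i) rfl
  rw [e, e] at e1
  field_simp
  refine mul_left_cancel₀ (mul_ne_zero hc h0) ?_
  linear_combination (-h' (f.1 s)) * e1 + c * h (f.1 s) * e2

variable [Fintype F]

theorem lower_bound (hq : 61 ≤ Fintype.card F) (h2 : (2 : F) ≠ 0)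
    {G : MvPolynomial (II 0) (RatFunc F)} {m : ℕ} (hG : G.IsHomogeneous m)
    (h0 : MvPolynomial.aeval (xi 0 (RatFunc F)) G ≠ 0) :
    ∃ c : ℝ, 0 < c ∧ ∀ n : ℕ, 1 ≤ n → ∃ A : Finset (Projectivization (RatFunc F)
      (II 0 → RatFunc F)), ↑A ⊆ {x ∈ pts (RatFunc F) (xi 0 (RatFunc F)) |
        MvPolynomial.eval x.rep G ≠ 0} ∧
      c * n ^ 4 ≤ ∑ x ∈ A, (Fintype.card F : ℝ) ^ (-(1 + 1 / n : ℝ) * height F x) := by
  classical
  have inj := IsFractionRing.injective F[X] (RatFunc F)
  have h2' : (2 : RatFunc F) ≠ 0 := by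
    have := (map_ne_zero (algebraMap F (RatFunc F))).2 h2
    rwa [map_ofNat] at this
  set f0 := (cs 0).idx
  have hG' := hG.mul (MvPolynomial.isHomogeneous_X (RatFunc F) f0)
  obtain ⟨l, a0, hl, hl0, ha0⟩ := exists_par h2' (Set.infinite_range_of_injective inj) hG'
    (by rw [map_mul, MvPolynomial.aeval_X]; exact mul_ne_zero h0 (mon_ne gg_ne _))
  choose l0 hl' using hl
  let g : MvPolynomial (Fin 6) (RatFunc F) :=
    MvPolynomial.aeval (mon (Psi (fun i => MvPolynomial.C (l i)) MvPolynomial.X))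
      (G * MvPolynomial.X f0)
  have hg : ∀ a, MvPolynomial.eval a g =
      MvPolynomial.aeval (mon (Psi l a)) (G * MvPolynomial.X f0) := by
    intro a
    rw [← MvPolynomial.aeval_eq_eval, ← AlgHom.comp_apply, MvPolynomial.comp_aeval]
    simp only [map_mon, map_Psi, MvPolynomial.aeval_X, MvPolynomial.aeval_C, Algebra.algebraMap_self,
      RingHom.id_apply]
  have hg0 : g ≠ 0 := fun e => ha0 (by rw [← hg, e, map_zero])
  set D := 4 * ∑ i, g.degreeOf i with hD
  set C := Finset.univ.sup fun i => (l0 i).natDegree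
  have hC : ∀ i, (l0 i).natDegree ≤ C := fun i =>
    Finset.le_sup (f := fun i => (l0 i).natDegree) (Finset.mem_univ i)
  let v : (Fin 6 → F[X]) → II 0 → RatFunc F := fun a =>
    mon (Psi l fun i => algebraMap F[X] _ (a i))
  let P : (Fin 6 → F[X]) → Projectivization (RatFunc F) (II 0 → RatFunc F) := fun a =>
    if h : v a ≠ 0 then .mk _ (v a) h else .mk _ 1 one_ne_zero
  let Good : (Fin 4 → ℕ) → Finset (Fin 6 → F[X]) := fun b => (Box F (dd D b)).filter fun a =>
    (∀ i j, i ≠ j → IsCoprime (a i) (a j)) ∧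
      MvPolynomial.eval (fun i => algebraMap F[X] (RatFunc F) (a i)) g ≠ 0
  have hgood : ∀ b, ∀ a ∈ Good b, (∀ i, (a i).Monic ∧ (a i).natDegree = dd D b i) ∧
      (∀ i j, i ≠ j → IsCoprime (a i) (a j)) ∧ v a f0 ≠ 0 ∧ MvPolynomial.aeval (v a) G ≠ 0 := by
    intro b a ha
    obtain ⟨h1, h3, h4⟩ := Finset.mem_filter.1 ha
    rw [hg, map_mul, MvPolynomial.aeval_X] at h4
    exact ⟨fun i => mem_Mon.1 (Fintype.mem_piFinset.1 h1 i), h3, right_ne_zero_of_mul h4,
      left_ne_zero_of_mul h4⟩
  have hP : ∀ b, ∀ a ∈ Good b, ∃ h : v a ≠ 0, P a = .mk _ (v a) h := by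
    intro b a ha
    have : v a ≠ 0 := fun e => (hgood b a ha).2.2.1 (congrFun e _)
    exact ⟨this, dif_pos this⟩
  have hq' : (1 : ℝ) < Fintype.card F := by exact_mod_cast Fintype.one_lt_card
  set q : ℝ := (Fintype.card F : ℝ) with hqd
  refine ⟨q ^ (-(56 * C + 6 * D + 9 : ℝ)) / 4, by positivity, fun n hn => ?_⟩
  let T := (Fintype.piFinset fun _ : Fin 4 => Finset.range n).sigma Good
  have hinj : Set.InjOn (fun t : (Σ _ : Fin 4 → ℕ, Fin 6 → F[X]) => P t.2) T := by
    rintro ⟨b, a⟩ ht ⟨b', a'⟩ ht' e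
    have ha := (Finset.mem_sigma.1 ht).2
    have ha' := (Finset.mem_sigma.1 ht').2
    obtain ⟨n1, e1⟩ := hP b a ha
    obtain ⟨n2, e2⟩ := hP b' a' ha'
    obtain ⟨g1, g2, g3, -⟩ := hgood b a ha
    obtain ⟨g1', g2', g3', -⟩ := hgood b' a' ha'
    simp only [e1, e2] at e
    obtain ⟨c, hc⟩ := (Projectivization.mk_eq_mk_iff _ _ _ _ _).1 e
    obtain ⟨μ, hμ⟩ := mon_ratio (c := (c : RatFunc F)) (fun f => (congrFun hc f).symm) g3' c.ne_zero
    have x0 := hμ 0
    have x1 := hμ 1
    have x2 := hμ 2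
    simp only [Psi, pt_x, Matrix.cons_val_zero, Matrix.cons_val_one, Matrix.cons_val] at x0 x1 x2
    rw [mul_left_comm] at x0 x1 x2
    have y0 := mul_left_cancel₀ (hl0 0) x0
    have y1 := mul_left_cancel₀ (hl0 1) x1
    have y2 := mul_left_cancel₀ (hl0 2) x2
    have z : ∀ i, tX (fun i => algebraMap F[X] (RatFunc F) (a i)) i =
        μ * tX (fun i => algebraMap F[X] (RatFunc F) (a' i)) i := by
      intro i
      refine mul_left_cancel₀ h2' ?_
      fin_cases i
      · simp only [Fin.zero_eta]; linear_combination y1 + y2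
      · simp only [Fin.mk_one]; linear_combination y0 + y2
      · simp only [Fin.reduceFinMk]; linear_combination y0 + y1
    have z0 := z 0
    have z1 := z 1
    have z2 := z 2
    simp only [tX, Matrix.cons_val_zero, Matrix.cons_val_one, Matrix.cons_val] at z0 z1 z2
    obtain rfl : a = a' := toric_inj (fun i => (g1 i).1) (fun i => (g1' i).1) g2 g2'
      (inj (by simp only [map_mul]; rw [z0, z1]; ring))
      (inj (by simp only [map_mul]; rw [z0, z2]; ring))
      (inj (by simp only [map_mul]; rw [z1, z2]; ring))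
    obtain rfl : b = b' := by
      have d0 := (g1 0).2.symm.trans (g1' 0).2
      have d3 := (g1 3).2.symm.trans (g1' 3).2
      have d4 := (g1 4).2.symm.trans (g1' 4).2
      have d5 := (g1 5).2.symm.trans (g1' 5).2
      simp [dd] at d0 d3 d4 d5
      ext i
      fin_cases i <;> simp <;> omega
    rfl
  refine ⟨T.image fun t => P t.2, ?_, ?_⟩
  · intro x hx
    obtain ⟨⟨b, a⟩, ht, rfl⟩ := Finset.mem_image.1 (Finset.mem_coe.1 hx)
    have ha := (Finset.mem_sigma.1 ht).2
    obtain ⟨n1, e1⟩ := hP b a ha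
    simp only [e1]
    exact ⟨mk_mem_pts (qv_Psi _ _) n1, (eval_mk_ne n1 hG).2 (hgood b a ha).2.2.2⟩
  · rw [Finset.sum_image hinj, Finset.sum_sigma]
    have hn' : (1 : ℝ) ≤ n := by exact_mod_cast hn
    calc _ = ∑ b ∈ Fintype.piFinset fun _ : Fin 4 => Finset.range n,
          q ^ (-(56 * C + 6 * D + 9 : ℝ)) / 4 := by
          simp [mul_comm]
      _ ≤ _ := by
          refine Finset.sum_le_sum fun b hb => ?_
          have hb' : ∀ i, b i < n := fun i => Finset.mem_range.1 (Fintype.mem_piFinset.1 hb i)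
          set N := ∑ i, dd D b i with hN
          have hN' : (N : ℝ) ≤ (6 * D + 9) * n := by
            have : N ≤ (6 * D + 9) * n := by
              rw [hN, sum_dd]
              have := hb' 0
              have := hb' 1
              have := hb' 2
              have := hb' 3
              nlinarith
            exact_mod_cast this
          have h3 := card_good hq inj hg0 (dd D b) fun i => by
            fin_cases i <;> simp [dd, ← hD] <;> omega
          calc _ ≤ q ^ N / 4 * q ^ (-(1 + 1 / n : ℝ) * (28 * C + N : ℕ)) := by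
                rw [div_mul_eq_mul_div, ← Real.rpow_natCast, ← Real.rpow_add (by positivity)]
                gcongr
                · exact hq'.le
                · push_cast
                  have e1 : (N : ℝ) / n ≤ 6 * D + 9 := by rwa [div_le_iff₀ (by positivity)]
                  have e2 : (C : ℝ) / n ≤ C := div_le_self (by positivity) hn'
                  have e3 : -(1 + 1 / n : ℝ) * (28 * C + N) =
                    -(28 * C) - N - 28 * (C / n) - N / n := by ring
                  linarith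
            _ ≤ (Good b).card * q ^ (-(1 + 1 / n : ℝ) * (28 * C + N : ℕ)) := by gcongr
            _ = ∑ a ∈ Good b, q ^ (-(1 + 1 / n : ℝ) * (28 * C + N : ℕ)) := by simp
            _ ≤ _ := by
                refine Finset.sum_le_sum fun a ha => Real.rpow_le_rpow_of_exponent_le hq'.le ?_
                obtain ⟨n1, e1⟩ := hP b a ha
                obtain ⟨c, -, e2⟩ := rep_mk (v a) n1
                have : height F (P a) ≤ 28 * C + N := by
                  rw [e1]
                  refine height_le (P := mon (Psi l0 a)) (c := c) ?_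
                    (deg_mon hC fun i => ((hgood b a ha).1 i).2.le)
                  rw [e2]
                  ext f
                  simp only [v, map_mon, map_Psi, hl']
                have h4 : (height F (P a) : ℝ) ≤ (28 * C + N : ℕ) := by exact_mod_cast this
                have h5 : (0 : ℝ) ≤ 1 + 1 / n := by positivity
                simp only
                nlinarith

end Pool.Agent.Lib.MP_dd9c4c_nt
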