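import Mathlib
import Pool.Agent.Lib.MP_dd9c4c_nt.Lower
import Pool.Agent.Lib.MP_dd9c4c_nt.Analysis

set_option linter.unusedSectionVars false
set_option linter.unusedSimpArgs false
set_option linter.unusedVariables false

namespace Pool.Agent.Lib.MP_dd9c4c_nt

open MvPolynomial

/-- Change the last factor. -/
def tv {k k' : ℕ} : Var k → Var k' := Sum.map id (Sum.map id (Sum.map id fun _ => 0))

/-- Change the last slots. -/
def ts {k k' : ℕ} : Slot k → Slot k' := Sum.map id (Sum.map id (Sum.map id fun _ => 0))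

lemma bk_tv {k k' : ℕ} (v : Var k) : bk (tv v : Var k') = bk v := by
  rcases v with _ | _ | _ | _ <;> rfl

lemma bs_ts {k k' : ℕ} (v : Slot k) : bs (ts v : Slot k') = bs v := by
  rcases v with _ | _ | _ | _ <;> rfl

/-- Transport of monomials. -/
def tr {k k' : ℕ} (f : II k) : II k' := ⟨fun s => tv (f.1 (ts s)), fun s => by rw [bk_tv, f.2, bs_ts]⟩

/-- Index of a coordinate of the last factor. -/
def zi : Var 1 → Fin 2
  | .inr (.inr (.inr j)) => j
  | _ => 0

/-- Indices in the last slots. -/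
def jj (a : Fin 2) (f : II 1) : Fin 2 := zi (f.1 (.inr (.inr (.inr a))))

lemma vz_jj (a : Fin 2) (f : II 1) : f.1 (.inr (.inr (.inr a))) = vz (jj a f) := by
  have := f.2 (.inr (.inr (.inr a)))
  rw [jj]
  generalize f.1 (.inr (.inr (.inr a))) = v at this
  rcases v with _ | _ | _ | _ <;> simp [bk, bs] at this
  rfl

lemma tv_tv {k k' : ℕ} {v : Var k} (h : bk v ≠ 3) : tv (tv v : Var k') = v := by
  rcases v with _ | _ | _ | _ <;> first | rfl | simp [bk] at h

lemma tv_tv0 (v : Var 0) : tv (tv v : Var 1) = v := by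
  rcases v with _ | _ | _ | j
  · rfl
  · rfl
  · rfl
  · rw [Fin.eq_zero j]; rfl

lemma ts_ts0 (v : Slot 0) : ts (ts v : Slot 1) = v := by
  rcases v with _ | _ | _ | j
  · rfl
  · rfl
  · rfl
  · rw [Fin.eq_zero j]; rfl

lemma tr_tr (m : II 0) : tr (tr m : II 1) = m :=
  Subtype.ext (funext fun s => by simp only [tr, tv_tv0, ts_ts0])

lemma jj_tr (a : Fin 2) (m : II 0) : jj a (tr m) = 0 := by
  simp only [jj, tr]
  generalize m.1 _ = v
  rcases v with _ | _ | _ | _ <;> rfl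

lemma exists_idx (m : II 0) (a b : Fin 2) : ∃ f : II 1, tr f = m ∧ jj 0 f = a ∧ jj 1 f = b := by
  refine ⟨upd (upd (tr m) (.inr (.inr (.inr 0))) (vz a) rfl) (.inr (.inr (.inr 1))) (vz b) rfl,
    ?_, ?_, ?_⟩
  · refine Subtype.ext (funext fun s => ?_)
    rcases s with s | s | s | j
    · simp [tr, upd, ts, tv_tv0]
    · simp [tr, upd, ts, tv_tv0]
    · simp [tr, upd, ts, tv_tv0]
    · have := m.2 (.inr (.inr (.inr j)))
      simp only [tr, upd, ts, Sum.map_inr]
      rw [Function.update_of_ne (by simp), Function.update_self]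
      generalize m.1 (.inr (.inr (.inr j))) = v at this
      rcases v with _ | _ | _ | j' <;> simp [bk, bs] at this
      rw [Fin.eq_zero j']; rfl
  · simp [jj, upd, zi]
  · simp [jj, upd, zi]

lemma mon_split {R : Type} [CommRing R] (h : Var 1 → R) (f : II 1) :
    mon h f * h (vz 0) = mon (fun v : Var 0 => h (tv v)) (tr f) *
      (h (vz (jj 0 f)) * h (vz (jj 1 f))) := by
  have e : ∀ s : Slot 1, bs s ≠ 3 → tv (tv (f.1 s) : Var 0) = f.1 s := fun s hs =>
    tv_tv (by rw [f.2]; exact hs)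
  have e' : (tv (tv (f.1 (.inr (.inr (.inr 0)))) : Var 0) : Var 1) = vz 0 := by rw [vz_jj]; rfl
  simp only [mon, tr, Fintype.prod_sum_type, Fin.prod_univ_two, Fin.prod_univ_one, ts,
    Sum.map_inl, Sum.map_inr, id, ← vz_jj, Nat.reduceAdd, Nat.zero_add, Finset.prod_const,
    Finset.card_univ, Fintype.card_fin, pow_one, e']
  simp only [e (.inl _) (by simp [bs]), e (.inr (.inl _)) (by simp [bs]),
    e (.inr (.inr (.inl _))) (by simp [bs])]
  ring

variable {K : Type} [Field K]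

lemma split_pt {h : Var 1 → K} (h0 : h (vz 0) ≠ 0) (f : II 1) :
    mon h f = h (vz 0) * (mon (fun v : Var 0 => h (tv v)) (tr f) *
      (![1, h (vz 1) / h (vz 0)] (jj 0 f) * ![1, h (vz 1) / h (vz 0)] (jj 1 f))) := by
  have e : ∀ a : Fin 2, h (vz a) = h (vz 0) * ![1, h (vz 1) / h (vz 0)] a := by
    intro a
    fin_cases a
    · simp
    · simp [mul_div_cancel₀ _ h0]
  refine mul_right_cancel₀ h0 ?_
  rw [mon_split, e (jj 0 f), e (jj 1 f)]
  ring

lemma proj_pt {y : Projectivization K (II 1 → K)} (hy : y ∈ pts K (xi 1 K)) {m : II 0}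
    (hm : y.rep (tr m) ≠ 0) : ∃ (x : Projectivization K (II 0 → K)) (z l : K), x ∈ pts K (xi 0 K) ∧
      l ≠ 0 ∧ y.rep = fun f => l * (x.rep (tr f) * (![1, z] (jj 0 f) * ![1, z] (jj 1 f))) := by
  obtain ⟨h, c, hq, e⟩ := pts_rep hy
  rw [e] at hm
  have h1 : mon h (tr m : II 1) ≠ 0 := right_ne_zero_of_mul hm
  have h0 : h (vz 0) ≠ 0 := by
    have := Finset.prod_ne_zero_iff.1 h1 (.inr (.inr (.inr 0))) (Finset.mem_univ _)
    rwa [vz_jj, jj_tr] at this
  have h2 : (mon (fun v : Var 0 => h (tv v)) : II 0 → K) ≠ 0 := by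
    intro e0
    rw [split_pt h0, e0] at h1
    simp at h1
  obtain ⟨c', hc', e'⟩ := rep_mk _ h2
  refine ⟨_, h (vz 1) / h (vz 0), c * h (vz 0) / c', mk_mem_pts (h := fun v : Var 0 => h (tv v)) hq h2,
    div_ne_zero (mul_ne_zero (left_ne_zero_of_mul hm) h0) hc', ?_⟩
  rw [e, e']
  ext f
  rw [split_pt h0]
  field_simp

lemma lift_pt {x : Projectivization K (II 0 → K)} (hx : x ∈ pts K (xi 0 K)) (z : K) :
    ∃ (y : Projectivization K (II 1 → K)) (l : K), y ∈ pts K (xi 1 K) ∧ l ≠ 0 ∧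
      y.rep = fun f => l * (x.rep (tr f) * (![1, z] (jj 0 f) * ![1, z] (jj 1 f))) := by
  obtain ⟨h, c, hq, e⟩ := pts_rep hx
  obtain ⟨m, hm⟩ := Function.ne_iff.1 x.rep_nonzero
  rw [e] at hm
  have h1 : mon h m ≠ 0 := right_ne_zero_of_mul hm
  have hc : c ≠ 0 := left_ne_zero_of_mul hm
  have h0 : h (vz 0) ≠ 0 := by
    have := Finset.prod_ne_zero_iff.1 h1 (.inr (.inr (.inr 0))) (Finset.mem_univ _)
    have e2 := m.2 (.inr (.inr (.inr 0)))
    generalize m.1 (.inr (.inr (.inr 0))) = v at this e2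
    rcases v with _ | _ | _ | j <;> simp [bk, bs] at e2
    rwa [Fin.eq_zero j] at this
  let H : Var 1 → K := pt (fun a i => h (vw a i)) (fun a => h (vu a)) (fun i => h (vx i))
    ![h (vz 0), h (vz 0) * z]
  have e1 : (fun v : Var 0 => H (tv v)) = h := by
    ext v
    rcases v with _ | _ | _ | j
    · rfl
    · rfl
    · rfl
    · rw [Fin.eq_zero j]; rfl
  have e2 : ∀ f : II 1, mon H f = h (vz 0) * (mon h (tr f) *
      (![1, z] (jj 0 f) * ![1, z] (jj 1 f))) := by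
    intro f
    rw [split_pt (h := H) h0, e1]
    simp [H, mul_div_cancel_left₀ _ h0]
  have h2 : (mon H : II 1 → K) ≠ 0 := by
    intro e0
    have := e2 (tr m)
    rw [e0, tr_tr, jj_tr, jj_tr] at this
    simp [h0, h1] at this
  obtain ⟨c', hc', e'⟩ := rep_mk _ h2
  refine ⟨_, c' * h (vz 0) / c, mk_mem_pts (h := H) hq h2, div_ne_zero (mul_ne_zero hc' h0) hc, ?_⟩
  rw [e, e']
  ext f
  rw [e2]
  field_simp

lemma proj_eq {ι : Type} {x y : Projectivization K (ι → K)} {c : K}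
    (h : x.rep = fun i => c * y.rep i) : x = y := by
  rw [← x.mk_rep, ← y.mk_rep, Projectivization.mk_eq_mk_iff']
  exact ⟨c, h.symm⟩

theorem main₂ (F : Type) [Field F] [Fintype F] (hq : 61 ≤ Fintype.card F) (h2 : (2 : F) ≠ 0) :
    ∃ (ι L : Type) (_ : Fintype ι) (_ : Field L) (_ : Algebra (RatFunc F) L) (ξ : ι → L) (t : ℕ),
      Nonempty ι ∧ (∀ (E : Type) [Field E] [Algebra (RatFunc F) E],
        IsDomain (TensorProduct (RatFunc F) E L)) ∧ Hyp (RatFunc F) ξ ∧ picRank (RatFunc F) ξ = t ∧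
      ∀ (n : ℕ) (G₀ : MvPolynomial ι (RatFunc F)), G₀.IsHomogeneous n →
        MvPolynomial.aeval ξ G₀ ≠ 0 →
        ∃ (m : ℕ) (G : MvPolynomial ι (RatFunc F)), G.IsHomogeneous m ∧
          MvPolynomial.aeval ξ G ≠ 0 ∧
          ¬ HasPole (Fintype.card F) (height F)
            {x ∈ pts (RatFunc F) ξ | MvPolynomial.eval x.rep (G₀ * G) ≠ 0} t := by
  have h2' : (2 : RatFunc F) ≠ 0 := by
    have := (map_ne_zero (algebraMap F (RatFunc F))).2 h2
    rwa [map_ofNat] at this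
  have : Infinite (RatFunc F) :=
    Infinite.of_injective _ (IsFractionRing.injective (Polynomial F) (RatFunc F))
  by_contra hcon
  push Not at hcon
  obtain ⟨n0, G0, hG0, a0, H0⟩ := hcon (II 0) (LL 0 _) inferInstance inferInstance inferInstance
    (xi 0 _) 3 ⟨(cs 0).idx⟩ (fun E _ _ => geom_frac (cs 0).Free E _) (hyp h2') (picRank_zero h2')
  obtain ⟨n1, G1, hG1, a1, H1⟩ := hcon (II 1) (LL 1 _) inferInstance inferInstance inferInstance
    (xi 1 _) 4 ⟨(cs 1).idx⟩ (fun E _ _ => geom_frac (cs 1).Free E _) (hyp h2') (picRank_one h2')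
  clear hcon
  set m0 := (cs 0).idx
  -- a slice of the second open set
  obtain ⟨p, hp1, hp2, hp3⟩ := exists_pt h2' (hG1.mul (isHomogeneous_X _ (tr m0)))
    (by rw [map_mul, aeval_X]; exact mul_ne_zero a1 (mon_ne gg_ne _))
  have hp4 := (eval_mk_ne hp2 (hG1.mul (isHomogeneous_X _ (tr m0)))).2 hp3
  rw [map_mul, eval_X] at hp4
  obtain ⟨x0, z0, l0, hx0, hl0, e0⟩ := proj_pt (mk_mem_pts hp1 hp2) (right_ne_zero_of_mul hp4)
  let G2 : MvPolynomial (II 0) (RatFunc F) :=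
    aeval (fun f : II 1 => C (![1, z0] (jj 0 f) * ![1, z0] (jj 1 f)) * X (tr f)) G1
  have hG2 : G2.IsHomogeneous (1 * n1) := hG1.aeval _ fun f => isHomogeneous_C_mul_X _ _
  have eG2 : ∀ (v : II 0 → RatFunc F) (l : RatFunc F),
      eval (fun f => l * (v (tr f) * (![1, z0] (jj 0 f) * ![1, z0] (jj 1 f)))) G1 =
        l ^ n1 * eval v G2 := by
    intro v l
    rw [← aeval_eq_eval, aeval_smul_hom hG1, ← aeval_eq_eval, ← AlgHom.comp_apply, comp_aeval]
    simp only [map_mul, aeval_X, aeval_C, Algebra.algebraMap_self, RingHom.id_apply, mul_comm]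
  have hG := hG2.mul (isHomogeneous_X _ m0)
  have hG' := hG0.mul hG
  have eG : ∀ (v : II 0 → RatFunc F) (l z : RatFunc F),
      eval (fun f => l * (v (tr f) * (![1, z] (jj 0 f) * ![1, z] (jj 1 f))))
        (rename tr (G0 * (G2 * X m0))) = l ^ (n0 + (1 * n1 + 1)) * eval v (G0 * (G2 * X m0)) := by
    intro v l z
    rw [eval_rename, ← aeval_eq_eval, ← aeval_eq_eval, ← aeval_smul_hom hG']
    congr 2
    ext m
    simp [tr_tr, jj_tr]
  have a2 : aeval (xi 0 (RatFunc F)) (G2 * X m0) ≠ 0 := by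
    intro h
    have h3 := hx0 _ _ hG h
    rw [e0, eG2] at hp4
    simp only [tr_tr, jj_tr] at hp4
    rw [map_mul, eval_X] at h3
    rcases mul_eq_zero.1 h3 with h | h <;> simp [h] at hp4
  have a3 : aeval (xi 0 (RatFunc F)) (G0 * (G2 * X m0)) ≠ 0 := by
    rw [map_mul]; exact mul_ne_zero a0 a2
  have a4 : aeval (xi 1 (RatFunc F)) (rename tr (G0 * (G2 * X m0))) ≠ 0 := by
    intro h
    obtain ⟨p', hp1', hp2', hp3'⟩ := exists_pt h2' hG' a3
    obtain ⟨y, l, hy, hl, e⟩ := lift_pt (mk_mem_pts hp1' hp2') z0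
    have h3 := hy _ _ hG'.rename_isHomogeneous h
    rw [e, eG] at h3
    exact mul_ne_zero (pow_ne_zero _ hl) ((eval_mk_ne hp2' hG').2 hp3') h3
  have P0 := H0 _ _ hG a2
  have P1 := H1 _ _ hG'.rename_isHomogeneous a4
  set U0 := {x ∈ pts (RatFunc F) (xi 0 (RatFunc F)) | eval x.rep (G0 * (G2 * X m0)) ≠ 0}
  set U1 := {x ∈ pts (RatFunc F) (xi 1 (RatFunc F)) |
    eval x.rep (G1 * rename tr (G0 * (G2 * X m0))) ≠ 0}
  have hi : ∀ x : U0, ∃ (y : U1) (l : RatFunc F), l ≠ 0 ∧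
      y.1.rep = fun f => l * (x.1.rep (tr f) * (![1, z0] (jj 0 f) * ![1, z0] (jj 1 f))) := by
    rintro ⟨x, hx, hx'⟩
    obtain ⟨y, l, hy, hl, e⟩ := lift_pt hx z0
    refine ⟨⟨y, hy, ?_⟩, l, hl, e⟩
    rw [map_mul, e, eG, eG2]
    refine mul_ne_zero (mul_ne_zero (pow_ne_zero _ hl) ?_) (mul_ne_zero (pow_ne_zero _ hl) hx')
    rw [map_mul, map_mul] at hx'
    exact left_ne_zero_of_mul (right_ne_zero_of_mul hx')
  have hj : ∀ y : U1, ∃ (x : U0 × RatFunc F) (l : RatFunc F), l ≠ 0 ∧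
      y.1.rep = fun f => l * (x.1.1.rep (tr f) * (![1, x.2] (jj 0 f) * ![1, x.2] (jj 1 f))) := by
    rintro ⟨y, hy, hy'⟩
    rw [map_mul] at hy'
    have h3 := right_ne_zero_of_mul hy'
    obtain ⟨x, z, l, hx, hl, e⟩ := proj_pt hy (m := m0) (by
      simp only [map_mul, rename_X, eval_X] at h3
      exact right_ne_zero_of_mul (right_ne_zero_of_mul h3))
    rw [e, eG] at h3
    exact ⟨(⟨x, hx, right_ne_zero_of_mul h3⟩, z), l, hl, e⟩
  choose i li hi1 hi2 using hi
  choose j lj hj1 hj2 using hj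
  refine no_poles (hY := fun z : RatFunc F => 2 * max z.denom.natDegree z.num.natDegree)
    Fintype.one_lt_card P0 P1 (lower_bound hq h2 hG' a3) i ?_ _ (fun x => height_tensor_le (hi2 x))
    j ?_ (fun y => height_tensor_ge exists_idx (hj2 y)) fun σ hσ => summable_ratFunc hσ
  · intro x x' h
    refine Subtype.ext (proj_eq (c := li x' / li x) ?_)
    ext m
    have := congrFun ((hi2 x).symm.trans (h ▸ hi2 x')) (tr m)
    simp only [tr_tr, jj_tr, Matrix.cons_val_zero, mul_one] at this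
    rw [div_mul_eq_mul_div, eq_div_iff (hi1 x), ← this, mul_comm]
  · intro y y' h
    refine Subtype.ext (proj_eq (c := lj y / lj y') ?_)
    rw [hj2 y, hj2 y', h]
    ext f
    have := hj1 y'
    field_simp

theorem main (F : Type) [Field F] [Fintype F] (hq : 61 ≤ Fintype.card F) (h2 : (2 : F) ≠ 0) :
    ∃ (ι L : Type) (_ : Fintype ι) (_ : Field L) (_ : Algebra (RatFunc F) L) (ξ : ι → L) (t : ℕ),
      Hyp (RatFunc F) ξ ∧ picRank (RatFunc F) ξ = t ∧
      ∀ (n : ℕ) (G₀ : MvPolynomial ι (RatFunc F)), G₀.IsHomogeneous n →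
        MvPolynomial.aeval ξ G₀ ≠ 0 →
        ∃ (m : ℕ) (G : MvPolynomial ι (RatFunc F)), G.IsHomogeneous m ∧
          MvPolynomial.aeval ξ G ≠ 0 ∧
          ¬ HasPole (Fintype.card F) (height F)
            {x ∈ pts (RatFunc F) ξ | MvPolynomial.eval x.rep (G₀ * G) ≠ 0} t := by
  obtain ⟨ι, L, a, b, c, ξ, t, -, -, h⟩ := main₂ F hq h2
  exact ⟨ι, L, a, b, c, ξ, t, h⟩

end Pool.Agent.Lib.MP_dd9c4c_nt
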